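import Mathlib
import Pool.Agent.LGO.Defs
import Pool.Agent.Hhelper14.ZP2.NotHecke

/-!
# LGO/H: definitions
-/

namespace Pool.Agent.LGO

open UpperHalfPlane Filter Topology Pool.Agent.Hhelper14.ZP

/-- `x` is not the `j`-invariant of an elliptic curve with complex multiplication -/
def NCM (x : ℂ) : Prop := ∀ τ : ℍ, jInv τ = x → ¬ IsCM τ

/-- the minimal degree of an isogeny between the elliptic curves with `j`-invariants `x` and `y`
(`0` if there is none) -/
noncomputable def mdeg (x y : ℂ) : ℕ := sInf {N : ℕ | 0 < N ∧ IsogDeg N x y}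

/-- there is a sequence of points of `V` whose coordinates `i a`, `a ≠ k`, tend to infinity, and whose
coordinate `i k` converges: the closure of `V` contains a point with exactly two infinite
coordinates, the finite one being the `k`-th -/
def TwoInf {n : ℕ} (V : Set (Fin n → ℂ)) (i : Fin 3 → Fin n) (k : Fin 3) : Prop :=
  ∃ (P : ℕ → Fin n → ℂ) (γ : ℂ), (∀ m, P m ∈ V) ∧
    (∀ a, a ≠ k → Tendsto (fun m => ‖P m (i a)‖) atTop atTop) ∧
    Tendsto (fun m => P m (i k)) atTop (𝓝 γ)

end Pool.Agent.LGO
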