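import Mathlib
import Pool.Agent.LGO.H.Defs
import Pool.Agent.LGO.G.Geo
import Pool.Agent.LGO.G.RelF

/-!
# LGO/H: the function at a point of the boundary with two infinite coordinates

Proof of `cuspF`.  Let `P, γ` be as in `TwoInf` and `a₀ ≠ k`; `F` from `geo` (for `P` and `a₀`).
For `a ≠ k` apply `geo` with `N = 1`, `D = X a`: `1 / P m (i a) → 0`, and `P m (i a) ≠ 0` for large `m`.  So
`C ≤ ‖s F‖` implies `‖s F‖ ≤ C ‖s x_a‖ ^ m`; the exponents `m` (two values of `a`) can be made equal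
because `C ≤ ‖s F‖ ≤ C ‖s x_a‖ ^ m` implies `‖s x_a‖ ≥ 1`; also the constants.
`γ` is algebraic (`limit_algebraic`), so `γ` is the value of a `g : Qb` and `N = X k - C g`, `D = 1` gives
`‖s (x_k - γ)‖ ^ m ‖s F‖ ≤ C`, so `‖s x_k - s γ‖ ≤ 1` if `C ≤ ‖s F‖`.  `s γ` is a root of the minimal polynomial
of `γ` over `ℚ` for every automorphism `s`, so `‖s γ‖` is bounded independently of `s`.
-/

namespace Pool.Agent.LGO

open MvPolynomial Filter Topology Pool.Agent.Hhelper14.ZPL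

/-- the conjugates of an algebraic number are bounded -/
theorem CuspF_conj {γ : ℂ} (h : IsAlgebraic ℚ γ) : ∃ B : ℝ, 0 ≤ B ∧ ∀ s : ℂ ≃+* ℂ, ‖s γ‖ ≤ B := by
  obtain ⟨p, hp, hp0⟩ := h
  have hfin : (p.rootSet ℂ).Finite := Polynomial.rootSet_finite p ℂ
  obtain ⟨B, hB⟩ := (hfin.image fun z => ‖z‖).bddAbove
  refine ⟨max B 0, le_max_right _ _, fun s => ?_⟩
  have h1 : Polynomial.aeval (s γ) p = 0 := by
    have h2 := Polynomial.aeval_algHom_apply (RingHom.toRatAlgHom (s : ℂ →+* ℂ)) γ p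
    rw [hp0, map_zero] at h2
    exact h2
  have h3 : s γ ∈ p.rootSet ℂ := by
    rw [Polynomial.mem_rootSet]
    exact ⟨hp, h1⟩
  exact (hB ⟨s γ, h3, rfl⟩).trans (le_max_left _ _)

theorem cuspF {n : ℕ} {V : Set (Fin n → ℂ)} (hV : Pool.Agent.Hhelper14.ZPL.IsIrredClosed V)
    (hVk : KClosed V) (hdim : Pool.Agent.Hhelper14.ZPL.dim V = 1) (i : Fin 3 → Fin n)
    {k : Fin 3} (hk : TwoInf V i k) :
    ∃ (F : MvPolynomial (Fin 3) Qb) (C : ℝ) (m : ℕ),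
      (∀ c : ℂ, ∃ x ∈ V, (aeval (x ∘ i) F : ℂ) ≠ c) ∧ 1 ≤ C ∧ 0 < m ∧
      ∀ s : ℂ ≃+* ℂ, ∀ x ∈ V, C ≤ ‖s (aeval (x ∘ i) F : ℂ)‖ →
        (∀ a, a ≠ k → ‖s (aeval (x ∘ i) F : ℂ)‖ ≤ C * ‖s (x (i a))‖ ^ m) ∧ ‖s (x (i k))‖ ≤ C := by
  obtain ⟨P, γ, hP, hinf, hlim⟩ := hk
  obtain ⟨a₀, ha₀⟩ : ∃ a₀ : Fin 3, a₀ ≠ k := exists_ne k
  obtain ⟨F, hF, hgeo⟩ := geo hV hVk hdim i P hP a₀ (hinf a₀ ha₀)
  -- the infinite coordinates
  have h1 : ∀ a : Fin 3, ∃ (C : ℝ) (m : ℕ), 0 < C ∧ 0 < m ∧ (a ≠ k → ∀ s : ℂ ≃+* ℂ, ∀ x ∈ V,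
      C ≤ ‖s (aeval (x ∘ i) F : ℂ)‖ → ‖s (aeval (x ∘ i) F : ℂ)‖ ≤ C * ‖s (x (i a))‖ ^ m) := by
    intro a
    by_cases hak : a = k
    · exact ⟨1, 1, one_pos, one_pos, fun h => absurd hak h⟩
    · have ht := hinf a hak
      obtain ⟨C, m, hC, hm, h⟩ := hgeo 1 (X a) (by
        obtain ⟨m, hm⟩ := (ht.eventually_gt_atTop 0).exists
        refine ⟨P m, hP m, ?_⟩
        rw [aeval_X]
        exact norm_pos_iff.1 hm) (by
        have h2 : Tendsto (fun m => (P m (i a))⁻¹) atTop (𝓝 0) :=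
          tendsto_inv₀_cobounded.comp (tendsto_norm_atTop_iff_cobounded.1 ht)
        simpa only [aeval_X, map_one, one_div, Function.comp_apply] using h2)
      refine ⟨C, m, hC, hm, fun _ s x hx hle => ?_⟩
      have h3 := h s x hx hle
      simpa only [map_one, norm_one, one_pow, one_mul, aeval_X, Function.comp_apply] using h3
  choose Ca ma hCa hma h2 using h1
  -- the finite coordinate
  have halg : IsAlgebraic ℚ γ := limit_algebraic hV hVk hdim i P hP a₀ k (hinf a₀ ha₀) hlim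
  obtain ⟨B, hB0, hB⟩ := CuspF_conj halg
  have hγ : γ ∈ Qb := by
    rw [show Qb = algebraicClosure ℚ ℂ from rfl, mem_algebraicClosure_iff]
    exact halg
  obtain ⟨C', m', hC', hm', h3⟩ := hgeo (X k - C (⟨γ, hγ⟩ : Qb)) 1 (by
    refine ⟨P 0, hP 0, ?_⟩
    rw [map_one]
    exact one_ne_zero) (by
    have h4 : Tendsto (fun m => P m (i k) - γ) atTop (𝓝 (γ - γ)) := hlim.sub_const γ
    rw [sub_self] at h4
    have h5 : (fun m => (aeval (P m ∘ i) (X k - C (⟨γ, hγ⟩ : Qb)) / aeval (P m ∘ i)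
        (1 : MvPolynomial (Fin 3) Qb) : ℂ)) = fun m => P m (i k) - γ := by
      funext m
      rw [map_sub, aeval_X, aeval_C, map_one, div_one]
      rfl
    rw [h5]
    exact h4)
  have hS0 : ∀ a, Ca a ≤ ∑ b, Ca b := fun a =>
    Finset.single_le_sum (fun b _ => (hCa b).le) (Finset.mem_univ a)
  have hS1 : 0 ≤ ∑ b, Ca b := Finset.sum_nonneg fun b _ => (hCa b).le
  have hm1 : ∀ a, ma a ≤ ∑ b, ma b := fun a =>
    Finset.single_le_sum (fun b _ => Nat.zero_le _) (Finset.mem_univ a)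
  refine ⟨F, 1 + B + C' + ∑ b, Ca b, ∑ b, ma b, hF, by linarith, (hma a₀).trans_le (hm1 a₀), ?_⟩
  intro s x hx hle
  refine ⟨fun a hak => ?_, ?_⟩
  · have h4 : Ca a ≤ ‖s (aeval (x ∘ i) F : ℂ)‖ := by
      have := hS0 a
      linarith
    have h5 := h2 a hak s x hx h4
    have h6 : 1 ≤ ‖s (x (i a))‖ ^ ma a := by
      have h7 : Ca a * 1 ≤ Ca a * ‖s (x (i a))‖ ^ ma a := by rw [mul_one]; exact h4.trans h5
      exact le_of_mul_le_mul_left h7 (hCa a)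
    have h8 : 1 ≤ ‖s (x (i a))‖ := by
      by_contra hcon
      push Not at hcon
      have := pow_lt_one₀ (norm_nonneg (s (x (i a)))) hcon (hma a).ne'
      linarith
    calc ‖s (aeval (x ∘ i) F : ℂ)‖ ≤ Ca a * ‖s (x (i a))‖ ^ ma a := h5
      _ ≤ Ca a * ‖s (x (i a))‖ ^ (∑ b, ma b) :=
          mul_le_mul_of_nonneg_left (pow_le_pow_right₀ h8 (hm1 a)) (hCa a).le
      _ ≤ (1 + B + C' + ∑ b, Ca b) * ‖s (x (i a))‖ ^ (∑ b, ma b) := by
          refine mul_le_mul_of_nonneg_right ?_ (by positivity)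
          have := hS0 a
          linarith
  · have h4 : C' ≤ ‖s (aeval (x ∘ i) F : ℂ)‖ := by linarith
    have h5 := h3 s x hx h4
    rw [map_one, map_one, norm_one, one_pow, mul_one, map_sub, aeval_X, aeval_C] at h5
    have h6 : ‖s (x (i k) - γ)‖ ^ m' * ‖s (aeval (x ∘ i) F : ℂ)‖ ≤ C' := h5
    have h7 : ‖s (x (i k) - γ)‖ ^ m' ≤ 1 := by
      by_contra hcon
      push Not at hcon
      have h8 : C' < ‖s (x (i k) - γ)‖ ^ m' * ‖s (aeval (x ∘ i) F : ℂ)‖ := by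
        calc C' ≤ ‖s (aeval (x ∘ i) F : ℂ)‖ := h4
          _ = 1 * ‖s (aeval (x ∘ i) F : ℂ)‖ := (one_mul _).symm
          _ < ‖s (x (i k) - γ)‖ ^ m' * ‖s (aeval (x ∘ i) F : ℂ)‖ :=
              mul_lt_mul_of_pos_right hcon (hC'.trans_le h4)
      linarith
    have h8 : ‖s (x (i k) - γ)‖ ≤ 1 := by
      by_contra hcon
      push Not at hcon
      have := one_lt_pow₀ hcon hm'.ne'
      linarith
    have h9 : ‖s (x (i k))‖ ≤ ‖s (x (i k) - γ)‖ + ‖s γ‖ := by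
      have h10 : s (x (i k)) = s (x (i k) - γ) + s γ := by rw [← map_add, sub_add_cancel]
      rw [h10]
      exact norm_add_le _ _
    have := hB s
    linarith

end Pool.Agent.LGO
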