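import Mathlib
import Pool.Agent.LGO.H.Defs
import Pool.Agent.Hhelper14.ZP.JFun

/-!
# LGO/H: size of the modular invariant in the fundamental domain

Proofs.  `exists_J` (`Hhelper14/ZP/JFun.lean`): `jInv τ * q = J q`, `q = qParam 1 τ`, `‖q‖ = exp (-2 π Im τ)`
(`Function.Periodic.norm_qParam`), with `J` given by a convergent power series on the unit disc
(`Good.continuousAt_zero` and the like; on the closed disc of radius `exp (-π √3) < 1` it is continuous,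
hence bounded) and `J 0 = 1`.  For `Red τ`: `Im τ ≥ √3 / 2`, so `‖q‖ ≤ exp (-π √3) < 1`.
* `norm_j_le`: `‖jInv τ‖ = ‖J q‖ / ‖q‖ ≤ C exp (2 π Im τ)`.
* `exp_im_le`: there is `δ > 0` with `‖J z‖ ≥ 1 / 2` for `‖z‖ ≤ δ`.  If `‖q‖ ≤ δ` then
  `exp (2 π Im τ) = 1 / ‖q‖ ≤ 2 ‖jInv τ‖`; otherwise `exp (2 π Im τ) ≤ 1 / δ`.
* `im_maps`: with `c = g 1 0`, `d = g 1 1`: `τ' (c τ + d) = a τ + b` gives
  `Im τ' = det g * Im τ / |c τ + d|²`.  If `c = 0` then `d ≠ 0` and `|c τ + d| ≥ 1`; if `c ≠ 0` then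
  `|c τ + d|² ≥ (Im τ)²` and `Im τ ≥ √3 / 2 ≥ 1 / 2`.
-/

namespace Pool.Agent.LGO

open UpperHalfPlane Pool.Agent.Hhelper14.ZP

theorem Red.half_le {τ : ℂ} (h : Red τ) : √3 / 2 ≤ τ.im := by
  obtain ⟨h1, h2, h3⟩ := h
  have h4 : 1 ≤ τ.re ^ 2 + τ.im ^ 2 := by
    have h5 : ‖τ‖ ^ 2 = τ.re ^ 2 + τ.im ^ 2 := by
      rw [Complex.sq_norm, Complex.normSq_apply]
      ring
    rw [← h5]
    nlinarith [norm_nonneg τ]
  have h6 : τ.re ^ 2 ≤ 1 / 4 := by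
    have h7 := abs_le.1 h2
    nlinarith [h7.1, h7.2]
  have h8 : √3 ^ 2 = 3 := Real.sq_sqrt (by norm_num)
  by_contra h9
  push Not at h9
  have h10 : 0 ≤ √3 := Real.sqrt_nonneg 3
  nlinarith

theorem JSize_norm_q (τ : ℍ) : ‖Function.Periodic.qParam 1 (τ : ℂ)‖ =
    Real.exp (-(2 * Real.pi * τ.im)) := by
  rw [Function.Periodic.norm_qParam]
  congr 1
  rw [div_one, coe_im]
  ring

theorem JSize_bdd {O : Subring ℂ} {J : ℂ → ℂ} (hJ : Good O J) {ρ : ℝ} (h0 : 0 ≤ ρ) (h1 : ρ < 1) :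
    ∃ C : ℝ, 0 < C ∧ ∀ z : ℂ, ‖z‖ ≤ ρ → ‖J z‖ ≤ C := by
  obtain ⟨a, -, hs⟩ := hJ
  have hρ : ‖(ρ : ℂ)‖ = ρ := by rw [Complex.norm_real, Real.norm_of_nonneg h0]
  have h2 : Summable fun n => ‖a n * (ρ : ℂ) ^ n‖ := (hs ρ (by rw [hρ]; exact h1)).summable.norm
  have h3 : 0 ≤ ∑' n, ‖a n * (ρ : ℂ) ^ n‖ := tsum_nonneg fun _ => norm_nonneg _
  refine ⟨∑' n, ‖a n * (ρ : ℂ) ^ n‖ + 1, by linarith, fun z hz => ?_⟩
  have h4 := (hs z (hz.trans_lt h1)).norm_le_of_bounded h2.hasSum fun n => by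
    rw [norm_mul, norm_mul, norm_pow, norm_pow, hρ]
    exact mul_le_mul_of_nonneg_left (pow_le_pow_left₀ (norm_nonneg _) hz n) (norm_nonneg _)
  linarith

theorem JSize_q_le {τ : ℍ} (h : Red (τ : ℂ)) : ‖Function.Periodic.qParam 1 (τ : ℂ)‖ ≤
    Real.exp (-(Real.pi * √3)) := by
  rw [JSize_norm_q]
  apply Real.exp_le_exp.2
  have h1 : √3 / 2 ≤ τ.im := h.half_le
  have := Real.pi_pos
  nlinarith

theorem JSize_lt_one : Real.exp (-(Real.pi * √3)) < 1 := by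
  rw [Real.exp_lt_one_iff]
  have h1 : 0 < √3 := Real.sqrt_pos.2 (by norm_num)
  have := mul_pos Real.pi_pos h1
  linarith

theorem norm_j_le : ∃ C : ℝ, 0 < C ∧ ∀ τ : ℍ, Red (τ : ℂ) →
    ‖jInv τ‖ ≤ C * Real.exp (2 * Real.pi * τ.im) := by
  obtain ⟨J, hJ, -, hj⟩ := exists_J
  obtain ⟨C, hC, hb⟩ := JSize_bdd hJ (Real.exp_pos _).le JSize_lt_one
  refine ⟨C, hC, fun τ hτ => ?_⟩
  have h1 := hb _ (JSize_q_le hτ)
  rw [← hj τ, norm_mul, JSize_norm_q] at h1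
  have h2 : Real.exp (-(2 * Real.pi * τ.im)) * Real.exp (2 * Real.pi * τ.im) = 1 := by
    rw [← Real.exp_add, neg_add_cancel, Real.exp_zero]
  calc ‖jInv τ‖ = ‖jInv τ‖ * Real.exp (-(2 * Real.pi * τ.im)) *
        Real.exp (2 * Real.pi * τ.im) := by rw [mul_assoc, h2, mul_one]
    _ ≤ C * Real.exp (2 * Real.pi * τ.im) :=
        mul_le_mul_of_nonneg_right h1 (Real.exp_pos _).le

theorem exp_im_le : ∃ C : ℝ, 0 < C ∧ ∀ τ : ℍ, Red (τ : ℂ) →
    Real.exp (2 * Real.pi * τ.im) ≤ C * (1 + ‖jInv τ‖) := by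
  obtain ⟨J, hJ, hJ0, hj⟩ := exists_J
  obtain ⟨δ, hδ, hb⟩ := Metric.continuousAt_iff.1 hJ.continuousAt_zero (1 / 2) (by norm_num)
  have hδi : 0 < 1 / δ := one_div_pos.2 hδ
  refine ⟨2 + 1 / δ, by linarith, fun τ _ => ?_⟩
  have h2 : Real.exp (-(2 * Real.pi * τ.im)) * Real.exp (2 * Real.pi * τ.im) = 1 := by
    rw [← Real.exp_add, neg_add_cancel, Real.exp_zero]
  have hE := Real.exp_pos (2 * Real.pi * τ.im)
  have hj0 := norm_nonneg (jInv τ)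
  rcases lt_or_ge (‖Function.Periodic.qParam 1 (τ : ℂ)‖) δ with h | h
  · have h3 : dist (J (Function.Periodic.qParam 1 (τ : ℂ))) (J 0) < 1 / 2 := by
      apply hb
      rwa [dist_zero_right]
    rw [hJ0, dist_eq_norm] at h3
    have h4 : 1 / 2 ≤ ‖J (Function.Periodic.qParam 1 (τ : ℂ))‖ := by
      have h5 : ‖(1 : ℂ)‖ ≤ ‖J (Function.Periodic.qParam 1 (τ : ℂ))‖ +
          ‖J (Function.Periodic.qParam 1 (τ : ℂ)) - 1‖ := by
        have h6 := norm_sub_le (J (Function.Periodic.qParam 1 (τ : ℂ)))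
          (J (Function.Periodic.qParam 1 (τ : ℂ)) - 1)
        rwa [sub_sub_cancel] at h6
      rw [norm_one] at h5
      linarith
    rw [← hj τ, norm_mul, JSize_norm_q] at h4
    have h7 : Real.exp (2 * Real.pi * τ.im) ≤ 2 * ‖jInv τ‖ := by
      have h8 := mul_le_mul_of_nonneg_right h4 hE.le
      rw [mul_assoc ‖jInv τ‖, h2, mul_one] at h8
      linarith
    have h9 : 0 ≤ 1 / δ * (1 + ‖jInv τ‖) := mul_nonneg hδi.le (by linarith)
    nlinarith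
  · rw [JSize_norm_q] at h
    have h3 : Real.exp (2 * Real.pi * τ.im) ≤ 1 / δ := by
      rw [le_div_iff₀ hδ]
      have h4 := mul_le_mul_of_nonneg_right h hE.le
      rw [h2] at h4
      linarith
    have h9 : 0 ≤ 1 / δ * ‖jInv τ‖ := mul_nonneg hδi.le hj0
    nlinarith

theorem im_maps {τ τ' : ℂ} (hτ : Red τ) {g : Matrix (Fin 2) (Fin 2) ℤ} (hg : 0 < g.det)
    (h : Maps g τ τ') : τ'.im ≤ g.det * (2 + τ.im) := by
  have hdet : (g.det : ℝ) = (g 0 0 : ℝ) * g 1 1 - (g 0 1 : ℝ) * g 1 0 := by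
    rw [Matrix.det_fin_two]
    push_cast
    ring
  have hg' : (1 : ℝ) ≤ g.det := by exact_mod_cast hg
  unfold Maps at h
  have hre := congrArg Complex.re h
  have him := congrArg Complex.im h
  simp only [Complex.mul_re, Complex.mul_im, Complex.add_re, Complex.add_im, Complex.intCast_re,
    Complex.intCast_im, zero_mul, sub_zero, add_zero] at hre him
  have hy := hτ.im_pos
  have hhalf : 1 / 2 ≤ τ.im := by
    refine le_trans ?_ hτ.half_le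
    have h1 : 1 ≤ √3 := by
      rw [Real.one_le_sqrt]
      norm_num
    linarith
  have key : τ'.im * (((g 1 0 : ℝ) * τ.re + g 1 1) ^ 2 + ((g 1 0 : ℝ) * τ.im) ^ 2) =
      g.det * τ.im := by
    rw [hdet]
    linear_combination ((g 1 0 : ℝ) * τ.re + g 1 1) * him - ((g 1 0 : ℝ) * τ.im) * hre
  have hn : 0 ≤ ((g 1 0 : ℝ) * τ.re + g 1 1) ^ 2 + ((g 1 0 : ℝ) * τ.im) ^ 2 := by positivity
  have hpos : 0 < (g.det : ℝ) * τ.im := by positivity
  have hy' : 0 < τ'.im := by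
    rw [← key] at hpos
    by_contra hneg
    push Not at hneg
    exact absurd hpos (not_lt.2 (mul_nonpos_of_nonpos_of_nonneg hneg hn))
  by_cases hc : g 1 0 = 0
  · have hd : g 1 1 ≠ 0 := by
      intro hd
      rw [Matrix.det_fin_two, hc, hd] at hg
      simp at hg
    have hd2 : (1 : ℝ) ≤ (g 1 1 : ℝ) ^ 2 := by
      have h5 : 1 ≤ (g 1 1) ^ 2 := by
        have := sq_pos_of_ne_zero hd
        omega
      exact_mod_cast h5
    rw [hc, Int.cast_zero, zero_mul, zero_add, zero_mul, zero_pow two_ne_zero, add_zero] at key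
    have h6 : τ'.im * 1 ≤ τ'.im * (g 1 1 : ℝ) ^ 2 := mul_le_mul_of_nonneg_left hd2 hy'.le
    rw [mul_one, key] at h6
    linarith
  · have hc2 : (1 : ℝ) ≤ (g 1 0 : ℝ) ^ 2 := by
      have h5 : 1 ≤ (g 1 0) ^ 2 := by
        have := sq_pos_of_ne_zero hc
        omega
      exact_mod_cast h5
    have h6 : τ.im ^ 2 ≤ ((g 1 0 : ℝ) * τ.re + g 1 1) ^ 2 + ((g 1 0 : ℝ) * τ.im) ^ 2 := by
      rw [mul_pow]
      nlinarith [sq_nonneg ((g 1 0 : ℝ) * τ.re + g 1 1), sq_nonneg τ.im]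
    have h7 : τ'.im * τ.im ^ 2 ≤ g.det * τ.im := by
      rw [← key]
      exact mul_le_mul_of_nonneg_left h6 hy'.le
    have h8 : τ'.im * τ.im ≤ g.det := by
      have h9 : (τ'.im * τ.im) * τ.im ≤ g.det * τ.im := by
        rw [mul_assoc, ← sq]
        exact h7
      exact le_of_mul_le_mul_right h9 hy
    nlinarith

end Pool.Agent.LGO
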