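import Mathlib
import Pool.Agent.LGO.H.Defs
import Pool.Agent.LGO.Gal.Inv
import Pool.Agent.LGO.Gal.CM
import Pool.Agent.Hhelper14.ZPL.Rho

/-!
# LGO/H: minimal isogeny degrees, non-CM values

`NCM` and `mdeg` in terms of the Galois facts of helper14 (`LGO/Gal`).
-/

namespace Pool.Agent.LGO

open UpperHalfPlane ModularForm EisensteinSeries ModularFormClass SlashInvariantFormClass
  MatrixGroups Pool.Agent.Hhelper14.ZP

theorem ncm_iff {x : ℂ} : NCM x ↔ ¬ IsCMVal x := by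
  constructor
  · rintro h ⟨τ, h1, h2⟩
    exact h τ h2.symm h1
  · intro h τ h1 h2
    exact h ⟨τ, h2, h1.symm⟩

theorem NCM.map {x : ℂ} (h : NCM x) (s : ℂ ≃+* ℂ) : NCM (s x) := by
  rw [ncm_iff, isCMVal_map_iff, ← ncm_iff]
  exact h

theorem NCM.of_isog {N : ℕ} (hN : 0 < N) {x y : ℂ} (h : IsogDeg N x y) (hx : NCM x) : NCM y := by
  rw [ncm_iff, ← IsogDeg.isCMVal_iff hN h, ← ncm_iff]
  exact hx

theorem NCM.ne_zero {x : ℂ} (h : NCM x) : x ≠ 0 := by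
  rintro rfl
  obtain ⟨s, h1, h2⟩ := Pool.Agent.Hhelper14.ZPL.exists_cm_zero
  exact h s h2 h1

theorem exists_cm_1728 : ∃ s : ℍ, IsCM s ∧ jInv s = 1728 := by
  refine ⟨I, ⟨1, 0, 1, one_ne_zero, by push_cast; linear_combination Complex.I_sq⟩, ?_⟩
  have hfix : ModularGroup.S • I = I := by
    rw [UpperHalfPlane.modular_S_smul]
    apply UpperHalfPlane.ext
    change (-(I : ℂ))⁻¹ = I
    rw [coe_I, inv_neg, Complex.inv_I, neg_neg]
  have h6 : E₆ (ModularGroup.S • I) = denom ModularGroup.S I ^ (6 : ℤ) * E₆ I := by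
    have : SlashInvariantFormClass (ModularForm 𝒮ℒ 6) (CongruenceSubgroup.Gamma 1) 6 :=
      CongruenceSubgroup.Gamma_one_coe_eq_SL ▸ inferInstance
    exact SlashInvariantForm.slash_action_eqn_SL'' E₆
      (CongruenceSubgroup.mem_Gamma_one ModularGroup.S) I
  have hden : denom ((ModularGroup.S : SL(2, ℤ)) : GL (Fin 2) ℝ) I = Complex.I := by
    have e0 : (ModularGroup.S).1 1 0 = 1 := by decide
    have e1 : (ModularGroup.S).1 1 1 = 0 := by decide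
    rw [UpperHalfPlane.denom]
    change (((((ModularGroup.S).1 1 0 : ℤ) : ℝ) : ℂ)) * (I : ℂ) +
      (((((ModularGroup.S).1 1 1 : ℤ) : ℝ) : ℂ)) = _
    rw [e0, e1, coe_I]
    simp
  rw [hfix, hden] at h6
  have h7 : (Complex.I : ℂ) ^ (6 : ℤ) = -1 := by
    have : (Complex.I : ℂ) ^ (6 : ℤ) = Complex.I ^ 6 := by norm_cast
    rw [this]
    linear_combination (Complex.I ^ 4 - Complex.I ^ 2 + 1) * Complex.I_sq
  rw [h7] at h6
  have h8 : E₆ I = 0 := by linear_combination h6 / 2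
  have hd := ModularForm.discriminant_ne_zero I
  have h9 := ModularForm.discriminant_eq_E₄_cube_sub_E₆_sq I
  rw [h8] at h9
  rw [jInv, div_eq_iff hd, h9]
  ring

theorem NCM.ne_1728 {x : ℂ} (h : NCM x) : x ≠ 1728 := by
  rintro rfl
  obtain ⟨s, h1, h2⟩ := exists_cm_1728
  exact h s h2 h1

theorem mdeg_spec {x y : ℂ} (h : ∃ N, 0 < N ∧ IsogDeg N x y) :
    0 < mdeg x y ∧ IsogDeg (mdeg x y) x y :=
  Nat.sInf_mem (s := {N : ℕ | 0 < N ∧ IsogDeg N x y}) h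

theorem mdeg_le {x y : ℂ} {N : ℕ} (hN : 0 < N) (h : IsogDeg N x y) : mdeg x y ≤ N :=
  Nat.sInf_le (s := {N : ℕ | 0 < N ∧ IsogDeg N x y}) ⟨hN, h⟩

theorem mdeg_map (s : ℂ ≃+* ℂ) (x y : ℂ) : mdeg (s x) (s y) = mdeg x y := by
  unfold mdeg
  congr 1
  ext N
  constructor
  · rintro ⟨h1, h2⟩
    exact ⟨h1, (isogDeg_map_iff s h1).mp h2⟩
  · rintro ⟨h1, h2⟩
    exact ⟨h1, (isogDeg_map_iff s h1).mpr h2⟩

theorem mdeg_symm (x y : ℂ) : mdeg x y = mdeg y x := by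
  unfold mdeg
  congr 1
  ext N
  exact ⟨fun h => ⟨h.1, h.2.symm⟩, fun h => ⟨h.1, h.2.symm⟩⟩

theorem mdeg_pos {x y : ℂ} (h : ∃ N, 0 < N ∧ IsogDeg N x y) : 0 < mdeg x y := (mdeg_spec h).1

theorem exists_prim_mdeg {τ τ' : ℍ} (h : ∃ N, 0 < N ∧ IsogDeg N (jInv τ) (jInv τ')) :
    ∃ g : Matrix (Fin 2) (Fin 2) ℤ, g.det = mdeg (jInv τ) (jInv τ') ∧ 0 < g.det ∧ Prim g ∧
      Maps g (τ : ℂ) (τ' : ℂ) := by
  obtain ⟨h0, h1⟩ := mdeg_spec h
  obtain ⟨g, hg, hm⟩ := (Gal.isogDeg_iff_maps h0 τ τ').mp h1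
  have hpos : 0 < g.det := by rw [hg]; exact_mod_cast h0
  refine ⟨g, hg, hpos, ?_, hm⟩
  obtain ⟨k, g', hk, hgk, hp⟩ := LGO.exists_prim hpos.ne'
  have hdet : g.det = (k : ℤ) ^ 2 * g'.det := by
    rw [hgk, Matrix.det_smul]
    simp
  have hk' : (0 : ℤ) < (k : ℤ) ^ 2 := by positivity
  have hg'pos : 0 < g'.det := by
    by_contra hcon
    push Not at hcon
    have := mul_nonpos_of_nonneg_of_nonpos hk'.le hcon
    rw [← hdet] at this
    exact absurd hpos (not_lt.mpr this)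
  obtain ⟨n, hn⟩ := Int.eq_ofNat_of_zero_le hg'pos.le
  have hn0 : 0 < n := by
    rw [hn] at hg'pos
    exact_mod_cast hg'pos
  have hm' : Maps g' (τ : ℂ) (τ' : ℂ) := by
    rw [hgk] at hm
    exact (Maps.smul_iff (by exact_mod_cast hk.ne')).mp hm
  have h2 : mdeg (jInv τ) (jInv τ') ≤ n :=
    mdeg_le hn0 ((Gal.isogDeg_iff_maps hn0 τ τ').mpr ⟨g', hn, hm'⟩)
  have h3 : (mdeg (jInv τ) (jInv τ') : ℤ) = (k : ℤ) ^ 2 * n := by
    rw [← hg, hdet, hn]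
  have h4 : mdeg (jInv τ) (jInv τ') = k ^ 2 * n := by exact_mod_cast h3
  have h5 : k ^ 2 * n ≤ 1 * n := by rw [← h4, one_mul]; exact h2
  have h6 : k ^ 2 ≤ 1 := Nat.le_of_mul_le_mul_right h5 hn0
  have h7 : k = 1 := by
    have : k ≤ 1 := by
      by_contra hcon
      push Not at hcon
      nlinarith
    omega
  rw [hgk, h7]
  simpa using hp

end Pool.Agent.LGO
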