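import Mathlib
import Pool.Agent.LGO.Mul.Ht

/-!
# LGO/H: calculus of the height condition `Bd`

`KS s K` is the image of the number field `K` under the automorphism `s` of `ℂ`; `KS s K → ℂ` are the
`σ ∘ s⁻¹`, `σ : K → ℂ`.  `exists_aut` and `Bd.lower` (Liouville) are in `LGO/Mul/Ht.lean`.
Proofs: the denominator of `x + y`, `x y` is the product of the denominators; an embedding of `K'`
restricts to `K` (for `K ≤ K'`: `IntermediateField.inclusion`); `Bd.aut`: the restriction of `s` to `K` is an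
embedding; `bd_of_aut`: every embedding `K → ℂ` extends to an automorphism (`exists_aut`).
-/

namespace Pool.Agent.LGO

/-- the image of a subfield under an automorphism of `ℂ` -/
noncomputable def KS (s : ℂ ≃+* ℂ) (K : IntermediateField ℚ ℂ) : IntermediateField ℚ ℂ :=
  K.map (RingHom.toRatAlgHom (s : ℂ →+* ℂ))

theorem mem_KS {s : ℂ ≃+* ℂ} {K : IntermediateField ℚ ℂ} {x : ℂ} (hx : x ∈ K) : s x ∈ KS s K := by
  rw [KS, IntermediateField.mem_map]
  exact ⟨x, hx, rfl⟩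

/-- the isomorphism of `K` with its image -/
noncomputable def eKS (s : ℂ ≃+* ℂ) (K : IntermediateField ℚ ℂ) : K ≃ₐ[ℚ] KS s K :=
  K.equivMap (RingHom.toRatAlgHom (s : ℂ →+* ℂ))

theorem eKS_apply (s : ℂ ≃+* ℂ) (K : IntermediateField ℚ ℂ) (x : K) :
    ((eKS s K x : KS s K) : ℂ) = s x := rfl

instance finite_KS (s : ℂ ≃+* ℂ) (K : IntermediateField ℚ ℂ) [FiniteDimensional ℚ K] :
    FiniteDimensional ℚ (KS s K) :=
  (eKS s K).toLinearEquiv.finiteDimensional

theorem finrank_KS (s : ℂ ≃+* ℂ) (K : IntermediateField ℚ ℂ) :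
    Module.finrank ℚ (KS s K) = Module.finrank ℚ K :=
  (eKS s K).toLinearEquiv.symm.finrank_eq

variable {K : IntermediateField ℚ ℂ} {B B' : ℝ} {x y : ℂ}

theorem Bd.map (h : Bd K B x) (s : ℂ ≃+* ℂ) : Bd (KS s K) B (s x) where
  mem := mem_KS h.mem
  den := by
    obtain ⟨n, hn, hnB, hint⟩ := h.den
    refine ⟨n, hn, hnB, ?_⟩
    have h1 : IsIntegral ℤ ((s : ℂ →+* ℂ) ((n : ℂ) * x)) := map_isIntegral_int _ hint
    have h2 : (s : ℂ →+* ℂ) ((n : ℂ) * x) = (n : ℂ) * s x := by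
      rw [map_mul, map_natCast]
      rfl
    rwa [h2] at h1
  house := by
    intro σ
    have h1 := h.house (σ.comp ((eKS s K : K ≃+* KS s K) : K →+* KS s K))
    have h2 : (σ.comp ((eKS s K : K ≃+* KS s K) : K →+* KS s K)) ⟨x, h.mem⟩ =
        σ ⟨s x, mem_KS h.mem⟩ := rfl
    rwa [h2] at h1

theorem Bd.mono (h : Bd K B x) (hB : B ≤ B') : Bd K B' x where
  mem := h.mem
  den := by
    obtain ⟨n, hn, hnB, hint⟩ := h.den
    exact ⟨n, hn, hnB.trans (Real.exp_le_exp.2 hB), hint⟩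
  house := fun σ => (h.house σ).trans (Real.exp_le_exp.2 hB)

theorem Bd.le {K' : IntermediateField ℚ ℂ} (h : Bd K B x) (hK : K ≤ K') : Bd K' B x where
  mem := hK h.mem
  den := h.den
  house := fun σ =>
    h.house (σ.comp ((IntermediateField.inclusion hK : K →ₐ[ℚ] K') : K →+* K'))

theorem isIntegral_natCast_mul {z : ℂ} (n : ℕ) (h : IsIntegral ℤ z) :
    IsIntegral ℤ ((n : ℂ) * z) := by
  have h1 := (isIntegral_algebraMap (R := ℤ) (A := ℂ) (x := (n : ℤ))).mul h
  simpa using h1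

theorem Bd.one_le_exp (h : Bd K B x) : 1 ≤ Real.exp B := by
  obtain ⟨n, hn, hnB, -⟩ := h.den
  have h1 : (1 : ℝ) ≤ n := by exact_mod_cast hn
  exact h1.trans hnB

theorem Bd.nonneg (h : Bd K B x) : 0 ≤ B := by
  have h1 := h.one_le_exp
  rw [← Real.exp_zero] at h1
  exact Real.exp_le_exp.1 h1

theorem Bd.mul (hx : Bd K B x) (hy : Bd K B' y) : Bd K (B + B') (x * y) where
  mem := K.mul_mem hx.mem hy.mem
  den := by
    obtain ⟨n, hn, hnB, hint⟩ := hx.den
    obtain ⟨n', hn', hnB', hint'⟩ := hy.den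
    refine ⟨n * n', Nat.mul_pos hn hn', ?_, ?_⟩
    · rw [Nat.cast_mul, Real.exp_add]
      exact mul_le_mul hnB hnB' (Nat.cast_nonneg _) (Real.exp_pos _).le
    · have h1 : ((n * n' : ℕ) : ℂ) * (x * y) = ((n : ℂ) * x) * ((n' : ℂ) * y) := by
        rw [Nat.cast_mul]
        ring
      rw [h1]
      exact hint.mul hint'
  house := by
    intro σ
    have h1 : σ ⟨x * y, K.mul_mem hx.mem hy.mem⟩ = σ ⟨x, hx.mem⟩ * σ ⟨y, hy.mem⟩ := by
      rw [← map_mul]
      rfl
    rw [h1, norm_mul, Real.exp_add]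
    exact mul_le_mul (hx.house σ) (hy.house σ) (norm_nonneg _) (Real.exp_pos _).le

theorem Bd.add (hx : Bd K B x) (hy : Bd K B' y) : Bd K (B + B' + 1) (x + y) where
  mem := K.add_mem hx.mem hy.mem
  den := by
    obtain ⟨n, hn, hnB, hint⟩ := hx.den
    obtain ⟨n', hn', hnB', hint'⟩ := hy.den
    refine ⟨n * n', Nat.mul_pos hn hn', ?_, ?_⟩
    · have h1 : ((n * n' : ℕ) : ℝ) ≤ Real.exp (B + B') := by
        rw [Nat.cast_mul, Real.exp_add]
        exact mul_le_mul hnB hnB' (Nat.cast_nonneg _) (Real.exp_pos _).le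
      exact h1.trans (Real.exp_le_exp.2 (by linarith))
    · have h1 : ((n * n' : ℕ) : ℂ) * (x + y) =
          (n' : ℂ) * ((n : ℂ) * x) + (n : ℂ) * ((n' : ℂ) * y) := by
        rw [Nat.cast_mul]
        ring
      rw [h1]
      exact (isIntegral_natCast_mul n' hint).add (isIntegral_natCast_mul n hint')
  house := by
    intro σ
    have h1 : σ ⟨x + y, K.add_mem hx.mem hy.mem⟩ = σ ⟨x, hx.mem⟩ + σ ⟨y, hy.mem⟩ := by
      rw [← map_add]
      rfl
    rw [h1]
    have h2 : Real.exp B ≤ Real.exp (B + B') := Real.exp_le_exp.2 (by linarith [hy.nonneg])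
    have h3 : Real.exp B' ≤ Real.exp (B + B') := Real.exp_le_exp.2 (by linarith [hx.nonneg])
    have h4 : (1 : ℝ) + 1 ≤ Real.exp 1 := Real.add_one_le_exp 1
    have h5 : Real.exp (B + B' + 1) = Real.exp (B + B') * Real.exp 1 := Real.exp_add _ _
    calc ‖σ ⟨x, hx.mem⟩ + σ ⟨y, hy.mem⟩‖ ≤ ‖σ ⟨x, hx.mem⟩‖ + ‖σ ⟨y, hy.mem⟩‖ := norm_add_le _ _
      _ ≤ Real.exp B + Real.exp B' := add_le_add (hx.house σ) (hy.house σ)
      _ ≤ Real.exp (B + B') * (1 + 1) := by linarith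
      _ ≤ Real.exp (B + B' + 1) := by
        rw [h5]
        exact mul_le_mul_of_nonneg_left h4 (Real.exp_pos _).le

theorem Bd.neg (hx : Bd K B x) : Bd K B (-x) where
  mem := K.neg_mem hx.mem
  den := by
    obtain ⟨n, hn, hnB, hint⟩ := hx.den
    refine ⟨n, hn, hnB, ?_⟩
    rw [mul_neg]
    exact hint.neg
  house := by
    intro σ
    have h1 : σ ⟨-x, K.neg_mem hx.mem⟩ = -σ ⟨x, hx.mem⟩ := by
      rw [← map_neg]
      rfl
    rw [h1, norm_neg]
    exact hx.house σ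

theorem Bd.intCast (m : ℤ) (hm : |(m : ℝ)| ≤ Real.exp B) (hB : 0 ≤ B) : Bd K B (m : ℂ) where
  mem := intCast_mem K m
  den := by
    refine ⟨1, one_pos, ?_, ?_⟩
    · rw [Nat.cast_one]
      exact Real.one_le_exp hB
    · rw [Nat.cast_one, one_mul]
      have := isIntegral_algebraMap (R := ℤ) (A := ℂ) (x := m)
      simpa using this
  house := by
    intro σ
    have h1 : (⟨(m : ℂ), intCast_mem K m⟩ : K) = (m : K) := rfl
    rw [h1, map_intCast, Complex.norm_intCast]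
    exact hm

theorem Bd.pow (hx : Bd K B x) (n : ℕ) : Bd K (n * B) (x ^ n) := by
  induction n with
  | zero =>
    have h1 := Bd.intCast (K := K) (B := 0) 1 (by simp) le_rfl
    simpa using h1
  | succ n ih =>
    have h1 := ih.mul hx
    rw [← pow_succ] at h1
    have h2 : ((n + 1 : ℕ) : ℝ) * B = n * B + B := by
      rw [Nat.cast_add, Nat.cast_one]
      ring
    rw [h2]
    exact h1

theorem Bd.ratCast (q : ℚ) (hn : |(q.num : ℝ)| ≤ Real.exp B) (hd : (q.den : ℝ) ≤ Real.exp B) :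
    Bd K B (q : ℂ) where
  mem := SubfieldClass.ratCast_mem K q
  den := by
    refine ⟨q.den, q.den_pos, hd, ?_⟩
    have h1 : (q.den : ℂ) * (q : ℂ) = ((q.num : ℤ) : ℂ) := by
      have h2 := Rat.den_mul_eq_num q
      exact_mod_cast h2
    rw [h1]
    have := isIntegral_algebraMap (R := ℤ) (A := ℂ) (x := q.num)
    simpa using this
  house := by
    intro σ
    have h1 : (⟨(q : ℂ), SubfieldClass.ratCast_mem K q⟩ : K) = (q : K) := rfl
    rw [h1, map_ratCast]
    have h2 : ‖(q : ℂ)‖ = |(q : ℝ)| := by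
      rw [← Complex.ofReal_ratCast, Complex.norm_real, Real.norm_eq_abs]
    rw [h2]
    refine le_trans ?_ hn
    have h3 : (q : ℝ) = q.num / q.den := by
      exact_mod_cast (Rat.num_div_den q).symm
    have h4 : (1 : ℝ) ≤ q.den := by exact_mod_cast q.den_pos
    rw [h3, abs_div, abs_of_nonneg (zero_le_one.trans h4)]
    exact div_le_self (abs_nonneg _) h4

/-- square roots -/
theorem Bd.of_sq (hx : Bd K B (x ^ 2)) (h : x ∈ K) : Bd K B x where
  mem := h
  den := by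
    obtain ⟨n, hn, hnB, hint⟩ := hx.den
    refine ⟨n, hn, hnB, ?_⟩
    have h1 : IsIntegral ℤ ((n : ℂ) * ((n : ℂ) * x ^ 2)) := isIntegral_natCast_mul n hint
    have h3 : (n : ℂ) * ((n : ℂ) * x ^ 2) = ((n : ℂ) * x) ^ 2 := by ring
    rw [h3] at h1
    exact IsIntegral.of_pow two_pos h1
  house := by
    intro σ
    have h1 : σ ⟨x ^ 2, hx.mem⟩ = σ ⟨x, h⟩ ^ 2 := by
      rw [← map_pow]
      rfl
    have h2 := hx.house σ
    rw [h1, norm_pow] at h2
    have h3 := hx.one_le_exp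
    by_contra hcon
    push Not at hcon
    have h4 : Real.exp B < ‖σ ⟨x, h⟩‖ ^ 2 := by
      nlinarith [norm_nonneg (σ ⟨x, h⟩)]
    exact absurd h2 (not_le.2 h4)

theorem Bd.aut (hx : Bd K B x) (s : ℂ ≃+* ℂ) : ‖s x‖ ≤ Real.exp B :=
  hx.house ((s : ℂ →+* ℂ).comp (algebraMap K ℂ))

theorem bd_of_aut [FiniteDimensional ℚ K] (hx : x ∈ K) (hi : IsIntegral ℤ x) (hB : 0 ≤ B)
    (h : ∀ s : ℂ ≃+* ℂ, ‖s x‖ ≤ Real.exp B) : Bd K B x where
  mem := hx
  den := by
    refine ⟨1, one_pos, ?_, ?_⟩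
    · rw [Nat.cast_one]
      exact Real.one_le_exp hB
    · rw [Nat.cast_one, one_mul]
      exact hi
  house := by
    intro σ
    obtain ⟨s, hs⟩ := exists_aut K σ
    rw [← hs ⟨x, hx⟩]
    exact h s

end Pool.Agent.LGO
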