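import Mathlib
import Pool.Agent.LGO.H.Defs
import Pool.Agent.LGO.H.BdC
import Pool.Agent.LGO.Mul.Unif

/-!
# LGO/H: the elliptic curve with a given invariant

Proof of `exists_model`.  `g2 = 3 x (x - 1728)`, `g3 = x (x - 1728)²`, so
`g2³ - 27 g3² = 27 · 1728 x² (x - 1728)³ ≠ 0` and `1728 g2³ / (g2³ - 27 g3²) = x`.  `exists_lat`
(`LGO/Mul/Unif.lean`) gives `w, τ`; `G2_scale`, `G3_scale` (`EllSch/RelA.lean`) and `jInv_mul`
(`LGO/Mul/Disc.lean`): `jInv τ (G2(1,τ)³ - 27 G3(1,τ)²) = 1728 G2(1,τ)³`, multiplied by `w ^ (-12)`.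
The bounds: `Bd.mul`, `Bd.add`, `Bd.intCast` (`log 1728 ≤ 8 ≤ 8 B`).
`NCM.nonCM`: `a τ² + b τ + c = 0`: `a ≠ 0` contradicts `NCM`; if `a = 0` then `b = 0` because `Im τ > 0`.
-/

namespace Pool.Agent.LGO

open UpperHalfPlane Pool.Agent.Hhelper14.ZP Pool.Agent.EllSch

theorem exists_model : ∃ C : ℝ, 1 ≤ C ∧ ∀ (K : IntermediateField ℚ ℂ) (B : ℝ) (x : ℂ),
    1 ≤ B → Bd K B x → x ≠ 0 → x ≠ 1728 → ∃ (w : ℂ) (τ : ℍ), w ≠ 0 ∧ Red (τ : ℂ) ∧ jInv τ = x ∧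
      Bd K (C * B) (G2 w (w * τ)) ∧ Bd K (C * B) (G3 w (w * τ)) := by
  refine ⟨21, by norm_num, ?_⟩
  intro K B x hB hx hx0 hx1
  have hx1' : x - 1728 ≠ 0 := sub_ne_zero.2 hx1
  have hdisc : (3 * x * (x - 1728)) ^ 3 - 27 * (x * (x - 1728) ^ 2) ^ 2 ≠ 0 := by
    have h1 : (3 * x * (x - 1728)) ^ 3 - 27 * (x * (x - 1728) ^ 2) ^ 2 =
        27 * 1728 * x ^ 2 * (x - 1728) ^ 3 := by ring
    rw [h1]
    exact mul_ne_zero (mul_ne_zero (by norm_num) (pow_ne_zero _ hx0)) (pow_ne_zero _ hx1')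
  obtain ⟨w, τ, hw, hred, h2, h3⟩ := exists_lat hdisc
  have he : (8 : ℝ) = 4 * 2 := by norm_num
  have hexp1 : (2.7 : ℝ) < Real.exp 1 := lt_trans (by norm_num) Real.exp_one_gt_d9
  have hexp2 : (3 : ℝ) ≤ Real.exp 2 := by
    have h : Real.exp 2 = Real.exp 1 ^ 2 := by rw [← Real.exp_nat_mul]; norm_num
    rw [h]
    nlinarith
  have hexp8 : (1728 : ℝ) ≤ Real.exp 8 := by
    have h : Real.exp 8 = Real.exp 1 ^ 8 := by rw [← Real.exp_nat_mul]; norm_num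
    rw [h]
    calc (1728 : ℝ) ≤ 2.7 ^ 8 := by norm_num
      _ ≤ Real.exp 1 ^ 8 := pow_le_pow_left₀ (by norm_num) hexp1.le 8
  have b1728 : Bd K 8 (((-1728 : ℤ) : ℂ)) :=
    Bd.intCast (-1728) (by rw [show |((-1728 : ℤ) : ℝ)| = 1728 by norm_num]; exact hexp8)
      (by norm_num)
  have b3 : Bd K 2 (((3 : ℤ) : ℂ)) :=
    Bd.intCast 3 (by rw [show |((3 : ℤ) : ℝ)| = 3 by norm_num]; exact hexp2) (by norm_num)
  have by' : Bd K (B + 8 + 1) (x - 1728) := by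
    have h := hx.add b1728
    have h' : x + ((-1728 : ℤ) : ℂ) = x - 1728 := by push_cast; ring
    rwa [h'] at h
  refine ⟨w, ⟨τ, hred.im_pos⟩, hw, hred, ?_, ?_, ?_⟩
  · have hm := jInv_mul ⟨τ, hred.im_pos⟩
    change jInv ⟨τ, hred.im_pos⟩ * (G2 1 τ ^ 3 - 27 * G3 1 τ ^ 2) = 1728 * G2 1 τ ^ 3 at hm
    rw [G2_scale hw] at h2
    rw [G3_scale hw] at h3
    have h2' : G2 1 τ = 3 * x * (x - 1728) * w ^ 4 := by
      rw [← h2]
      field_simp
    have h3' : G3 1 τ = x * (x - 1728) ^ 2 * w ^ 6 := by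
      rw [← h3]
      field_simp
    rw [h2', h3'] at hm
    have hne : 27 * 1728 * x ^ 2 * (x - 1728) ^ 3 * w ^ 12 ≠ 0 :=
      mul_ne_zero (mul_ne_zero (mul_ne_zero (by norm_num) (pow_ne_zero _ hx0))
        (pow_ne_zero _ hx1')) (pow_ne_zero _ hw)
    refine mul_right_cancel₀ hne ?_
    linear_combination hm
  · show Bd K (21 * B) (G2 w (w * τ))
    rw [h2]
    have h := (b3.mul hx).mul by'
    have h' : ((3 : ℤ) : ℂ) * x * (x - 1728) = 3 * x * (x - 1728) := by push_cast; ring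
    rw [h'] at h
    exact h.mono (by linarith)
  · show Bd K (21 * B) (G3 w (w * τ))
    rw [h3]
    have h := hx.mul (by'.pow 2)
    refine h.mono ?_
    push_cast
    linarith

theorem NCM.nonCM {τ : ℍ} (h : NCM (jInv τ)) : NonCM (τ : ℂ) := by
  intro a b c habc
  by_cases ha : a = 0
  · subst ha
    have h1 : (b : ℂ) * (τ : ℂ) + c = 0 := by
      rw [← habc]; push_cast; ring
    have him := congrArg Complex.im h1
    have hb : (b : ℝ) * (τ : ℂ).im = 0 := by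
      simpa using him
    have hτ : (τ : ℂ).im ≠ 0 := ne_of_gt τ.im_pos
    have hb0 : b = 0 := by
      have := (mul_eq_zero.1 hb).resolve_right hτ
      exact_mod_cast this
    subst hb0
    refine ⟨rfl, rfl, ?_⟩
    have : (c : ℂ) = 0 := by
      rw [← h1]; push_cast; ring
    exact_mod_cast this
  · exact absurd ⟨a, b, c, ha, habc⟩ (h τ rfl)

end Pool.Agent.LGO
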