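import Mathlib
import Pool.Agent.LGO.Eng

/-!
# LGO/H: homomorphisms between two lattices (for the skew lemma)
-/

namespace Pool.Agent.LGO

open Pool.Agent.EllSch

/-- the adjugate matrix -/
def adj2 (g : Matrix (Fin 2) (Fin 2) ℤ) : Matrix (Fin 2) (Fin 2) ℤ :=
  !![g 1 1, -g 0 1; -g 1 0, g 0 0]

@[simp] theorem adj2_00 (g : Matrix (Fin 2) (Fin 2) ℤ) : adj2 g 0 0 = g 1 1 := rfl
@[simp] theorem adj2_01 (g : Matrix (Fin 2) (Fin 2) ℤ) : adj2 g 0 1 = -g 0 1 := rfl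
@[simp] theorem adj2_10 (g : Matrix (Fin 2) (Fin 2) ℤ) : adj2 g 1 0 = -g 1 0 := rfl
@[simp] theorem adj2_11 (g : Matrix (Fin 2) (Fin 2) ℤ) : adj2 g 1 1 = g 0 0 := rfl

theorem adj2_det (g : Matrix (Fin 2) (Fin 2) ℤ) : (adj2 g).det = g.det := by
  rw [Matrix.det_fin_two, Matrix.det_fin_two]
  simp
  ring

theorem adj2_prim {g : Matrix (Fin 2) (Fin 2) ℤ} (h : Prim g) : Prim (adj2 g) := by
  intro d hd
  apply h d
  intro i j
  have h00 := hd 1 1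
  have h01 := hd 0 1
  have h10 := hd 1 0
  have h11 := hd 0 0
  simp only [adj2_00, adj2_01, adj2_10, adj2_11, dvd_neg] at h00 h01 h10 h11
  fin_cases i <;> fin_cases j
  · exact h00
  · exact h01
  · exact h10
  · exact h11

theorem det_cast (g : Matrix (Fin 2) (Fin 2) ℤ) :
    ((g.det : ℤ) : ℂ) = (g 0 0 : ℂ) * (g 1 1 : ℂ) - (g 0 1 : ℂ) * (g 1 0 : ℂ) := by
  rw [Matrix.det_fin_two]
  push_cast
  ring

/-- the denominator does not vanish -/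
theorem maps_den_ne {g : Matrix (Fin 2) (Fin 2) ℤ} {τ : ℂ} (hg : g.det ≠ 0) (hτ : τ.im ≠ 0) :
    (g 1 0 : ℂ) * τ + (g 1 1 : ℂ) ≠ 0 := by
  intro h
  have h1 := congrArg Complex.im h
  have h2 := congrArg Complex.re h
  simp at h1 h2
  rcases h1 with h1 | h1
  · rw [h1] at h2
    simp at h2
    apply hg
    rw [Matrix.det_fin_two, h1, h2]
    ring
  · exact hτ h1

theorem maps_adj {g : Matrix (Fin 2) (Fin 2) ℤ} {τ τ' : ℂ} (h : Maps g τ τ') :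
    Maps (adj2 g) τ' τ := by
  unfold Maps at h ⊢
  simp only [adj2_00, adj2_01, adj2_10, adj2_11]
  push_cast
  linear_combination -h

theorem nonCM_maps {g : Matrix (Fin 2) (Fin 2) ℤ} {τ τ' : ℂ} (hg : g.det ≠ 0) (hτ : τ.im ≠ 0)
    (h : Maps g τ τ') (hn : NonCM τ) : NonCM τ' := by
  intro a b c he
  have hd := maps_den_ne hg hτ
  unfold Maps at h
  set u : ℂ := (g 1 0 : ℂ) * τ + (g 1 1 : ℂ) with hu
  set v : ℂ := (g 0 0 : ℂ) * τ + (g 0 1 : ℂ) with hv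
  have e1 : (a : ℂ) * v ^ 2 + b * (v * u) + c * u ^ 2 = 0 := by
    rw [← h]
    linear_combination u ^ 2 * he
  have e2 : ((a * g 0 0 ^ 2 + b * (g 0 0 * g 1 0) + c * g 1 0 ^ 2 : ℤ) : ℂ) * τ ^ 2 +
      ((2 * a * g 0 0 * g 0 1 + b * (g 0 0 * g 1 1 + g 0 1 * g 1 0) + 2 * c * g 1 0 * g 1 1 : ℤ) : ℂ)
        * τ + ((a * g 0 1 ^ 2 + b * (g 0 1 * g 1 1) + c * g 1 1 ^ 2 : ℤ) : ℂ) = 0 := by
    rw [hu, hv] at e1
    push_cast
    linear_combination e1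
  obtain ⟨f1, f2, f3⟩ := hn _ _ _ e2
  rw [Matrix.det_fin_two] at hg
  have hg2 : (g 0 0 * g 1 1 - g 0 1 * g 1 0) ^ 2 ≠ 0 := pow_ne_zero 2 hg
  refine ⟨?_, ?_, ?_⟩
  · have : (g 0 0 * g 1 1 - g 0 1 * g 1 0) ^ 2 * a = 0 := by
      linear_combination g 1 1 ^ 2 * f1 - g 1 1 * g 1 0 * f2 + g 1 0 ^ 2 * f3
    exact (mul_eq_zero.1 this).resolve_left hg2
  · have : (g 0 0 * g 1 1 - g 0 1 * g 1 0) ^ 2 * b = 0 := by
      linear_combination (-2 * g 1 1 * g 0 1) * f1 + (g 1 1 * g 0 0 + g 0 1 * g 1 0) * f2 -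
        2 * g 1 0 * g 0 0 * f3
    exact (mul_eq_zero.1 this).resolve_left hg2
  · have : (g 0 0 * g 1 1 - g 0 1 * g 1 0) ^ 2 * c = 0 := by
      linear_combination g 0 1 ^ 2 * f1 - g 0 1 * g 0 0 * f2 + g 0 0 ^ 2 * f3
    exact (mul_eq_zero.1 this).resolve_left hg2

/-- the multiplier: it maps `Lt w' τ'` into `Lt w τ` when `Maps g τ τ'` -/
noncomputable def mu (w τ w' : ℂ) (g : Matrix (Fin 2) (Fin 2) ℤ) : ℂ :=
  w * ((g 1 0 : ℂ) * τ + (g 1 1 : ℂ)) / w'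

theorem mu_ne {w τ w' : ℂ} {g : Matrix (Fin 2) (Fin 2) ℤ} (hg : g.det ≠ 0) (hτ : τ.im ≠ 0)
    (hw : w ≠ 0) (hw' : w' ≠ 0) : mu w τ w' g ≠ 0 :=
  div_ne_zero (mul_ne_zero hw (maps_den_ne hg hτ)) hw'

theorem mu_mul {w τ w' : ℂ} {g : Matrix (Fin 2) (Fin 2) ℤ} (hw' : w' ≠ 0) :
    mu w τ w' g * w' = w * ((g 1 0 : ℂ) * τ + (g 1 1 : ℂ)) := by
  unfold mu
  field_simp

theorem mu_mul' {w τ w' τ' : ℂ} {g : Matrix (Fin 2) (Fin 2) ℤ} (hw' : w' ≠ 0)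
    (h : Maps g τ τ') : mu w τ w' g * (w' * τ') = w * ((g 0 0 : ℂ) * τ + (g 0 1 : ℂ)) := by
  unfold Maps at h
  rw [← h, ← mul_assoc, mu_mul hw']
  ring

/-- the two multipliers -/
theorem mu_adj {w τ w' τ' : ℂ} {g : Matrix (Fin 2) (Fin 2) ℤ} (hw : w ≠ 0)
    (hw' : w' ≠ 0) (h : Maps g τ τ') : mu w' τ' w (adj2 g) * mu w τ w' g = (g.det : ℂ) := by
  have e : mu w' τ' w (adj2 g) * mu w τ w' g =
      (-(g 1 0 : ℂ) * τ' + (g 0 0 : ℂ)) * ((g 1 0 : ℂ) * τ + (g 1 1 : ℂ)) := by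
    unfold mu
    simp only [adj2_10, adj2_11]
    push_cast
    field_simp
  rw [e, det_cast]
  unfold Maps at h
  linear_combination (-(g 1 0 : ℂ)) * h

/-- **(L2)** the homomorphisms `Lt w' τ' → Lt w τ` are the integral multiples of the multiplier -/
theorem gen_mu {w τ w' τ' : ℂ} {g : Matrix (Fin 2) (Fin 2) ℤ} (hw : w ≠ 0) (hw' : w' ≠ 0)
    (hτ : τ.im ≠ 0) (hg : g.det ≠ 0) (hp : Prim g) (h : Maps g τ τ') (hn : NonCM τ) :
    Gen (mu w τ w' g) (Lt w' τ') (Lt w τ) := by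
  refine ⟨mu_ne hg hτ hw hw', ?_, ?_⟩
  · rintro x ⟨m, n, rfl⟩
    refine ⟨m * g 1 1 + n * g 0 1, m * g 1 0 + n * g 0 0, ?_⟩
    rw [mul_add]
    have e1 := mu_mul (w := w) (τ := τ) (g := g) hw'
    have e2 := mu_mul' (w := w) hw' h
    push_cast
    linear_combination (m : ℂ) * e1 + (n : ℂ) * e2
  · intro ξ hξ
    obtain ⟨q, p, e1⟩ := hξ w' ⟨1, 0, by simp⟩
    obtain ⟨s, r, e2⟩ := hξ (w' * τ') ⟨0, 1, by simp⟩
    -- `ρ = ξ / mu`
    set a := mu w τ w' g with ha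
    have ha0 : a ≠ 0 := mu_ne hg hτ hw hw'
    have f1 := mu_mul (w := w) (τ := τ) (g := g) hw'
    have f2 := mu_mul' (w := w) hw' h
    rw [← ha] at f1 f2
    set ρ := ξ / a with hρ
    have hξ' : ξ = ρ * a := by
      rw [hρ]
      field_simp
    have k1 : ρ * ((g 1 0 : ℂ) * τ + (g 1 1 : ℂ)) = p * τ + q := by
      apply mul_left_cancel₀ hw
      calc w * (ρ * ((g 1 0 : ℂ) * τ + (g 1 1 : ℂ)))
          = ρ * (w * ((g 1 0 : ℂ) * τ + (g 1 1 : ℂ))) := by ring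
        _ = ρ * (a * w') := by rw [f1]
        _ = ξ * w' := by rw [hξ']; ring
        _ = w * (p * τ + q) := by rw [e1]; ring
    have k2 : ρ * ((g 0 0 : ℂ) * τ + (g 0 1 : ℂ)) = r * τ + s := by
      apply mul_left_cancel₀ hw
      calc w * (ρ * ((g 0 0 : ℂ) * τ + (g 0 1 : ℂ)))
          = ρ * (w * ((g 0 0 : ℂ) * τ + (g 0 1 : ℂ))) := by ring
        _ = ρ * (a * (w' * τ')) := by rw [f2]
        _ = ξ * (w' * τ') := by rw [hξ']; ring
        _ = w * (r * τ + s) := by rw [e2]; ring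
    have hd : (g.det : ℂ) ≠ 0 := by exact_mod_cast hg
    -- `ρ` is rational
    have k3 : ((g 0 0 * p - g 1 0 * r : ℤ) : ℂ) * τ ^ 2 +
        ((g 0 0 * q - g 1 0 * s + g 0 1 * p - g 1 1 * r : ℤ) : ℂ) * τ +
        ((g 0 1 * q - g 1 1 * s : ℤ) : ℂ) = 0 := by
      push_cast
      linear_combination (-((g 0 0 : ℂ) * τ + (g 0 1 : ℂ))) * k1 +
        ((g 1 0 : ℂ) * τ + (g 1 1 : ℂ)) * k2
    obtain ⟨c1, -, -⟩ := hn _ _ _ k3
    have c1' : (g 0 0 : ℂ) * p - (g 1 0 : ℂ) * r = 0 := by exact_mod_cast c1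
    have k4 : ρ * (g.det : ℂ) = ((g 0 0 * q - g 1 0 * s : ℤ) : ℂ) := by
      rw [det_cast]
      push_cast
      linear_combination (g 0 0 : ℂ) * k1 - (g 1 0 : ℂ) * k2 + τ * c1'
    set t : ℚ := ((g 0 0 * q - g 1 0 * s : ℤ) : ℚ) / (g.det : ℚ) with ht
    have k5 : ρ = (t : ℂ) := by
      rw [ht, Rat.cast_div, Rat.cast_intCast, Rat.cast_intCast, eq_div_iff hd, k4]
    -- the real and imaginary parts of `k1`, `k2`
    have im_eq : ∀ x y u v : ℚ, ((x : ℂ) * τ + (y : ℂ)) = ((u : ℂ) * τ + (v : ℂ)) →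
        x = u ∧ y = v := by
      intro x y u v hxy
      have h1 := congrArg Complex.im hxy
      have h2 := congrArg Complex.re hxy
      simp at h1 h2
      rcases h1 with h1 | h1
      · refine ⟨h1, ?_⟩
        rw [h1] at h2
        simpa using h2
      · exact absurd h1 hτ
    obtain ⟨x1, x2⟩ := im_eq (t * g 1 0) (t * g 1 1) p q (by
      rw [k5] at k1
      push_cast
      linear_combination k1)
    obtain ⟨x3, x4⟩ := im_eq (t * g 0 0) (t * g 0 1) r s (by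
      rw [k5] at k2
      push_cast
      linear_combination k2)
    -- the denominator of `t` divides all entries
    have hden : ∀ (x : ℤ) (y : ℤ), t * x = y → (t.den : ℤ) ∣ x := by
      intro x y hxy
      have h1 : t.num * x = y * t.den := by
        have h2 : (t.num : ℚ) / t.den = t := Rat.num_div_den t
        have h3 : (t.den : ℚ) ≠ 0 := by exact_mod_cast t.den_ne_zero
        rw [← h2, div_mul_eq_mul_div, div_eq_iff h3] at hxy
        exact_mod_cast hxy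
      have h4 : IsCoprime (t.den : ℤ) t.num := by
        have := t.reduced
        rw [Int.isCoprime_iff_gcd_eq_one]
        rw [Int.gcd_comm]
        exact this
      exact h4.dvd_of_dvd_mul_left ⟨y, by rw [h1]; ring⟩
    have hone : t.den = 1 := by
      apply hp
      intro i j
      fin_cases i <;> fin_cases j
      · exact hden _ _ x3
      · exact hden _ _ x4
      · exact hden _ _ x1
      · exact hden _ _ x2
    refine ⟨t.num, ?_⟩
    rw [hξ', k5]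
    have : (t : ℂ) = (t.num : ℂ) := by
      have h1 : (t.num : ℚ) = t := Rat.coe_int_num_of_den_eq_one hone
      exact_mod_cast congrArg (fun x : ℚ => (x : ℂ)) h1.symm
    rw [this]

/-- **(L3)** areas -/
theorem mu_area {w τ w' τ' : ℂ} {g : Matrix (Fin 2) (Fin 2) ℤ} (hw' : w' ≠ 0)
    (h : Maps g τ τ') :
    ‖mu w τ w' g‖ ^ 2 * (‖w'‖ ^ 2 * τ'.im) = g.det * (‖w‖ ^ 2 * τ.im) := by
  have e1 := mu_mul (w := w) (τ := τ) (g := g) hw'
  have e2 := mu_mul' (w := w) hw' h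
  set a := mu w τ w' g with ha
  have area : ∀ x y : ℂ, ((starRingEnd ℂ) x * (x * y)).im = ‖x‖ ^ 2 * y.im := by
    intro x y
    rw [← mul_assoc, ← Complex.normSq_eq_conj_mul_self, Complex.im_ofReal_mul,
      Complex.normSq_eq_norm_sq]
  have h1 : ((starRingEnd ℂ) (a * w') * (a * (w' * τ'))).im = ‖a‖ ^ 2 * (‖w'‖ ^ 2 * τ'.im) := by
    rw [← mul_assoc a, area, norm_mul]
    ring
  have h2 : ((starRingEnd ℂ) (w * ((g 1 0 : ℂ) * τ + (g 1 1 : ℂ))) *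
      (w * ((g 0 0 : ℂ) * τ + (g 0 1 : ℂ)))).im = g.det * (‖w‖ ^ 2 * τ.im) := by
    have e : (starRingEnd ℂ) (w * ((g 1 0 : ℂ) * τ + (g 1 1 : ℂ))) *
        (w * ((g 0 0 : ℂ) * τ + (g 0 1 : ℂ))) = ((Complex.normSq w : ℝ) : ℂ) *
        ((starRingEnd ℂ) ((g 1 0 : ℂ) * τ + (g 1 1 : ℂ)) * ((g 0 0 : ℂ) * τ + (g 0 1 : ℂ))) := by
      rw [map_mul, Complex.normSq_eq_conj_mul_self]
      ring
    rw [e, Complex.im_ofReal_mul, Complex.normSq_eq_norm_sq, Matrix.det_fin_two]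
    simp
    ring
  rw [← h1, ← h2, e1, e2]

end Pool.Agent.LGO
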