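import Mathlib
import Pool.Agent.LGO.H.LatA
import Pool.Agent.EllSch.Lattice

/-!
# LGO/H: reduced lattices, the change `(w, τ) → (w τ, -1/τ)`, coordinates (for the skew lemma)
-/

namespace Pool.Agent.LGO

open Pool.Agent.EllSch

theorem Red.im_half {τ : ℂ} (h : Red τ) : 1 / 2 ≤ τ.im := by
  have a1 := h.one_le
  have a2 := h.re_le
  have a0 := h.im_pos
  have a3 : ‖τ‖ ^ 2 = τ.re ^ 2 + τ.im ^ 2 := by
    rw [← Complex.normSq_eq_norm_sq, Complex.normSq_apply]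
    ring
  have a4 : τ.re ^ 2 ≤ (1 / 2) ^ 2 := by
    rw [← sq_abs τ.re]
    exact pow_le_pow_left₀ (abs_nonneg _) a2 2
  nlinarith

theorem Red.ne_zero {τ : ℂ} (h : Red τ) : τ ≠ 0 := by
  rintro rfl
  exact absurd h.im_pos (by simp)

theorem Red.norm_le {τ : ℂ} (h : Red τ) : ‖τ‖ ≤ τ.im + 1 / 2 := by
  have h1 := Complex.norm_le_abs_re_add_abs_im τ
  rw [abs_of_pos h.im_pos] at h1
  have := h.re_le
  linarith

private lemma LatB_int {m n : ℤ} (h : ¬ (m = 0 ∧ n = 0)) : 1 ≤ m ^ 2 - |m * n| + n ^ 2 := by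
  rw [abs_mul]
  have h1 : m ^ 2 = |m| ^ 2 := (sq_abs m).symm
  have h2 : n ^ 2 = |n| ^ 2 := (sq_abs n).symm
  rw [h1, h2]
  have h3 := abs_nonneg m
  have h4 := abs_nonneg n
  have h5 : ¬ (|m| = 0 ∧ |n| = 0) := by
    rw [abs_eq_zero, abs_eq_zero]
    exact h
  generalize |m| = x at *
  generalize |n| = y at *
  rcases h3.eq_or_lt with h3 | h3
  · subst h3
    have : 0 < y := lt_of_le_of_ne h4 (fun e => h5 ⟨rfl, e.symm⟩)
    nlinarith
  · nlinarith [sq_nonneg (x - y), mul_nonneg h3.le h4]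

/-- in a reduced lattice the first vector is the shortest one -/
theorem Red.short {w τ : ℂ} (h : Red τ) : ∀ v ∈ Lt w τ, v ≠ 0 → ‖w‖ ≤ ‖v‖ := by
  rintro v ⟨m, n, rfl⟩ hv
  have e : (m : ℂ) * w + n * (w * τ) = w * (m + n * τ) := by ring
  rw [e] at hv ⊢
  rw [norm_mul]
  have hmn : ¬ (m = 0 ∧ n = 0) := by
    rintro ⟨rfl, rfl⟩
    apply hv
    simp
  have h1 := LatB_int hmn
  have h2 : ((m : ℝ)) ^ 2 - |(m : ℝ) * n| + (n : ℝ) ^ 2 ≥ 1 := by
    have : (1 : ℝ) ≤ ((m ^ 2 - |m * n| + n ^ 2 : ℤ) : ℝ) := by exact_mod_cast h1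
    push_cast at this
    exact this
  have h3 : ‖(m : ℂ) + n * τ‖ ^ 2 = (m : ℝ) ^ 2 + 2 * (m * n) * τ.re + (n : ℝ) ^ 2 * ‖τ‖ ^ 2 := by
    rw [← Complex.normSq_eq_norm_sq, ← Complex.normSq_eq_norm_sq, Complex.normSq_apply,
      Complex.normSq_apply]
    simp
    ring
  have h4 : -|(m : ℝ) * n| ≤ 2 * (m * n) * τ.re := by
    have g1 : |2 * ((m : ℝ) * n) * τ.re| ≤ |(m : ℝ) * n| := by
      rw [abs_mul, abs_mul, abs_of_pos (by norm_num : (0:ℝ) < 2)]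
      nlinarith [h.re_le, abs_nonneg ((m : ℝ) * n)]
    have := neg_abs_le (2 * ((m : ℝ) * n) * τ.re)
    linarith
  have h5 : (n : ℝ) ^ 2 ≤ (n : ℝ) ^ 2 * ‖τ‖ ^ 2 := by
    have : 1 ≤ ‖τ‖ ^ 2 := one_le_pow₀ h.one_le
    nlinarith [sq_nonneg (n : ℝ)]
  have h6 : 1 ≤ ‖(m : ℂ) + n * τ‖ := by
    have : 1 ≤ ‖(m : ℂ) + n * τ‖ ^ 2 := by
      rw [h3]
      linarith
    by_contra hc
    push Not at hc
    have := pow_lt_one₀ (norm_nonneg _) hc (two_ne_zero)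
    linarith
  nlinarith [norm_nonneg w]

/-- **(L5)** the change of basis `(w, w τ) → (w τ, -w)` -/
theorem Lt_S {w τ : ℂ} (hτ : τ ≠ 0) : Lt (w * τ) (-1 / τ) = Lt w τ := by
  have e : w * τ * (-1 / τ) = -w := by field_simp
  ext x
  constructor
  · rintro ⟨m, n, rfl⟩
    refine ⟨-n, m, ?_⟩
    rw [e]
    push_cast
    ring
  · rintro ⟨m, n, rfl⟩
    refine ⟨n, -m, ?_⟩
    rw [e]
    push_cast
    ring

theorem G2_S {w τ : ℂ} (hτ : τ ≠ 0) : G2 (w * τ) (w * τ * (-1 / τ)) = G2 w (w * τ) := by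
  have h1 := G2_change (a := w) (b := w * τ) (p := 0) (q := 1) (r := -1) (s := 0) (by norm_num)
  have e : w * τ * (-1 / τ) = -w := by field_simp
  rw [e]
  simpa using h1

theorem G3_S {w τ : ℂ} (hτ : τ ≠ 0) : G3 (w * τ) (w * τ * (-1 / τ)) = G3 w (w * τ) := by
  have h1 := G3_change (a := w) (b := w * τ) (p := 0) (q := 1) (r := -1) (s := 0) (by norm_num)
  have e : w * τ * (-1 / τ) = -w := by field_simp
  rw [e]
  simpa using h1

/-- the imaginary part of `-1 / τ` -/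
theorem im_S {τ : ℂ} {M : ℝ} (h : Red τ) (hM : τ.im ≤ M) : 1 / (2 * (M + 1) ^ 2) ≤ (-1 / τ).im := by
  have h1 : (-1 / τ).im = τ.im / ‖τ‖ ^ 2 := by
    rw [Complex.div_im, ← Complex.normSq_eq_norm_sq]
    simp
    ring
  have h2 := h.norm_le
  have h3 := h.im_half
  have h4 : 0 < ‖τ‖ := norm_pos_iff.2 h.ne_zero
  have h5 : ‖τ‖ ^ 2 ≤ (M + 1) ^ 2 := pow_le_pow_left₀ h4.le (by linarith) 2
  rw [h1, div_le_div_iff₀ (by nlinarith) (by positivity)]
  nlinarith [h.im_pos, mul_nonneg h.im_pos.le (sq_nonneg (M + 1))]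

/-- linear independence over the integers of `w` and `w τ` -/
theorem Lt_coord {w τ : ℂ} (hw : w ≠ 0) (hτ : τ.im ≠ 0) {m n m' n' : ℂ}
    (hm : m.im = 0) (hn : n.im = 0) (hm' : m'.im = 0) (hn' : n'.im = 0)
    (h : m * w + n * (w * τ) = m' * w + n' * (w * τ)) : m = m' ∧ n = n' := by
  have e : m + n * τ = m' + n' * τ := by
    apply mul_left_cancel₀ hw
    linear_combination h
  have h1 := congrArg Complex.im e
  have h2 := congrArg Complex.re e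
  simp [hm, hn, hm', hn'] at h1 h2
  rcases h1 with h1 | h1
  · rw [h1] at h2
    have h3 : m.re = m'.re := by linarith
    exact ⟨Complex.ext h3 (by rw [hm, hm']), Complex.ext h1 (by rw [hn, hn'])⟩
  · exact absurd h1 hτ

end Pool.Agent.LGO
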