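import Mathlib
import Pool.Agent.LGO.Defs

/-!
# LGO/H: elementary facts on `Bd` and the field generated by two square roots (for the skew lemma)
-/

namespace Pool.Agent.LGO

theorem Bd.sk_mono {K : IntermediateField ℚ ℂ} {M M' : ℝ} {x : ℂ} (h : Bd K M x) (hM : M ≤ M') :
    Bd K M' x := by
  obtain ⟨n, hn, h1, h2⟩ := h.den
  exact ⟨h.mem, ⟨n, hn, h1.trans (Real.exp_le_exp.2 hM), h2⟩,
    fun σ => (h.house σ).trans (Real.exp_le_exp.2 hM)⟩

theorem Bd.sk_ext {K K' : IntermediateField ℚ ℂ} (hK : K ≤ K') {M : ℝ} {x : ℂ} (h : Bd K M x) :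
    Bd K' M x := by
  refine ⟨hK h.mem, h.den, fun σ => ?_⟩
  exact h.house (σ.comp (IntermediateField.inclusion hK).toRingHom)

/-- a square root -/
theorem Bd.sk_sqrt {K K' : IntermediateField ℚ ℂ} (hK : K ≤ K') {B : ℝ} (hB : 0 ≤ B) {a : ℂ}
    (ha : a ∈ K') (h : Bd K B (a ^ 2)) : Bd K' B a := by
  have h' := h.sk_ext hK
  refine ⟨ha, ?_, fun σ => ?_⟩
  · obtain ⟨n, hn, h1, h2⟩ := h'.den
    refine ⟨n, hn, h1, ?_⟩
    have e : ((n : ℂ) * a) ^ 2 = (n : ℂ) * ((n : ℂ) * a ^ 2) := by ring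
    have h3 : IsIntegral ℤ (((n : ℂ) * a) ^ 2) := by
      rw [e]
      exact (isIntegral_natCast n).mul h2
    exact IsIntegral.of_pow (by norm_num) h3
  · have h1 := h'.house σ
    have e : (⟨a ^ 2, h'.mem⟩ : K') = ⟨a, ha⟩ ^ 2 := rfl
    rw [e, map_pow, norm_pow] at h1
    by_contra hc
    push Not at hc
    have h2 : Real.exp B ^ 2 < ‖σ ⟨a, ha⟩‖ ^ 2 :=
      pow_lt_pow_left₀ hc (Real.exp_pos _).le (by norm_num)
    have h3 : Real.exp B ≤ Real.exp B ^ 2 := by
      have := Real.one_le_exp hB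
      nlinarith
    linarith

/-- multiplication by a rational number -/
theorem Bd.sk_rat {K : IntermediateField ℚ ℂ} {B P Q : ℝ} {x : ℂ} (h : Bd K B x) {p q : ℤ}
    (hq : q ≠ 0) (hP : |(p : ℝ)| ≤ Real.exp P) (hQ : |(q : ℝ)| ≤ Real.exp Q) (hP0 : 0 ≤ P)
    (hQ0 : 0 ≤ Q) : Bd K (B + P + Q) ((p : ℂ) / q * x) := by
  have hm : (p : ℂ) / q * x ∈ K :=
    K.mul_mem (K.div_mem (intCast_mem K p) (intCast_mem K q)) h.mem
  refine ⟨hm, ?_, fun σ => ?_⟩
  · obtain ⟨n, hn, h1, h2⟩ := h.den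
    refine ⟨q.natAbs * n, Nat.mul_pos (Int.natAbs_pos.2 hq) hn, ?_, ?_⟩
    · push_cast
      rw [Nat.cast_natAbs, Int.cast_abs, Real.exp_add, Real.exp_add]
      have h3 : Real.exp B ≤ Real.exp B * Real.exp P :=
        le_mul_of_one_le_right (Real.exp_pos _).le (Real.one_le_exp hP0)
      calc |(q : ℝ)| * n ≤ Real.exp Q * Real.exp B :=
            mul_le_mul hQ h1 (Nat.cast_nonneg _) (Real.exp_pos _).le
        _ ≤ Real.exp Q * (Real.exp B * Real.exp P) :=
            mul_le_mul_of_nonneg_left h3 (Real.exp_pos _).le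
        _ = _ := by ring
    · have hq' : (q : ℂ) ≠ 0 := by exact_mod_cast hq
      obtain ⟨s, hs⟩ : ∃ s : ℤ, (q.natAbs : ℤ) = s * q := by
        rcases Int.natAbs_eq q with h3 | h3
        · exact ⟨1, by omega⟩
        · exact ⟨-1, by omega⟩
      have hs' : ((q.natAbs : ℕ) : ℂ) = s * q := by
        have h4 := congrArg (fun z : ℤ => (z : ℂ)) hs
        simp only [Int.cast_mul, Int.cast_natCast] at h4
        exact h4
      have e : ((q.natAbs * n : ℕ) : ℂ) * ((p : ℂ) / q * x) = ((s * p : ℤ) : ℂ) * ((n : ℂ) * x) := by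
        push_cast
        rw [hs']
        field_simp
      rw [e]
      exact (isIntegral_intCast (s * p)).mul h2
  · have e : (⟨(p : ℂ) / q * x, hm⟩ : K) = (p : K) / q * ⟨x, h.mem⟩ := by
      apply Subtype.ext
      push_cast
      rfl
    rw [e, map_mul, map_div₀, map_intCast, map_intCast, norm_mul, norm_div, Complex.norm_intCast,
      Complex.norm_intCast]
    have h1 := h.house σ
    have h2 : (1 : ℝ) ≤ |(q : ℝ)| := by exact_mod_cast Int.one_le_abs hq
    have h3 : |(p : ℝ)| / |(q : ℝ)| ≤ Real.exp P :=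
      (div_le_self (abs_nonneg _) h2).trans hP
    calc |(p : ℝ)| / |(q : ℝ)| * ‖σ ⟨x, h.mem⟩‖ ≤ Real.exp P * Real.exp B :=
          mul_le_mul h3 h1 (norm_nonneg _) (Real.exp_pos _).le
      _ = Real.exp (B + P) := by rw [← Real.exp_add, add_comm]
      _ ≤ Real.exp (B + P + Q) := Real.exp_le_exp.2 (by linarith)

/-- adjunction of a square root -/
theorem exists_sqrt_ext (K : IntermediateField ℚ ℂ) [FiniteDimensional ℚ K] {a : ℂ}
    (ha : a ^ 2 ∈ K) : ∃ K' : IntermediateField ℚ ℂ, K ≤ K' ∧ a ∈ K' ∧ FiniteDimensional ℚ K' ∧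
      Module.finrank ℚ K' ≤ 2 * Module.finrank ℚ K := by
  have hint : IsIntegral K a := by
    refine ⟨Polynomial.X ^ 2 - Polynomial.C ⟨a ^ 2, ha⟩, Polynomial.monic_X_pow_sub_C _ (by norm_num), ?_⟩
    simp
  have hdeg : (minpoly K a).natDegree ≤ 2 := by
    have h1 : (Polynomial.X ^ 2 - Polynomial.C (⟨a ^ 2, ha⟩ : K)) ≠ 0 :=
      (Polynomial.monic_X_pow_sub_C _ (by norm_num)).ne_zero
    have h2 : minpoly K a ∣ (Polynomial.X ^ 2 - Polynomial.C (⟨a ^ 2, ha⟩ : K)) :=
      minpoly.dvd K a (by simp)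
    exact (Polynomial.natDegree_le_of_dvd h2 h1).trans (by rw [Polynomial.natDegree_X_pow_sub_C])
  have hfd : FiniteDimensional K (IntermediateField.adjoin K {a}) :=
    IntermediateField.adjoin.finiteDimensional hint
  have hfr : Module.finrank K (IntermediateField.adjoin K {a}) ≤ 2 := by
    rw [IntermediateField.adjoin.finrank hint]
    exact hdeg
  refine ⟨(IntermediateField.adjoin K {a}).restrictScalars ℚ, ?_, ?_, ?_, ?_⟩
  · intro x hx
    have := (IntermediateField.adjoin K {a}).algebraMap_mem ⟨x, hx⟩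
    exact this
  · exact IntermediateField.mem_adjoin_simple_self K a
  · exact FiniteDimensional.trans ℚ K (IntermediateField.adjoin K {a})
  · have h3 : Module.finrank ℚ ((IntermediateField.adjoin K {a}).restrictScalars ℚ) =
        Module.finrank ℚ K * Module.finrank K (IntermediateField.adjoin K {a}) :=
      (Module.finrank_mul_finrank ℚ K (IntermediateField.adjoin K {a})).symm
    rw [h3, mul_comm]
    exact Nat.mul_le_mul_right _ hfr

end Pool.Agent.LGO
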