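import Mathlib
import Pool.Agent.LGO.H.LatB
import Pool.Agent.LGO.H.SkewBd

/-!
# LGO/H: the skew lemma, case (a): the two short vectors have the same direction
-/

namespace Pool.Agent.LGO

open Pool.Agent.EllSch

theorem Cur.sk_mono {K : IntermediateField ℚ ℂ} {M B t M' B' : ℝ} {w τ : ℂ} (h : Cur K M B t w τ)
    (hM : M ≤ M') (hB : B ≤ B') : Cur K M' B' t w τ :=
  ⟨h.w0, h.im_pos, h.im, fun v hv hv0 => (h.sh v hv hv0).trans
    (mul_le_mul_of_nonneg_right hM (norm_nonneg _)), h.g2.sk_mono hB, h.g3.sk_mono hB⟩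

/-- powers of `M ≥ 2` -/
theorem sk_pow {M : ℝ} (hM : 2 ≤ M) {a b : ℕ} (hab : a ≤ b) : M ^ a ≤ M ^ b :=
  pow_le_pow_right₀ (by linarith) hab

theorem skewA : ∃ C : ℕ, ∀ (K : IntermediateField ℚ ℂ) [FiniteDimensional ℚ K] (M T : ℝ)
    (w₀ τ₀ w₁ τ₁ γ : ℂ) (N k : ℤ), 2 ≤ M → (Module.finrank ℚ K : ℝ) ≤ M → 1 ≤ T →
    Cur K M (M * T) T w₀ τ₀ → Cur K M (M * T) T w₁ τ₁ → Gen γ (Lt w₀ τ₀) (Lt w₁ τ₁) →
    Bd K (M * T) γ → ‖γ‖ ^ 2 * (‖w₀‖ ^ 2 * τ₀.im) = N * (‖w₁‖ ^ 2 * τ₁.im) →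
    0 < N → (N : ℝ) ≤ Real.exp (M * T) → τ₀.im ≤ M * T → τ₁.im ≤ M * T →
    k ≠ 0 → γ * w₀ = k * w₁ → (N : ℝ) ≤ M ^ C := by
  obtain ⟨C, hC⟩ := engine1
  refine ⟨6 * C + 1, ?_⟩
  intro K _ M T w₀ τ₀ w₁ τ₁ γ N k hM hK hT c0 c1 hγ bγ hA hN hNe i0 i1 hk hkw
  have hM0 : 0 < M := by linarith
  have hT0 : 0 < T := by linarith
  have hMT : 2 ≤ M * T := by nlinarith
  have hw1 : 0 < ‖w₁‖ := norm_pos_iff.2 c1.w0
  have hi0 : T ≤ τ₀.im := c0.im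
  have hi1 : T ≤ τ₁.im := c1.im
  have hNpos : (0 : ℝ) < N := by exact_mod_cast hN
  -- `k² Im τ₀ = N Im τ₁`
  have e1 : (k : ℝ) ^ 2 * τ₀.im = N * τ₁.im := by
    have h1 := congrArg norm hkw
    rw [norm_mul, norm_mul, Complex.norm_intCast] at h1
    have h2 : ‖w₁‖ ^ 2 * ((k : ℝ) ^ 2 * τ₀.im) = ‖w₁‖ ^ 2 * (N * τ₁.im) := by
      have h3 : (‖γ‖ * ‖w₀‖) ^ 2 = (k : ℝ) ^ 2 * ‖w₁‖ ^ 2 := by
        rw [h1, mul_pow, sq_abs]
      linear_combination hA - τ₀.im * h3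
    exact mul_left_cancel₀ (pow_ne_zero 2 hw1.ne') h2
  have hk1 : (1 : ℝ) ≤ |(k : ℝ)| := by exact_mod_cast Int.one_le_abs hk
  have e2 : |(k : ℝ)| ≤ Real.exp (2 * (M * T)) := by
    have h1 : (k : ℝ) ^ 2 * T ≤ N * (M * T) := by
      calc (k : ℝ) ^ 2 * T ≤ (k : ℝ) ^ 2 * τ₀.im := mul_le_mul_of_nonneg_left hi0 (sq_nonneg _)
        _ = N * τ₁.im := e1
        _ ≤ N * (M * T) := mul_le_mul_of_nonneg_left i1 hNpos.le
    have h2 : (k : ℝ) ^ 2 ≤ N * M := by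
      have : (k : ℝ) ^ 2 * T ≤ N * M * T := by linarith
      exact le_of_mul_le_mul_right this hT0
    have h3 : M ≤ Real.exp (M * T) := by
      have h4 := Real.add_one_le_exp (M * T)
      nlinarith
    calc |(k : ℝ)| ≤ |(k : ℝ)| ^ 2 := by nlinarith
      _ = (k : ℝ) ^ 2 := sq_abs _
      _ ≤ N * M := h2
      _ ≤ Real.exp (M * T) * Real.exp (M * T) :=
          mul_le_mul hNe h3 hM0.le (Real.exp_pos _).le
      _ = Real.exp (2 * (M * T)) := by rw [← Real.exp_add]; ring_nf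
  -- the multiplier `l = γ / k`
  have hk' : (k : ℂ) ≠ 0 := by exact_mod_cast hk
  have bl : Bd K (M * T + 0 + 2 * (M * T)) (((1 : ℤ) : ℂ) / k * γ) :=
    bγ.sk_rat hk (by simp) e2 le_rfl (by linarith)
  have hM3 : 4 * M ≤ M ^ 3 := by nlinarith [sq_nonneg M]
  have hM3' : M ≤ M ^ 3 := by linarith
  have bl' : Bd K (M ^ 3 * T) (((1 : ℤ) : ℂ) / k * γ) := bl.sk_mono (by nlinarith)
  have hB : M * T ≤ M ^ 3 * T := mul_le_mul_of_nonneg_right hM3' hT0.le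
  obtain ⟨n, hn, hn1, hmp⟩ := hC K (M ^ 3) T w₀ τ₀ w₁ τ₁ (((1 : ℤ) : ℂ) / k * γ) (by linarith)
    (hK.trans hM3') hT0 (by linarith) (c0.sk_mono hM3' hB) (c1.sk_mono hM3' hB) bl' (by
      rw [mul_assoc, hkw]
      push_cast
      field_simp)
  obtain ⟨m, hm⟩ := hγ.all _ hmp
  have e3 : (n : ℂ) = m * k := by
    have h1 : (n : ℂ) / k * γ = m * γ := by
      rw [← hm]
      push_cast
      ring
    have h2 := mul_right_cancel₀ hγ.ne h1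
    rw [div_eq_iff hk'] at h2
    exact h2
  have e4 : (n : ℤ) = m * k := by exact_mod_cast e3
  have e5 : |(k : ℝ)| ≤ n := by
    have h1 : |k| ≤ |(n : ℤ)| := by
      rw [e4, abs_mul]
      have h2 : m ≠ 0 := by
        rintro rfl
        rw [zero_mul] at e4
        omega
      have h3 := Int.one_le_abs h2
      nlinarith [abs_nonneg k]
    rw [Int.abs_natCast] at h1
    exact_mod_cast h1
  have e6 : (N : ℝ) ≤ (n : ℝ) ^ 2 * M := by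
    have h1 : (k : ℝ) ^ 2 ≤ (n : ℝ) ^ 2 := by
      rw [← sq_abs]
      exact pow_le_pow_left₀ (abs_nonneg _) e5 2
    have h2 : N * T ≤ (n : ℝ) ^ 2 * M * T := by
      calc N * T ≤ N * τ₁.im := mul_le_mul_of_nonneg_left hi1 hNpos.le
        _ = (k : ℝ) ^ 2 * τ₀.im := e1.symm
        _ ≤ (n : ℝ) ^ 2 * (M * T) := mul_le_mul h1 i0 (by linarith) (by positivity)
        _ = _ := by ring
    exact le_of_mul_le_mul_right h2 hT0
  calc (N : ℝ) ≤ (n : ℝ) ^ 2 * M := e6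
    _ ≤ ((M ^ 3) ^ C) ^ 2 * M :=
        mul_le_mul_of_nonneg_right (pow_le_pow_left₀ (Nat.cast_nonneg _) hn1 2) hM0.le
    _ = M ^ (6 * C + 1) := by ring

end Pool.Agent.LGO
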