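import Mathlib
import Pool.Agent.LGO.H.SkewA

/-!
# LGO/H: the skew lemma, case (b): different directions
-/

namespace Pool.Agent.LGO

open Pool.Agent.EllSch

private lemma SkewB_area (x y : ℂ) : ((starRingEnd ℂ) x * (x * y)).im = ‖x‖ ^ 2 * y.im := by
  rw [← mul_assoc, ← Complex.normSq_eq_conj_mul_self, Complex.im_ofReal_mul,
    Complex.normSq_eq_norm_sq]

private lemma SkewB_area2 (w τ b : ℂ) (p q r s : ℤ) :
    ((starRingEnd ℂ) (b * (p * w + q * (w * τ))) * (b * (r * w + s * (w * τ)))).im =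
      (p * s - q * r) * (‖b‖ ^ 2 * (‖w‖ ^ 2 * τ.im)) := by
  have e : (starRingEnd ℂ) (b * (p * w + q * (w * τ))) * (b * (r * w + s * (w * τ))) =
      ((Complex.normSq b : ℝ) : ℂ) * (((Complex.normSq w : ℝ) : ℂ) *
        ((starRingEnd ℂ) ((p : ℂ) + q * τ) * ((r : ℂ) + s * τ))) := by
    rw [Complex.normSq_eq_conj_mul_self, Complex.normSq_eq_conj_mul_self]
    simp only [map_mul, map_add]
    ring
  rw [e, Complex.im_ofReal_mul, Complex.im_ofReal_mul, Complex.normSq_eq_norm_sq,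
    Complex.normSq_eq_norm_sq]
  simp
  ring

/-- the coordinates of `β_j w_j` -/
private lemma SkewB_coord {M T B : ℝ} {w τ u σ β : ℂ} {N : ℤ} {p q : ℤ} (hM : 2 ≤ M) (hT : 1 ≤ T)
    (hw : w ≠ 0) (hred : Red τ) (hσ : T ≤ σ.im)
    (hτM : τ.im ≤ M) (hA : ‖β‖ ^ 2 * (‖u‖ ^ 2 * σ.im) = N * (‖w‖ ^ 2 * τ.im)) (hN : 0 < N)
    (hNe : (N : ℝ) ≤ Real.exp (M * T)) (he : β * u = p * w + q * (w * τ)) (hB : 2 * (M * T) ≤ B) :
    |(p : ℝ)| ≤ Real.exp B ∧ |(q : ℝ)| ≤ Real.exp B := by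
  have hM0 : 0 < M := by linarith
  have hT0 : 0 < T := by linarith
  have hMT : 2 ≤ M * T := by nlinarith
  have hw1 : 0 < ‖w‖ := norm_pos_iff.2 hw
  have hNpos : (0 : ℝ) < N := by exact_mod_cast hN
  set E : ℝ := ‖(p : ℂ) + q * τ‖ with hE
  have h1 : ‖β‖ * ‖u‖ = ‖w‖ * E := by
    rw [← norm_mul, he, hE, ← norm_mul]
    congr 1
    ring
  have h2 : E ^ 2 * σ.im = N * τ.im := by
    have h3 : ‖w‖ ^ 2 * (E ^ 2 * σ.im) = ‖w‖ ^ 2 * (N * τ.im) := by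
      have h4 : (‖β‖ * ‖u‖) ^ 2 = (‖w‖ * E) ^ 2 := by rw [h1]
      linear_combination hA - σ.im * h4
    exact mul_left_cancel₀ (pow_ne_zero 2 hw1.ne') h3
  have hE0 : 0 ≤ E := norm_nonneg _
  have h3 : E ^ 2 ≤ N * M := by
    have h4 : E ^ 2 * 1 ≤ N * M := by
      calc E ^ 2 * 1 ≤ E ^ 2 * σ.im := mul_le_mul_of_nonneg_left (by linarith) (sq_nonneg _)
        _ = N * τ.im := h2
        _ ≤ N * M := mul_le_mul_of_nonneg_left hτM hNpos.le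
    linarith
  have h4 : M ≤ Real.exp (M * T) := by
    have h4 := Real.add_one_le_exp (M * T)
    nlinarith
  have h5 : E ≤ Real.exp (M * T) := by
    have h6 : E ^ 2 ≤ Real.exp (M * T) ^ 2 := by
      calc E ^ 2 ≤ N * M := h3
        _ ≤ Real.exp (M * T) * Real.exp (M * T) :=
            mul_le_mul hNe h4 hM0.le (Real.exp_pos _).le
        _ = Real.exp (M * T) ^ 2 := by ring
    exact le_of_sq_le_sq h6 (Real.exp_pos _).le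
  have h6 : |(q : ℝ)| * τ.im ≤ E := by
    have h7 := Complex.abs_im_le_norm ((p : ℂ) + q * τ)
    have h8 : ((p : ℂ) + q * τ).im = q * τ.im := by simp
    rw [h8, abs_mul, abs_of_pos hred.im_pos] at h7
    exact h7
  have hhalf := hred.im_half
  have h7 : |(q : ℝ)| ≤ 2 * E := by nlinarith [abs_nonneg (q : ℝ)]
  have h8 : |(p : ℝ)| ≤ 2 * E := by
    have h9 := Complex.abs_re_le_norm ((p : ℂ) + q * τ)
    have h10 : ((p : ℂ) + q * τ).re = p + q * τ.re := by simp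
    rw [h10] at h9
    have h11 : |(q : ℝ) * τ.re| ≤ |(q : ℝ)| * (1 / 2) := by
      rw [abs_mul]
      exact mul_le_mul_of_nonneg_left hred.re_le (abs_nonneg _)
    have h12 : |(p : ℝ)| ≤ |p + q * τ.re| + |(q : ℝ) * τ.re| := by
      have := abs_sub (p + q * τ.re) (q * τ.re)
      have e : (p : ℝ) + q * τ.re - q * τ.re = p := by ring
      rw [e] at this
      exact this
    linarith
  have h9 : 2 * E ≤ Real.exp B := by
    have h10 : (2 : ℝ) ≤ Real.exp (M * T) := by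
      have := Real.add_one_le_exp (M * T)
      linarith
    calc 2 * E ≤ Real.exp (M * T) * Real.exp (M * T) :=
          mul_le_mul h10 h5 hE0 (Real.exp_pos _).le
      _ = Real.exp (2 * (M * T)) := by rw [← Real.exp_add]; ring_nf
      _ ≤ Real.exp B := Real.exp_le_exp.2 hB
  exact ⟨h8.trans h9, h7.trans h9⟩

/-- from `n (q / D) β ∈ Hom` to `n q = m D` -/
private lemma SkewB_div {β : ℂ} {Λ Λ' : AddSubgroup ℂ} (hβ : Gen β Λ Λ') {n : ℕ} {q D : ℤ}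
    (hD : D ≠ 0) (h : Mp ((n : ℂ) * ((q : ℂ) / D * β)) Λ Λ') : ∃ m : ℤ, n * q = m * D := by
  obtain ⟨m, hm⟩ := hβ.all _ h
  refine ⟨m, ?_⟩
  have hD' : (D : ℂ) ≠ 0 := by exact_mod_cast hD
  have h1 : (n : ℂ) * q / D * β = m * β := by
    rw [← hm]
    ring
  have h2 := mul_right_cancel₀ hβ.ne h1
  rw [div_eq_iff hD'] at h2
  exact_mod_cast h2

theorem skewB : ∃ C : ℕ, ∀ (K : IntermediateField ℚ ℂ) [FiniteDimensional ℚ K] (M T : ℝ)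
    (w₀ τ₀ w₁ τ₁ w₂ τ₂ γ β₀ β₁ : ℂ) (N N₀ N₁ : ℤ), 2 ≤ M → (Module.finrank ℚ K : ℝ) ≤ M →
    1 ≤ T → Cur K M (M * T) T w₀ τ₀ → Cur K M (M * T) T w₁ τ₁ → w₂ ≠ 0 → Red τ₂ →
    τ₂.im ≤ M → Bd K (M * T) (G2 w₂ (w₂ * τ₂)) → Bd K (M * T) (G3 w₂ (w₂ * τ₂)) →
    Gen γ (Lt w₀ τ₀) (Lt w₁ τ₁) → Gen β₀ (Lt w₀ τ₀) (Lt w₂ τ₂) → Gen β₁ (Lt w₁ τ₁) (Lt w₂ τ₂) →
    Bd K (M * T) γ → Bd K (M * T) β₀ → Bd K (M * T) β₁ →
    ‖γ‖ ^ 2 * (‖w₀‖ ^ 2 * τ₀.im) = N * (‖w₁‖ ^ 2 * τ₁.im) →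
    ‖β₀‖ ^ 2 * (‖w₀‖ ^ 2 * τ₀.im) = N₀ * (‖w₂‖ ^ 2 * τ₂.im) →
    ‖β₁‖ ^ 2 * (‖w₁‖ ^ 2 * τ₁.im) = N₁ * (‖w₂‖ ^ 2 * τ₂.im) →
    0 < N → 0 < N₀ → 0 < N₁ → (N₀ : ℝ) ≤ Real.exp (M * T) → (N₁ : ℝ) ≤ Real.exp (M * T) →
    (∀ r : ℚ, w₁ ≠ r * γ * w₀) → (N₀ : ℝ) * N₁ ≤ M ^ C * N := by
  obtain ⟨C, hC⟩ := engine3
  refine ⟨24 * C, ?_⟩
  intro K _ M T w₀ τ₀ w₁ τ₁ w₂ τ₂ γ β₀ β₁ N N₀ N₁ hM hK hT c0 c1 hw2 hred him b2 b3 hγ hβ₀ hβ₁
    bγ bβ₀ bβ₁ hA hA0 hA1 hN hN0 hN1 hNe0 hNe1 hdir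
  have hM0 : 0 < M := by linarith
  have hT0 : 0 < T := by linarith
  have hMT : 2 ≤ M * T := by nlinarith
  have hi0 : T ≤ τ₀.im := c0.im
  have hi1 : T ≤ τ₁.im := c1.im
  have hcov2 : 0 < ‖w₂‖ ^ 2 * τ₂.im := mul_pos (pow_pos (norm_pos_iff.2 hw2) 2) hred.im_pos
  have hcov1 : 0 < ‖w₁‖ ^ 2 * τ₁.im := mul_pos (pow_pos (norm_pos_iff.2 c1.w0) 2) c1.im_pos
  have hcov0 : 0 < ‖w₀‖ ^ 2 * τ₀.im := mul_pos (pow_pos (norm_pos_iff.2 c0.w0) 2) c0.im_pos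
  have mem0 : ∀ w τ : ℂ, w ∈ Lt w τ := fun w τ => ⟨1, 0, by simp⟩
  -- coordinates
  obtain ⟨p₀, q₀, he0⟩ := hβ₀.mp _ (mem0 w₀ τ₀)
  obtain ⟨p₁, q₁, he1⟩ := hβ₁.mp _ (mem0 w₁ τ₁)
  obtain ⟨m, n, hg⟩ := hγ.mp _ (mem0 w₀ τ₀)
  have hn : n ≠ 0 := by
    rintro rfl
    simp only [Int.cast_zero, zero_mul, add_zero] at hg
    have hm : m ≠ 0 := by
      rintro rfl
      simp only [Int.cast_zero, zero_mul] at hg
      exact mul_ne_zero hγ.ne c0.w0 hg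
    apply hdir (1 / m)
    have hm' : (m : ℂ) ≠ 0 := by exact_mod_cast hm
    push_cast
    rw [mul_assoc, hg]
    field_simp
  obtain ⟨k, hk⟩ := hβ₀.all (β₁ * γ) (fun x hx => by
    rw [mul_assoc]
    exact hβ₁.mp _ (hγ.mp x hx))
  have hk0 : k ≠ 0 := by
    rintro rfl
    simp only [Int.cast_zero, zero_mul] at hk
    exact mul_ne_zero hβ₁.ne hγ.ne hk
  set D : ℤ := p₀ * q₁ - q₀ * p₁ with hD
  -- the area relation
  have r1 : (k : ℝ) * D = -(n * N₁) := by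
    have h1 : (k : ℂ) * (p₀ * w₂ + q₀ * (w₂ * τ₂)) = β₁ * (m * w₁ + n * (w₁ * τ₁)) := by
      rw [← he0, ← hg]
      linear_combination (-w₀) * hk
    have h2 := SkewB_area2 w₂ τ₂ 1 p₀ q₀ p₁ q₁
    have h3 := SkewB_area2 w₁ τ₁ β₁ m n 1 0
    have h4 : (starRingEnd ℂ) (β₁ * (m * w₁ + n * (w₁ * τ₁))) *
        (β₁ * (((1 : ℤ) : ℂ) * w₁ + ((0 : ℤ) : ℂ) * (w₁ * τ₁))) =
        ((k : ℝ) : ℂ) * ((starRingEnd ℂ) (1 * (p₀ * w₂ + q₀ * (w₂ * τ₂))) *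
          (1 * (p₁ * w₂ + q₁ * (w₂ * τ₂)))) := by
      rw [← h1, map_mul]
      have e1 : (starRingEnd ℂ) (k : ℂ) = (k : ℂ) := map_intCast (starRingEnd ℂ) k
      rw [e1, one_mul, one_mul, ← he1]
      push_cast
      ring
    rw [h4, Complex.im_ofReal_mul, h2] at h3
    simp only [norm_one, one_pow, one_mul, Int.cast_one, Int.cast_zero, mul_zero, mul_one,
      zero_sub] at h3
    rw [hA1] at h3
    have h5 : (k * (D : ℝ)) * (‖w₂‖ ^ 2 * τ₂.im) = (-(n * N₁)) * (‖w₂‖ ^ 2 * τ₂.im) := by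
      rw [hD]
      push_cast
      linear_combination h3
    exact mul_right_cancel₀ hcov2.ne' h5
  have r2 : (k : ℝ) ^ 2 * N₀ = N₁ * N := by
    have h1 := congrArg norm hk
    rw [norm_mul, norm_mul, Complex.norm_intCast] at h1
    have h2 : (‖β₁‖ * ‖γ‖) ^ 2 = (k : ℝ) ^ 2 * ‖β₀‖ ^ 2 := by
      rw [h1, mul_pow, sq_abs]
    have h3 : ((k : ℝ) ^ 2 * N₀) * (‖w₂‖ ^ 2 * τ₂.im) = (N₁ * N) * (‖w₂‖ ^ 2 * τ₂.im) := by
      linear_combination (-(k : ℝ) ^ 2) * hA0 - (‖w₀‖ ^ 2 * τ₀.im) * h2 + ‖β₁‖ ^ 2 * hA + N * hA1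
    exact mul_right_cancel₀ hcov2.ne' h3
  have hNR : (0 : ℝ) < N := by exact_mod_cast hN
  have hN0R : (0 : ℝ) < N₀ := by exact_mod_cast hN0
  have hN1R : (0 : ℝ) < N₁ := by exact_mod_cast hN1
  have hD0 : D ≠ 0 := by
    intro h0
    rw [h0] at r1
    simp only [Int.cast_zero, mul_zero] at r1
    have : (n : ℝ) * N₁ ≠ 0 := mul_ne_zero (by exact_mod_cast hn) hN1R.ne'
    exact this (by linarith)
  have r3 : (N₀ : ℝ) * N₁ ≤ (D : ℝ) ^ 2 * N := by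
    have h1 : (1 : ℝ) ≤ (n : ℝ) ^ 2 := by
      have : (1 : ℤ) ≤ n ^ 2 := by
        have := Int.one_le_abs hn
        rw [← sq_abs]
        nlinarith
      exact_mod_cast this
    have h2 : ((k : ℝ) * D) ^ 2 = (n : ℝ) ^ 2 * N₁ ^ 2 := by
      rw [r1]
      ring
    have h3 : N₁ * (N₀ * N₁) ≤ N₁ * ((D : ℝ) ^ 2 * N) := by
      calc (N₁ : ℝ) * (N₀ * N₁) = N₀ * (1 * N₁ ^ 2) := by ring
        _ ≤ N₀ * ((n : ℝ) ^ 2 * N₁ ^ 2) :=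
            mul_le_mul_of_nonneg_left (mul_le_mul_of_nonneg_right h1 (sq_nonneg _)) hN0R.le
        _ = N₀ * ((k : ℝ) * D) ^ 2 := by rw [h2]
        _ = ((k : ℝ) ^ 2 * N₀) * (D : ℝ) ^ 2 := by ring
        _ = (N₁ * N) * (D : ℝ) ^ 2 := by rw [r2]
        _ = _ := by ring
    exact le_of_mul_le_mul_left h3 hN1R
  -- sizes
  obtain ⟨s1, s2⟩ := SkewB_coord hM hT hw2 hred hi0 him hA0 hN0 hNe0 he0 le_rfl
  obtain ⟨s3, s4⟩ := SkewB_coord hM hT hw2 hred hi1 him hA1 hN1 hNe1 he1 le_rfl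
  have s5 : |(D : ℝ)| ≤ Real.exp (5 * (M * T)) := by
    have h1 : |(D : ℝ)| ≤ |(p₀ : ℝ)| * |(q₁ : ℝ)| + |(q₀ : ℝ)| * |(p₁ : ℝ)| := by
      rw [hD]
      push_cast
      rw [← abs_mul, ← abs_mul]
      exact abs_sub _ _
    have h2 : |(p₀ : ℝ)| * |(q₁ : ℝ)| ≤ Real.exp (2 * (M * T)) * Real.exp (2 * (M * T)) :=
      mul_le_mul s1 s4 (abs_nonneg _) (Real.exp_pos _).le
    have h3 : |(q₀ : ℝ)| * |(p₁ : ℝ)| ≤ Real.exp (2 * (M * T)) * Real.exp (2 * (M * T)) :=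
      mul_le_mul s2 s3 (abs_nonneg _) (Real.exp_pos _).le
    have h4 : (2 : ℝ) ≤ Real.exp (M * T) := by
      have := Real.add_one_le_exp (M * T)
      linarith
    calc |(D : ℝ)| ≤ 2 * (Real.exp (2 * (M * T)) * Real.exp (2 * (M * T))) := by linarith
      _ ≤ Real.exp (M * T) * (Real.exp (2 * (M * T)) * Real.exp (2 * (M * T))) :=
          mul_le_mul_of_nonneg_right h4 (by positivity)
      _ = Real.exp (5 * (M * T)) := by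
          rw [← Real.exp_add, ← Real.exp_add]
          ring_nf
  -- the parameter `M ^ 6`
  have hM2 : 4 ≤ M ^ 2 := by nlinarith
  have hM6 : 16 * M ≤ M ^ 6 := by
    have h1 : 16 ≤ M ^ 4 := by nlinarith
    have h2 : M ≤ M ^ 2 := by nlinarith
    calc 16 * M ≤ M ^ 4 * M ^ 2 := mul_le_mul h1 h2 hM0.le (by positivity)
      _ = M ^ 6 := by ring
  have hM6' : M ≤ M ^ 6 := by linarith
  have hM6'' : M + 1 ≤ M ^ 6 := by linarith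
  have hM6''' : 2 * (M + 1) ^ 2 ≤ M ^ 6 := by
    have h1 : M + 1 ≤ M ^ 2 := by nlinarith
    have h2 : (M + 1) ^ 2 ≤ (M ^ 2) ^ 2 := pow_le_pow_left₀ (by linarith) h1 2
    calc 2 * (M + 1) ^ 2 ≤ M ^ 2 * (M ^ 2) ^ 2 :=
          mul_le_mul (by linarith) h2 (by positivity) (by positivity)
      _ = M ^ 6 := by ring
  have hB : M * T ≤ M ^ 6 * T := mul_le_mul_of_nonneg_right hM6' hT0.le
  have hB2 : M * T + 2 * (M * T) + 5 * (M * T) ≤ M ^ 6 * T := by nlinarith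
  have c0' := c0.sk_mono hM6' hB
  have c1' := c1.sk_mono hM6' hB
  have hMpos : 0 < M ^ 6 := by positivity
  have hτ0 : τ₂ ≠ 0 := hred.ne_zero
  have hinv : 1 / M ^ 6 ≤ 1 / 2 := by
    rw [div_le_div_iff₀ hMpos (by norm_num)]
    linarith
  have c2 : Cur K (M ^ 6) (M ^ 6 * T) (1 / M ^ 6) w₂ τ₂ := by
    refine ⟨hw2, hred.im_pos, hinv.trans hred.im_half, ?_, b2.sk_mono hB, b3.sk_mono hB⟩
    intro v hv hv0
    have h1 := hred.short v hv hv0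
    have h2 : 1 * ‖v‖ ≤ M ^ 6 * ‖v‖ := mul_le_mul_of_nonneg_right (by linarith) (norm_nonneg _)
    linarith
  have c3 : Cur K (M ^ 6) (M ^ 6 * T) (1 / M ^ 6) (w₂ * τ₂) (-1 / τ₂) := by
    have h0 := im_S hred him
    have h1 : 1 / M ^ 6 ≤ 1 / (2 * (M + 1) ^ 2) := by
      rw [div_le_div_iff₀ hMpos (by positivity)]
      linarith
    have h2 : 0 < 1 / (2 * (M + 1) ^ 2) := by positivity
    refine ⟨mul_ne_zero hw2 hτ0, lt_of_lt_of_le h2 h0, h1.trans h0, ?_, ?_, ?_⟩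
    · intro v hv hv0
      rw [Lt_S hτ0] at hv
      have h3 := hred.short v hv hv0
      have h4 := hred.norm_le
      rw [norm_mul, mul_comm]
      exact mul_le_mul (by linarith) h3 (norm_nonneg _) hMpos.le
    · rw [G2_S hτ0]
      exact b2.sk_mono hB
    · rw [G3_S hτ0]
      exact b3.sk_mono hB
  have hD' : (D : ℂ) ≠ 0 := by exact_mod_cast hD0
  have hDc : (D : ℂ) = p₀ * q₁ - q₀ * p₁ := by rw [hD]; push_cast; ring
  have bl : ∀ (x : ℤ) (β : ℂ), |(x : ℝ)| ≤ Real.exp (2 * (M * T)) → Bd K (M * T) β →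
      Bd K (M ^ 6 * T) ((x : ℂ) / D * β) := fun x β hx hb =>
    (hb.sk_rat hD0 hx s5 (by linarith) (by linarith)).sk_mono hB2
  have hneg : ∀ x : ℤ, |(x : ℝ)| ≤ Real.exp (2 * (M * T)) →
      |((-x : ℤ) : ℝ)| ≤ Real.exp (2 * (M * T)) := by
    intro x hx
    push_cast
    rw [abs_neg]
    exact hx
  -- engine 3 for `w₂`
  obtain ⟨n1, hn1, hb1, g1, g2⟩ := hC K (M ^ 6) T w₀ τ₀ w₁ τ₁ w₂ τ₂ γ ((q₁ : ℂ) / D * β₀)
    (((-q₀ : ℤ) : ℂ) / D * β₁) (by linarith) (hK.trans hM6') hT0 (by linarith) c0' c1' c2 hγ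
    (bγ.sk_mono hB) hdir (bl _ _ s4 bβ₀) (bl _ _ (hneg _ s2) bβ₁) (by
      have e1 : (q₁ : ℂ) / D * β₀ * w₀ + ((-q₀ : ℤ) : ℂ) / D * β₁ * w₁ =
          (q₁ * (β₀ * w₀) - q₀ * (β₁ * w₁)) / D := by
        push_cast
        ring
      rw [e1, he0, he1, div_eq_iff hD', hDc]
      ring)
  -- engine 3 for `w₂ τ₂`
  obtain ⟨n2, hn2, hb2, g3, g4⟩ := hC K (M ^ 6) T w₀ τ₀ w₁ τ₁ (w₂ * τ₂) (-1 / τ₂) γ
    (((-p₁ : ℤ) : ℂ) / D * β₀) ((p₀ : ℂ) / D * β₁) (by linarith) (hK.trans hM6') hT0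
    (by linarith) c0' c1' c3 hγ (bγ.sk_mono hB) hdir (bl _ _ (hneg _ s3) bβ₀) (bl _ _ s1 bβ₁) (by
      have e1 : ((-p₁ : ℤ) : ℂ) / D * β₀ * w₀ + (p₀ : ℂ) / D * β₁ * w₁ =
          (-p₁ * (β₀ * w₀) + p₀ * (β₁ * w₁)) / D := by
        push_cast
        ring
      rw [e1, he0, he1, div_eq_iff hD', hDc]
      ring)
  rw [Lt_S hτ0] at g3 g4
  obtain ⟨m1, f1⟩ := SkewB_div hβ₀ hD0 g1
  obtain ⟨m2, f2⟩ := SkewB_div hβ₁ hD0 g2
  obtain ⟨m3, f3⟩ := SkewB_div hβ₀ hD0 g3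
  obtain ⟨m4, f4⟩ := SkewB_div hβ₁ hD0 g4
  -- `D ∣ n1 n2`
  have f5 : ((n1 : ℤ) * n2) = (m1 * m4 - m2 * m3) * D := by
    apply mul_right_cancel₀ hD0
    have e : (n1 : ℤ) * n2 * D = (n1 * q₁) * (n2 * p₀) - (n1 * -q₀) * (n2 * -p₁) := by
      rw [hD]
      ring
    rw [e, f1, f2, f3, f4]
    ring
  have f6 : |(D : ℝ)| ≤ (n1 : ℝ) * n2 := by
    have h1 : |D| ≤ |(n1 : ℤ) * n2| := by
      rw [f5, abs_mul]
      have h2 : m1 * m4 - m2 * m3 ≠ 0 := by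
        intro h0
        rw [h0, zero_mul] at f5
        have : 0 < (n1 : ℤ) * n2 := by positivity
        omega
      have h3 := Int.one_le_abs h2
      nlinarith [abs_nonneg D]
    rw [abs_of_nonneg (by positivity : (0 : ℤ) ≤ (n1 : ℤ) * n2)] at h1
    exact_mod_cast h1
  have f7 : (n1 : ℝ) * n2 ≤ (M ^ 6) ^ C * (M ^ 6) ^ C :=
    mul_le_mul hb1 hb2 (Nat.cast_nonneg _) (by positivity)
  calc (N₀ : ℝ) * N₁ ≤ (D : ℝ) ^ 2 * N := r3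
    _ = |(D : ℝ)| ^ 2 * N := by rw [sq_abs]
    _ ≤ ((M ^ 6) ^ C * (M ^ 6) ^ C) ^ 2 * N :=
        mul_le_mul_of_nonneg_right (pow_le_pow_left₀ (abs_nonneg _) (f6.trans f7) 2) hNR.le
    _ = M ^ (24 * C) * N := by ring

end Pool.Agent.LGO
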