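import Mathlib
import Pool.Agent.LGO.Eng
import Pool.Agent.LGO.H.SkewB
import Pool.Agent.LGO.Mul.Main

/-!
# LGO/H: the skew lemma

Block of helper20 (files `Pool/Agent/LGO/H/Lat*.lean`, `Pool/Agent/LGO/H/Skew*.lean`).

Notation: `Λ_i = Lt w_i τ_i`, `N_ij = det g_ij`, `covol_i = |w_i|² Im τ_i`.
`mul_sq` (helper63, folder `LGO/Mul`): for `Maps g τ τ'` primitive of determinant `N > 0` the number
`be = w (g10 τ + g11) / w'` satisfies `be Λ' ⊆ Λ` (index `N`), `be² ∈ K`, and `be²`, `be⁻²` are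
`Bd K (C (D h + log N))` when `finrank ≤ D` and the invariants are `Bd K h`.  Here `h = M T`, `D = M`,
`log N ≤ M T`: so they are `Bd K (C M² T)`: linear in `T`, as necessary for the engines.

Facts about lattices: (L1) the area form `Im (conj u v)` takes values `m |w|² Im τ`, `m ∈ ℤ`, on `Lt w τ`;
(L2) for a primitive `g` and `NonCM τ`, `Hom(Λ', Λ) = ℤ be`, `Hom(Λ, Λ') = ℤ (N / be)`;
(L3) `|γ|² covol_0 = N_01 covol_1` for the generator `γ` of `Hom(Λ_0, Λ_1)`;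
(L4) `β_j` = generator of `Hom(Λ_j, Λ_2)` (`j = 0, 1`), `γ` = generator of `Hom(Λ_0, Λ_1)`:
`β_1 γ = k' β_0` with `k' ∈ ℤ`, `k'² N_02 = N_12 N_01`; (L5) `Lt (w τ) (-1/τ) = Lt w τ`.

Let `K' = K(be_02, be_12)`, of degree `≤ 4 M`; all the numbers below are `Bd K' (C M² T)` (`β_j`, `γ`, and
`1 / β_j`).  The engines are used for `K'` and `M' = M ^ C`.

(a) `γ w_0 = k w_1` with `k ∈ ℤ` (that is `w_1 ∈ ℚ γ w_0`; `w_1` is primitive in `Λ_1`).  Engine 1 with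
`l = γ / k`: `n γ / k` maps `Λ_0` into `Λ_1`, so `n / k ∈ ℤ`, so `|k| ≤ n ≤ M ^ C`.  By (L3)
`N_01 = |γ|² covol_0 / covol_1 = k² Im τ_0 / Im τ_1 ≤ M k²` (`Im τ_0 ≤ M T`, `Im τ_1 ≥ T`).

(b) otherwise.  The vectors `e_0 = β_0 w_0`, `e_1 = β_1 w_1` of `Λ_2` are linearly independent over `ℚ`, hence
over `ℝ`: by (L4) `β_1 γ w_0 = k' e_0`, and `Im (conj (γ w_0) w_1) = D_0 covol_1`, `D_0 ∈ ℤ`, `D_0 ≠ 0`
(`D_0 = 0` means that `γ w_0`, `w_1 ∈ Λ_1` are proportional over `ℝ`, so over `ℚ`).  The index of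
`ℤ e_0 + ℤ e_1` in `Λ_2` is `δ = |Im (conj e_0 e_1)| / covol_2 = |β_1|² |D_0| covol_1 / (|k'| covol_2)
= N_12 |D_0| / |k'|`, so `δ² ≥ N_12² / k'² = N_12 N_02 / N_01`.
For `w ∈ {w_2, w_2 τ_2}`: Cramer's rule `w = r_0 e_0 + r_1 e_1`, `r_0 = a / δ`, `r_1 = b / δ` with integers
`a, b` of size `≤ |w| |e_j| / covol_2`, `|e_j|² = |β_j|² |w_j|² = N_j2 covol_2 / Im τ_j`, so that
`log` of everything is `≤ C M T`.  Engine 3 with `l_j = r_j β_j` and the third curve `(w_2, τ_2)` or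
`(w_2 τ_2, -1/τ_2)` (imaginary part `≥ 1 / M'`, and `|w_2 τ_2| ≤ (M + 1) |w_2|`): `n r_j β_j` maps `Λ_j` into
`Λ_2`, so `n r_j ∈ ℤ` by (L2).  So `n w ∈ ℤ e_0 + ℤ e_1`; with `n_1` for `w_2` and `n_2` for `w_2 τ_2` the index
`δ` divides (is at most) `n_1 n_2 ≤ M ^ C` (a sublattice containing `n_1 w_2` and `n_2 w_2 τ_2`).
So `N_12 N_02 ≤ M ^ C N_01`.
-/

namespace Pool.Agent.LGO

open Pool.Agent.EllSch

/-- **skew lemma** -/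
theorem skew : ∃ C : ℕ, ∀ (K : IntermediateField ℚ ℂ) [FiniteDimensional ℚ K] (M T : ℝ)
    (w₀ τ₀ w₁ τ₁ w₂ τ₂ : ℂ) (g₀₁ g₀₂ g₁₂ : Matrix (Fin 2) (Fin 2) ℤ),
    2 ≤ M → (Module.finrank ℚ K : ℝ) ≤ M → 1 ≤ T → w₀ ≠ 0 → w₁ ≠ 0 → w₂ ≠ 0 →
    Red τ₀ → Red τ₁ → Red τ₂ → NonCM τ₀ →
    Bd K (M * T) (G2 w₀ (w₀ * τ₀)) → Bd K (M * T) (G3 w₀ (w₀ * τ₀)) →
    Bd K (M * T) (G2 w₁ (w₁ * τ₁)) → Bd K (M * T) (G3 w₁ (w₁ * τ₁)) →
    Bd K (M * T) (G2 w₂ (w₂ * τ₂)) → Bd K (M * T) (G3 w₂ (w₂ * τ₂)) →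
    T ≤ τ₀.im → τ₀.im ≤ M * T → T ≤ τ₁.im → τ₁.im ≤ M * T → τ₂.im ≤ M →
    0 < g₀₁.det → Prim g₀₁ → Maps g₀₁ τ₀ τ₁ → 0 < g₀₂.det → Prim g₀₂ → Maps g₀₂ τ₀ τ₂ →
    0 < g₁₂.det → Prim g₁₂ → Maps g₁₂ τ₁ τ₂ →
    Real.log g₀₁.det ≤ M * T → Real.log g₀₂.det ≤ M * T → Real.log g₁₂.det ≤ M * T →
    (g₀₁.det : ℝ) ≤ M ^ C ∨ (g₀₂.det : ℝ) * g₁₂.det ≤ M ^ C * g₀₁.det := by
  obtain ⟨C0, hC0, hmul⟩ := mul_sq_maps
  obtain ⟨CA, hA⟩ := skewA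
  obtain ⟨CB, hB⟩ := skewB
  obtain ⟨a, ha⟩ := pow_unbounded_of_one_lt (2 * C0) (by norm_num : (1 : ℝ) < 2)
  refine ⟨(a + 3) * (CA + CB), ?_⟩
  intro K _ M T w₀ τ₀ w₁ τ₁ w₂ τ₂ g₀₁ g₀₂ g₁₂ hM hK hT hw0 hw1 hw2 r0 r1 r2 hn0 b20 b30 b21 b31
    b22 b32 i0 i0' i1 i1' i2 d1 p1 m1 d2 p2 m2 d3 p3 m3 l1 l2 l3
  have hM0 : 0 < M := by linarith
  have hT0 : 0 < T := by linarith
  have hMT : 2 ≤ M * T := by nlinarith
  -- the new parameter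
  set M' : ℝ := M ^ (a + 3) with hM'
  have hMa : 2 * C0 ≤ M ^ a := ha.le.trans (pow_le_pow_left₀ (by norm_num) hM a)
  have hMa1 : 1 ≤ M ^ a := one_le_pow₀ (by linarith)
  have hM3 : 4 * M ≤ M ^ 3 := by nlinarith [sq_nonneg M]
  have hM'3 : M ^ 3 ≤ M' := by
    rw [hM', pow_add]
    nlinarith [pow_pos hM0 3]
  have hM'4 : 4 * M ≤ M' := hM3.trans hM'3
  have hM'1 : M ≤ M' := by linarith
  have hM'2 : 2 ≤ M' := by linarith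
  have hBT : M * T ≤ M' * T := mul_le_mul_of_nonneg_right hM'1 hT0.le
  have hn1 : NonCM τ₁ := nonCM_maps d1.ne' r0.im_pos.ne' m1 hn0
  have hn2 : NonCM τ₂ := nonCM_maps d2.ne' r0.im_pos.ne' m2 hn0
  -- the generators
  set γ : ℂ := mu w₁ τ₁ w₀ (adj2 g₀₁) with hγ
  set β₀ : ℂ := mu w₂ τ₂ w₀ (adj2 g₀₂) with hβ₀
  set β₁ : ℂ := mu w₂ τ₂ w₁ (adj2 g₁₂) with hβ₁
  have G01 : Gen γ (Lt w₀ τ₀) (Lt w₁ τ₁) := gen_mu hw1 hw0 r1.im_pos.ne'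
    (by rw [adj2_det]; exact d1.ne') (adj2_prim p1) (maps_adj m1) hn1
  have G02 : Gen β₀ (Lt w₀ τ₀) (Lt w₂ τ₂) := gen_mu hw2 hw0 r2.im_pos.ne'
    (by rw [adj2_det]; exact d2.ne') (adj2_prim p2) (maps_adj m2) hn2
  have G12 : Gen β₁ (Lt w₁ τ₁) (Lt w₂ τ₂) := gen_mu hw2 hw1 r2.im_pos.ne'
    (by rw [adj2_det]; exact d3.ne') (adj2_prim p3) (maps_adj m3) hn2
  have A01 : ‖γ‖ ^ 2 * (‖w₀‖ ^ 2 * τ₀.im) = g₀₁.det * (‖w₁‖ ^ 2 * τ₁.im) := by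
    have := mu_area (w := w₁) hw0 (maps_adj m1)
    rwa [adj2_det] at this
  have A02 : ‖β₀‖ ^ 2 * (‖w₀‖ ^ 2 * τ₀.im) = g₀₂.det * (‖w₂‖ ^ 2 * τ₂.im) := by
    have := mu_area (w := w₂) hw0 (maps_adj m2)
    rwa [adj2_det] at this
  have A12 : ‖β₁‖ ^ 2 * (‖w₁‖ ^ 2 * τ₁.im) = g₁₂.det * (‖w₂‖ ^ 2 * τ₂.im) := by
    have := mu_area (w := w₂) hw1 (maps_adj m3)
    rwa [adj2_det] at this
  -- the squares of the generators
  have size : ∀ (g : Matrix (Fin 2) (Fin 2) ℤ), 0 < g.det → Real.log g.det ≤ M * T →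
      C0 * (M * (M * T) + Real.log g.det) ≤ M' * T := by
    intro g _ hl
    have h1 : M * (M * T) + Real.log g.det ≤ 2 * (M ^ 2 * T) := by nlinarith
    calc C0 * (M * (M * T) + Real.log g.det) ≤ C0 * (2 * (M ^ 2 * T)) :=
          mul_le_mul_of_nonneg_left h1 hC0.le
      _ = (2 * C0) * (M ^ 2 * T) := by ring
      _ ≤ M ^ a * (M ^ 2 * T) := mul_le_mul_of_nonneg_right hMa (by positivity)
      _ ≤ M ^ a * (M ^ 3 * T) := by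
          apply mul_le_mul_of_nonneg_left _ (by positivity)
          apply mul_le_mul_of_nonneg_right _ hT0.le
          exact pow_le_pow_right₀ (by linarith) (by norm_num)
      _ = M' * T := by rw [hM', pow_add]; ring
  have sq : ∀ (w τ w' τ' : ℂ) (g : Matrix (Fin 2) (Fin 2) ℤ), w ≠ 0 → w' ≠ 0 → Red τ → Red τ' →
      NonCM τ → Bd K (M * T) (G2 w (w * τ)) → Bd K (M * T) (G3 w (w * τ)) →
      Bd K (M * T) (G2 w' (w' * τ')) → Bd K (M * T) (G3 w' (w' * τ')) → 0 < g.det →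
      Real.log g.det ≤ M * T → Maps g τ τ' → Bd K (M' * T) (mu w τ w' g ^ 2) := by
    intro w τ w' τ' g hw hw' hr hr' hnn c1 c2 c3 c4 hd hl hm
    have hdn : ((g.det.toNat : ℕ) : ℤ) = g.det := Int.toNat_of_nonneg hd.le
    have h1 := (hmul K M (M * T) w τ w' τ' g g.det.toNat (by linarith) (by linarith) hK hw hw' hr
      hr' hnn c1 c2 c3 c4 (by omega) hdn.symm hm).1
    have h2 : ((g.det.toNat : ℕ) : ℝ) = (g.det : ℝ) := by exact_mod_cast congrArg (fun z : ℤ => (z : ℝ)) hdn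
    rw [h2] at h1
    exact h1.sk_mono (size g hd hl)
  have S01 : Bd K (M' * T) (γ ^ 2) := sq w₁ τ₁ w₀ τ₀ (adj2 g₀₁) hw1 hw0 r1 r0 hn1 b21 b31 b20 b30
    (by rw [adj2_det]; exact d1) (by rw [adj2_det]; exact l1) (maps_adj m1)
  have S02 : Bd K (M' * T) (β₀ ^ 2) := sq w₂ τ₂ w₀ τ₀ (adj2 g₀₂) hw2 hw0 r2 r0 hn2 b22 b32 b20 b30
    (by rw [adj2_det]; exact d2) (by rw [adj2_det]; exact l2) (maps_adj m2)
  have S12 : Bd K (M' * T) (β₁ ^ 2) := sq w₂ τ₂ w₁ τ₁ (adj2 g₁₂) hw2 hw1 r2 r1 hn2 b22 b32 b21 b31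
    (by rw [adj2_det]; exact d3) (by rw [adj2_det]; exact l3) (maps_adj m3)
  -- the field
  obtain ⟨K1, hK1, hb0, hf1, hr1⟩ := exists_sqrt_ext K S02.mem
  obtain ⟨K2, hK2, hb1, hf2, hr2⟩ := exists_sqrt_ext K1 (hK1 S12.mem)
  have hKK : K ≤ K2 := hK1.trans hK2
  have hfr : (Module.finrank ℚ K2 : ℝ) ≤ M' := by
    have h1 : Module.finrank ℚ K2 ≤ 4 * Module.finrank ℚ K := by omega
    have h2 : (Module.finrank ℚ K2 : ℝ) ≤ 4 * Module.finrank ℚ K := by exact_mod_cast h1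
    linarith
  have hγmem : γ ∈ K2 := by
    obtain ⟨k, hk⟩ := G02.all (β₁ * γ) (fun x hx => by
      rw [mul_assoc]
      exact G12.mp _ (G01.mp x hx))
    have e : γ = k * β₀ / β₁ := by
      rw [eq_div_iff G12.ne, ← hk]
      ring
    rw [e]
    exact K2.div_mem (K2.mul_mem (intCast_mem K2 k) (hK2 hb0)) hb1
  have hpos : 0 ≤ M' * T := by linarith
  have B01 : Bd K2 (M' * T) γ := Bd.sk_sqrt hKK hpos hγmem S01
  have B02 : Bd K2 (M' * T) β₀ := Bd.sk_sqrt hKK hpos (hK2 hb0) S02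
  have B12 : Bd K2 (M' * T) β₁ := Bd.sk_sqrt hKK hpos hb1 S12
  have cur : ∀ (w τ : ℂ), w ≠ 0 → Red τ → T ≤ τ.im → Bd K (M * T) (G2 w (w * τ)) →
      Bd K (M * T) (G3 w (w * τ)) → Cur K2 M' (M' * T) T w τ := by
    intro w τ hw hr hi c1 c2
    refine ⟨hw, hr.im_pos, hi, ?_, (c1.sk_ext hKK).sk_mono hBT, (c2.sk_ext hKK).sk_mono hBT⟩
    intro v hv hv0
    have h1 := hr.short v hv hv0
    have h2 : 1 * ‖v‖ ≤ M' * ‖v‖ := mul_le_mul_of_nonneg_right (by linarith) (norm_nonneg _)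
    linarith
  have C0' := cur w₀ τ₀ hw0 r0 i0 b20 b30
  have C1' := cur w₁ τ₁ hw1 r1 i1 b21 b31
  have ex : ∀ (g : Matrix (Fin 2) (Fin 2) ℤ), 0 < g.det → Real.log g.det ≤ M * T →
      (g.det : ℝ) ≤ Real.exp (M' * T) := by
    intro g hd hl
    have h1 : (0 : ℝ) < g.det := by exact_mod_cast hd
    rw [← Real.log_le_iff_le_exp h1]
    linarith
  by_cases hdir : ∃ r : ℚ, w₁ = r * γ * w₀
  · left
    obtain ⟨r, hr⟩ := hdir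
    obtain ⟨m, n, hg⟩ := G01.mp w₀ ⟨1, 0, by simp⟩
    have hr0 : r ≠ 0 := by
      rintro rfl
      apply hw1
      rw [hr]
      simp
    have h1 : ((1 : ℂ)) * w₁ + 0 * (w₁ * τ₁) = ((r * m : ℚ) : ℂ) * w₁ + ((r * n : ℚ) : ℂ) * (w₁ * τ₁) := by
      have h2 : w₁ = r * (m * w₁ + n * (w₁ * τ₁)) := by
        rw [← hg, ← mul_assoc]
        exact hr
      push_cast
      linear_combination h2
    obtain ⟨-, h3⟩ := Lt_coord hw1 r1.im_pos.ne' (by simp) (by simp)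
      (Complex.ratCast_im _) (Complex.ratCast_im _) h1
    have h4 : r * n = 0 := by exact_mod_cast h3.symm
    have h5 : (n : ℚ) = 0 := (mul_eq_zero.1 h4).resolve_left hr0
    have h6 : n = 0 := by exact_mod_cast h5
    rw [h6] at hg
    simp only [Int.cast_zero, zero_mul, add_zero] at hg
    have hm : m ≠ 0 := by
      rintro rfl
      simp only [Int.cast_zero, zero_mul] at hg
      exact mul_ne_zero G01.ne hw0 hg
    have h7 := hA K2 M' T w₀ τ₀ w₁ τ₁ γ g₀₁.det m hM'2 hfr hT C0' C1' G01 B01 A01 d1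
      (ex _ d1 l1) (i0'.trans hBT) (i1'.trans hBT) hm hg
    calc (g₀₁.det : ℝ) ≤ M' ^ CA := h7
      _ = M ^ ((a + 3) * CA) := by rw [hM', ← pow_mul]
      _ ≤ M ^ ((a + 3) * (CA + CB)) :=
          pow_le_pow_right₀ (by linarith) (Nat.mul_le_mul_left _ (Nat.le_add_right _ _))
  · right
    push Not at hdir
    have h7 := hB K2 M' T w₀ τ₀ w₁ τ₁ w₂ τ₂ γ β₀ β₁ g₀₁.det g₀₂.det g₁₂.det hM'2 hfr hT C0' C1'
      hw2 r2 (i2.trans hM'1) ((b22.sk_ext hKK).sk_mono hBT) ((b32.sk_ext hKK).sk_mono hBT)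
      G01 G02 G12 B01 B02 B12 A01 A02 A12 d1 d2 d3 (ex _ d2 l2) (ex _ d3 l3) hdir
    have h8 : (0 : ℝ) < g₀₁.det := by exact_mod_cast d1
    calc (g₀₂.det : ℝ) * g₁₂.det ≤ M' ^ CB * g₀₁.det := h7
      _ = M ^ ((a + 3) * CB) * g₀₁.det := by rw [hM', ← pow_mul]
      _ ≤ M ^ ((a + 3) * (CA + CB)) * g₀₁.det := by
          apply mul_le_mul_of_nonneg_right _ h8.le
          exact pow_le_pow_right₀ (by linarith) (Nat.mul_le_mul_left _ (Nat.le_add_left _ _))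

end Pool.Agent.LGO
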