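import Mathlib
import Pool.Agent.LGO.H.MDeg
import Pool.Agent.LGO.H.Model
import Pool.Agent.LGO.H.JSize
import Pool.Agent.LGO.H.Skew
import Pool.Agent.LGO.Isog

/-!
# LGO/H: the isogeny theorem and the skew lemma in terms of the invariants

`isog_use`: `exists_model` for `x` and `y` (`NCM.ne_zero`, `NCM.ne_1728`): `w, τ, w', τ'`, invariants
`Bd K (C M)`; `exists_prim_mdeg` (`MDeg.lean`) gives `g`; `isog` with `C M` (constant `C ≥ 1`) in place of `M`: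
`mdeg x y = det g ≤ (C M) ^ C' ≤ M ^ C''` because `M ≥ 2`.

`skew_use`: models `(w_x, τ_x)`, `(w_y, τ_y)`, `(w_z, τ_z)` with invariants `Bd K (C₁ M T)`.  With
`exp (2 π Im τ) ≤ C (1 + |j|)` (`exp_im_le`) and `|j| ≤ C exp (2 π Im τ)` (`norm_j_le`):
`Im τ_x, Im τ_y ≥ (T - log C) / (2 π) ≥ T / 8` if `T ≥ C`; `Im τ_x, Im τ_y ≤ C + M T` (`Bd.aut` for the identity:
`log ‖x‖ ≤ M T`), and `Im τ_z ≤ C (1 + M)`.  Matrices from `exists_prim_mdeg`
(`g₀₁ : τ_x → τ_y`, `g₀₂ : τ_x → τ_z`, `g₁₂ : τ_y → τ_z`).  By `isog_use` for the number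
`max M (M T) = M T` (`T ≥ 1`): `mdeg ≤ (M T) ^ C`, so `log mdeg ≤ C log (M T) ≤ C M T`.
Apply `skew` with `T / 8` in place of `T` (`≥ 1` if `T ≥ 8`) and `M ^ k` or `C' M` in place of `M`, `C'` a large
constant, so that `(C' M) ^ C ≤ M ^ C''` (`M ≥ 2`).

`log_le`: `exists_red` for `x` and `y`: `τ, τ'`, and `Gal.isogDeg_iff_maps`: `g` of determinant `N`; `im_maps`:
`Im τ' ≤ N (2 + Im τ)`; `log ‖y‖ ≤ log C + 2 π Im τ'` and `2 π Im τ ≤ log C + log (1 + ‖x‖)`.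
-/

namespace Pool.Agent.LGO

open UpperHalfPlane Pool.Agent.Hhelper14.ZP Pool.Agent.EllSch

theorem isog_use : ∃ C : ℕ, ∀ (K : IntermediateField ℚ ℂ) [FiniteDimensional ℚ K] (M : ℝ)
    (x y : ℂ), 2 ≤ M → (Module.finrank ℚ K : ℝ) ≤ M → Bd K M x → Bd K M y → NCM x → NCM y →
    (∃ N, 0 < N ∧ IsogDeg N x y) → (mdeg x y : ℝ) ≤ M ^ C := by
  obtain ⟨C1, hC1, hmodel⟩ := exists_model
  obtain ⟨C2, hisog⟩ := isog
  obtain ⟨a, ha⟩ := pow_unbounded_of_one_lt C1 (by norm_num : (1 : ℝ) < 2)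
  refine ⟨(a + 1) * C2, ?_⟩
  intro K _ M x y hM hK bx b_y nx ny hI
  obtain ⟨w, τ, hw, hr, hj, b2, b3⟩ := hmodel K M x (by linarith) bx nx.ne_zero nx.ne_1728
  obtain ⟨w', τ', hw', hr', hj', b2', b3'⟩ := hmodel K M y (by linarith) b_y ny.ne_zero ny.ne_1728
  subst hj hj'
  obtain ⟨g, hg, hpos, hp, hm⟩ := exists_prim_mdeg hI
  have hpow : C1 * M ≤ M ^ (a + 1) := by
    rw [pow_succ]
    apply mul_le_mul_of_nonneg_right _ (by linarith)
    exact ha.le.trans (pow_le_pow_left₀ (by norm_num) hM a)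
  have hMM : M ≤ M ^ (a + 1) := by
    have : 1 * M ≤ C1 * M := mul_le_mul_of_nonneg_right hC1 (by linarith)
    linarith
  have h1 := hisog K (M ^ (a + 1)) w τ w' τ' (by linarith) (by linarith) hw hw' hr hr'
    (NCM.nonCM nx) (b2.mono hpow) (b3.mono hpow) (b2'.mono hpow) (b3'.mono hpow) g hpos hp hm
  have h2 : (g.det : ℝ) = (mdeg (jInv τ) (jInv τ') : ℝ) := by
    rw [hg]
    push_cast
    rfl
  rw [h2, ← pow_mul] at h1
  exact h1

theorem Use_im_le {CE : ℝ} (hCE : 0 < CE) (hE : ∀ τ : ℍ, Red (τ : ℂ) →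
    Real.exp (2 * Real.pi * τ.im) ≤ CE * (1 + ‖jInv τ‖)) {τ : ℍ} (hr : Red (τ : ℂ)) :
    2 * Real.pi * τ.im ≤ |Real.log CE| + Real.log (1 + ‖jInv τ‖) := by
  have h1 := hE τ hr
  have h2 : 0 < 1 + ‖jInv τ‖ := by have := norm_nonneg (jInv τ); linarith
  have h3 := Real.log_le_log (Real.exp_pos _) h1
  rw [Real.log_exp, Real.log_mul hCE.ne' h2.ne'] at h3
  have := le_abs_self (Real.log CE)
  linarith

theorem Use_log_le {CJ : ℝ} (hCJ : 0 < CJ) (hJ : ∀ τ : ℍ, Red (τ : ℂ) →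
    ‖jInv τ‖ ≤ CJ * Real.exp (2 * Real.pi * τ.im)) {τ : ℍ} (hr : Red (τ : ℂ)) :
    Real.log ‖jInv τ‖ ≤ |Real.log CJ| + 2 * Real.pi * τ.im := by
  have h0 : 0 < 2 * Real.pi * τ.im := by
    have := Real.pi_pos
    have := τ.im_pos
    positivity
  rcases (norm_nonneg (jInv τ)).eq_or_lt with h | h
  · rw [← h, Real.log_zero]
    have := abs_nonneg (Real.log CJ)
    linarith
  · have h3 := Real.log_le_log h (hJ τ hr)
    rw [Real.log_mul hCJ.ne' (Real.exp_pos _).ne', Real.log_exp] at h3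
    have := le_abs_self (Real.log CJ)
    linarith

theorem Use_im_le' {u : ℝ} {τ : ℍ} (h : 2 * Real.pi * τ.im ≤ u) : τ.im ≤ u := by
  have h1 := Real.pi_gt_three
  have h2 := τ.im_pos
  nlinarith

theorem Use_log_one_add {u : ℝ} (hu : 0 ≤ u) : Real.log (1 + u) ≤ u := by
  have := Real.log_le_sub_one_of_pos (show (0 : ℝ) < 1 + u by linarith)
  linarith

theorem Use_log_exp {u v : ℝ} (hu : 0 ≤ u) (hv : 0 ≤ v) (h : v ≤ Real.exp u) :
    Real.log (1 + v) ≤ u + 1 := by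
  have h1 : 1 + v ≤ 2 * Real.exp u := by
    have := Real.one_le_exp hu
    linarith
  have h2 := Real.log_le_log (show (0 : ℝ) < 1 + v by linarith) h1
  rw [Real.log_mul two_ne_zero (Real.exp_pos _).ne', Real.log_exp] at h2
  have := Real.log_two_lt_d9
  linarith

theorem skew_use : ∃ C : ℕ, ∀ (K : IntermediateField ℚ ℂ) [FiniteDimensional ℚ K] (M T : ℝ)
    (x y z : ℂ), 2 ≤ M → (Module.finrank ℚ K : ℝ) ≤ M → (C : ℝ) ≤ T →
    Bd K (M * T) x → Bd K (M * T) y → Bd K (M * T) z → NCM x → NCM y → NCM z →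
    (∃ N, 0 < N ∧ IsogDeg N x y) → (∃ N, 0 < N ∧ IsogDeg N x z) →
    (∃ N, 0 < N ∧ IsogDeg N y z) → T ≤ Real.log ‖x‖ → T ≤ Real.log ‖y‖ → ‖z‖ ≤ M →
    (mdeg x y : ℝ) ≤ M ^ C ∨ (mdeg x z : ℝ) * mdeg y z ≤ M ^ C * mdeg x y := by
  obtain ⟨C1, hC1, hmodel⟩ := exists_model
  obtain ⟨CE, hCE, hE⟩ := exp_im_le
  obtain ⟨CJ, hCJ, hJ⟩ := norm_j_le
  obtain ⟨CI, hI⟩ := isog_use
  obtain ⟨CS, hS⟩ := skew
  obtain ⟨a, ha⟩ := pow_unbounded_of_one_lt (8 * (C1 + |Real.log CE| + 2 + CI))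
    (by norm_num : (1 : ℝ) < 2)
  obtain ⟨n, hn⟩ := exists_nat_ge (5 * |Real.log CJ|)
  have hE0 := abs_nonneg (Real.log CE)
  have hJ0 := abs_nonneg (Real.log CJ)
  have hI0 : (0 : ℝ) ≤ CI := Nat.cast_nonneg _
  refine ⟨(a + 1) * CS + 8 + n, ?_⟩
  intro K _ M T x y z hM hK hT bx b_y bz nx ny nz hxy hxz hyz hTx hTy hz
  have hpc : (0 : ℝ) ≤ ((a + 1) * CS : ℕ) := Nat.cast_nonneg _
  have hT8 : (8 : ℝ) ≤ T := by
    push_cast at hT hpc
    have : (0 : ℝ) ≤ n := Nat.cast_nonneg _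
    linarith
  have hTn : (n : ℝ) ≤ T := by
    push_cast at hT hpc
    linarith
  have hM0 : 0 < M := by linarith
  have hMT : 2 ≤ M * T := by nlinarith
  have hMMT : M ≤ M * T := by nlinarith
  -- the basic inequality
  have hK0 : 8 * (C1 + |Real.log CE| + 2 + CI) * M ≤ M ^ (a + 1) := by
    rw [pow_succ]
    apply mul_le_mul_of_nonneg_right _ hM0.le
    exact ha.le.trans (pow_le_pow_left₀ (by norm_num) hM a)
  have hbig : (C1 + |Real.log CE| + 2 + CI) * (M * T) ≤ M ^ (a + 1) * (T / 8) := by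
    have h1 := mul_le_mul_of_nonneg_right hK0 (show (0 : ℝ) ≤ T / 8 by linarith)
    linarith
  have hMa : M ≤ M ^ (a + 1) := by
    have h1 : 1 * M ≤ 8 * (C1 + |Real.log CE| + 2 + CI) * M :=
      mul_le_mul_of_nonneg_right (by linarith) hM0.le
    linarith
  have q1 : C1 * (M * T) ≤ M ^ (a + 1) * (T / 8) := by nlinarith
  have q2 : |Real.log CE| + (M * T + 1) ≤ M ^ (a + 1) * (T / 8) := by nlinarith
  have q3 : CI * (M * T) ≤ M ^ (a + 1) * (T / 8) := by nlinarith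
  have q4 : |Real.log CE| + M ≤ M ^ (a + 1) := by nlinarith
  obtain ⟨w₀, τ₀, hw0, r0, hj0, b20, b30⟩ := hmodel K (M * T) x (by linarith) bx nx.ne_zero
    nx.ne_1728
  obtain ⟨w₁, τ₁, hw1, r1, hj1, b21, b31⟩ := hmodel K (M * T) y (by linarith) b_y ny.ne_zero
    ny.ne_1728
  obtain ⟨w₂, τ₂, hw2, r2, hj2, b22, b32⟩ := hmodel K (M * T) z (by linarith) bz nz.ne_zero
    nz.ne_1728
  subst hj0 hj1 hj2
  obtain ⟨g₀₁, d01, p01, pr01, m01⟩ := exists_prim_mdeg hxy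
  obtain ⟨g₀₂, d02, p02, pr02, m02⟩ := exists_prim_mdeg hxz
  obtain ⟨g₁₂, d12, p12, pr12, m12⟩ := exists_prim_mdeg hyz
  -- lower bounds for the imaginary parts
  have low : ∀ τ : ℍ, Red (τ : ℂ) → T ≤ Real.log ‖jInv τ‖ → T / 8 ≤ (τ : ℂ).im := by
    intro τ hr hl
    have h1 := Use_log_le hCJ hJ hr
    rw [coe_im]
    by_contra hcon
    push Not at hcon
    have h2 := Real.pi_lt_d2
    have h3 := Real.pi_pos
    have h4 : 2 * Real.pi * τ.im ≤ 2 * Real.pi * (T / 8) :=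
      mul_le_mul_of_nonneg_left hcon.le (by linarith)
    nlinarith
  have up : ∀ τ : ℍ, Red (τ : ℂ) → Bd K (M * T) (jInv τ) →
      (τ : ℂ).im ≤ M ^ (a + 1) * (T / 8) := by
    intro τ hr hb
    rw [coe_im]
    refine (Use_im_le' (Use_im_le hCE hE hr)).trans (le_trans ?_ q2)
    have h1 : ‖jInv τ‖ ≤ Real.exp (M * T) := by
      have := hb.aut (RingEquiv.refl ℂ)
      simpa using this
    have h2 := Use_log_exp (by linarith) (norm_nonneg _) h1
    linarith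
  have hIm2 : (τ₂ : ℂ).im ≤ M ^ (a + 1) := by
    rw [coe_im]
    refine (Use_im_le' (Use_im_le hCE hE r2)).trans (le_trans ?_ q4)
    have h1 := Use_log_one_add (norm_nonneg (jInv τ₂))
    linarith
  have hdet : ∀ (u v : ℂ) (g : Matrix (Fin 2) (Fin 2) ℤ), g.det = mdeg u v →
      Bd K (M * T) u → Bd K (M * T) v → NCM u → NCM v → (∃ N, 0 < N ∧ IsogDeg N u v) →
      0 < g.det → Real.log g.det ≤ M ^ (a + 1) * (T / 8) := by
    intro u v g hg bu bv nu nv hi hp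
    have h1 := hI K (M * T) u v hMT (by linarith) bu bv nu nv hi
    have h2 : (g.det : ℝ) = (mdeg u v : ℝ) := by
      rw [hg]
      push_cast
      rfl
    rw [← h2] at h1
    have hp' : (0 : ℝ) < g.det := by exact_mod_cast hp
    have h3 := Real.log_le_log hp' h1
    rw [Real.log_pow] at h3
    have h4 : Real.log (M * T) ≤ M * T := by
      have := Real.log_le_sub_one_of_pos (show (0 : ℝ) < M * T by linarith)
      linarith
    have h5 := mul_le_mul_of_nonneg_left h4 hI0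
    linarith
  have key := hS K (M ^ (a + 1)) (T / 8) w₀ τ₀ w₁ τ₁ w₂ τ₂ g₀₁ g₀₂ g₁₂ (by linarith) (by linarith)
    (by linarith) hw0 hw1 hw2 r0 r1 r2 (NCM.nonCM nx) (b20.mono q1) (b30.mono q1) (b21.mono q1)
    (b31.mono q1) (b22.mono q1) (b32.mono q1) (low τ₀ r0 hTx) (up τ₀ r0 bx) (low τ₁ r1 hTy)
    (up τ₁ r1 b_y) hIm2 p01 pr01 m01 p02 pr02 m02 p12 pr12 m12
    (hdet _ _ _ d01 bx b_y nx ny hxy p01) (hdet _ _ _ d02 bx bz nx nz hxz p02)
    (hdet _ _ _ d12 b_y bz ny nz hyz p12)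
  have e01 : (g₀₁.det : ℝ) = (mdeg (jInv τ₀) (jInv τ₁) : ℝ) := by
    rw [d01]
    push_cast
    rfl
  have e02 : (g₀₂.det : ℝ) = (mdeg (jInv τ₀) (jInv τ₂) : ℝ) := by
    rw [d02]
    push_cast
    rfl
  have e12 : (g₁₂.det : ℝ) = (mdeg (jInv τ₁) (jInv τ₂) : ℝ) := by
    rw [d12]
    push_cast
    rfl
  rw [e01, e02, e12, ← pow_mul] at key
  have hpow : M ^ ((a + 1) * CS) ≤ M ^ ((a + 1) * CS + 8 + n) :=
    pow_le_pow_right₀ (by linarith) (by omega)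
  rcases key with h | h
  · left
    exact h.trans hpow
  · right
    refine h.trans ?_
    exact mul_le_mul_of_nonneg_right hpow (Nat.cast_nonneg _)

theorem log_le : ∃ C : ℝ, 1 ≤ C ∧ ∀ (N : ℕ) (x y : ℂ), 0 < N → IsogDeg N x y →
    Real.log ‖y‖ ≤ C * N * (1 + Real.log (1 + ‖x‖)) := by
  obtain ⟨CE, hCE, hE⟩ := exp_im_le
  obtain ⟨CJ, hCJ, hJ⟩ := norm_j_le
  have hE0 := abs_nonneg (Real.log CE)
  have hJ0 := abs_nonneg (Real.log CJ)
  refine ⟨|Real.log CJ| + |Real.log CE| + 17, by linarith, ?_⟩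
  intro N x y hN hxy
  obtain ⟨τ, hr, rfl⟩ := exists_red x
  obtain ⟨τ', hr', rfl⟩ := exists_red y
  obtain ⟨g, hg, hm⟩ := (Gal.isogDeg_iff_maps hN τ τ').mp hxy
  have hpos : 0 < g.det := by rw [hg]; exact_mod_cast hN
  have h1 := im_maps hr hpos hm
  have hgN : (g.det : ℝ) = N := by
    rw [hg]
    push_cast
    rfl
  rw [hgN, coe_im, coe_im] at h1
  have h2 := Use_log_le hCJ hJ hr'
  have h3 := Use_im_le hCE hE hr
  have hN1 : (1 : ℝ) ≤ N := by exact_mod_cast hN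
  have hl : 0 ≤ Real.log (1 + ‖jInv τ‖) := by
    apply Real.log_nonneg
    have := norm_nonneg (jInv τ)
    linarith
  have hp1 := Real.pi_pos
  have hp2 := Real.pi_lt_d2
  have h4 : 2 * Real.pi * τ'.im ≤ N * (4 * Real.pi) + N * (2 * Real.pi * τ.im) := by
    have := mul_le_mul_of_nonneg_left h1 (show (0 : ℝ) ≤ 2 * Real.pi by linarith)
    linarith
  have h5 : N * (2 * Real.pi * τ.im) ≤ N * (|Real.log CE| + Real.log (1 + ‖jInv τ‖)) :=
    mul_le_mul_of_nonneg_left h3 (by linarith)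
  have h6 : N * (4 * Real.pi) ≤ N * (16 : ℝ) := mul_le_mul_of_nonneg_left (by linarith) (by linarith)
  have h7 : |Real.log CJ| ≤ N * |Real.log CJ| := by nlinarith
  calc Real.log ‖jInv τ'‖ ≤ N * |Real.log CJ| + (N * 16 +
        N * (|Real.log CE| + Real.log (1 + ‖jInv τ‖))) := by linarith
    _ = N * ((|Real.log CJ| + |Real.log CE| + 16) + 1 * Real.log (1 + ‖jInv τ‖)) := by ring
    _ ≤ N * ((|Real.log CJ| + |Real.log CE| + 17) +
        (|Real.log CJ| + |Real.log CE| + 17) * Real.log (1 + ‖jInv τ‖)) := by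
        apply mul_le_mul_of_nonneg_left _ (by linarith)
        apply add_le_add (by linarith)
        exact mul_le_mul_of_nonneg_right (by linarith) hl
    _ = (|Real.log CJ| + |Real.log CE| + 17) * N * (1 + Real.log (1 + ‖jInv τ‖)) := by ring

end Pool.Agent.LGO
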