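import Mathlib
import Pool.Agent.LGO.H.BdC
import Pool.Agent.LGO.G.RelF

/-!
# LGO/H: the coordinates are bounded by the function

Proof of `rel_height`.  `exists_rel` gives `R ∈ Qb[T][X]`, `D₀ = natDegree R > 0`, with
`∑_j R_j(F(x)) x_a^j = 0` on `V`, and `R_{D₀}(F(x)) ≠ 0` outside a finite set `E`.  The coefficients of `F`
and of the `R_j` are finitely many algebraic numbers: let `K₀` be the number field generated by them and
`m₀ > 0` a common denominator, and `B₀` a bound for all their conjugates (the images under all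
automorphisms of `ℂ`).  Let `x ∈ V`, `x ∉ E`, with coordinates in `K`, integral.  `F(x)` and `R_j(F(x))` lie in
`K' = K ⊔ K₀`, of degree `≤ [K₀ : ℚ] [K : ℚ]` (`IntermediateField.finrank_sup_le`).  `m₀ F(x)` is integral
and with `r = max_j natDegree R_j` the number `z = m₀ ^ (r + 1) R_{D₀}(F(x))` is integral, nonzero.  For all
automorphisms `s`: `‖s R_j(F(x))‖ ≤ (r + 1) B₀ exp (r L) ≤ exp (C (1 + L))`, because `‖s F(x)‖ ≤ exp L`.  So
`bd_of_aut`: `Bd K' (C (1 + L)) z`, and `Bd.lower` (Liouville) for the restriction of `s` to `K'`: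
`‖s R_{D₀}(F(x))‖ ≥ exp (- C [K : ℚ] (1 + L))`.  `s x_a` is a root of the polynomial with the coefficients
`s R_j(F(x))`, so `‖s x_a‖ ≤ 1 + ∑_{j < D₀} ‖s R_j(F(x))‖ / ‖s R_{D₀}(F(x))‖ ≤ exp (C [K : ℚ] (1 + L))`
(`[K : ℚ] ≥ 1`).
-/

namespace Pool.Agent.LGO

open MvPolynomial Pool.Agent.Hhelper14.ZPL

private theorem RelB_int (c : Qb) : ∃ n : ℕ, 0 < n ∧ IsIntegral ℤ ((n : ℂ) * (c : ℂ)) := by
  have h1 : IsAlgebraic ℚ (c : ℂ) := mem_algebraicClosure_iff.1 c.2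
  have h2 : IsAlgebraic ℤ (c : ℂ) := (IsFractionRing.isAlgebraic_iff ℤ ℚ ℂ).2 h1
  obtain ⟨y, hy, hi⟩ := h2.exists_integral_multiple
  refine ⟨y.natAbs, Int.natAbs_pos.2 hy, ?_⟩
  rw [zsmul_eq_mul] at hi
  have h3 : ((y.natAbs : ℕ) : ℂ) = (y : ℂ) ∨ ((y.natAbs : ℕ) : ℂ) = -(y : ℂ) := by
    rcases Int.natAbs_eq y with h | h
    · left
      have := congrArg (Int.cast (R := ℂ)) h
      rw [this]; simp
    · right
      have := congrArg (Int.cast (R := ℂ)) h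
      rw [this]; simp
  rcases h3 with h | h
  · rw [h]; exact hi
  · rw [h, neg_mul]; exact hi.neg

private theorem RelB_fin (c : Qb) : ∃ K₀ : IntermediateField ℚ ℂ, FiniteDimensional ℚ K₀ ∧
    (c : ℂ) ∈ K₀ := by
  have h1 : IsAlgebraic ℚ (c : ℂ) := mem_algebraicClosure_iff.1 c.2
  exact ⟨IntermediateField.adjoin ℚ {(c : ℂ)},
    IntermediateField.adjoin.finiteDimensional h1.isIntegral,
    IntermediateField.mem_adjoin_simple_self ℚ (c : ℂ)⟩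

private theorem RelB_const (c : Qb) : ∃ (K₀ : IntermediateField ℚ ℂ) (B : ℝ),
    FiniteDimensional ℚ K₀ ∧ 0 ≤ B ∧ Bd K₀ B (c : ℂ) := by
  obtain ⟨K₀, hfin, hc⟩ := RelB_fin c
  obtain ⟨n, hn, hni⟩ := RelB_int c
  have := hfin
  have : Fintype (K₀ →+* ℂ) := by
    have : NumberField K₀ := { to_charZero := inferInstance, to_finiteDimensional := hfin }
    infer_instance
  have hS : 0 ≤ ∑ σ : K₀ →+* ℂ, ‖σ ⟨(c : ℂ), hc⟩‖ := Finset.sum_nonneg fun _ _ => norm_nonneg _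
  refine ⟨K₀, n + ∑ σ : K₀ →+* ℂ, ‖σ ⟨(c : ℂ), hc⟩‖, hfin, by positivity, ⟨hc, ⟨n, hn, ?_, hni⟩, ?_⟩⟩
  · have h := Real.add_one_le_exp ((n : ℝ) + ∑ σ : K₀ →+* ℂ, ‖σ ⟨(c : ℂ), hc⟩‖)
    linarith
  · intro σ
    have h := Real.add_one_le_exp ((n : ℝ) + ∑ σ : K₀ →+* ℂ, ‖σ ⟨(c : ℂ), hc⟩‖)
    have h2 : ‖σ ⟨(c : ℂ), hc⟩‖ ≤ ∑ σ : K₀ →+* ℂ, ‖σ ⟨(c : ℂ), hc⟩‖ :=
      Finset.single_le_sum (f := fun σ : K₀ →+* ℂ => ‖σ ⟨(c : ℂ), hc⟩‖)
        (fun _ _ => norm_nonneg _) (Finset.mem_univ σ)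
    have h3 : (0 : ℝ) ≤ n := Nat.cast_nonneg n
    linarith

private theorem RelB_poly (q : Polynomial Qb) : ∃ (K₀ : IntermediateField ℚ ℂ) (C : ℝ),
    FiniteDimensional ℚ K₀ ∧ 0 ≤ C ∧ ∀ K' : IntermediateField ℚ ℂ, K₀ ≤ K' → ∀ (B : ℝ) (t : ℂ),
      0 ≤ B → Bd K' B t → Bd K' (C * (1 + B)) (Polynomial.aeval t q : ℂ) := by
  induction q using Polynomial.induction_on' with
  | add p q hp hq =>
    obtain ⟨K₁, C₁, hf₁, hC₁, h₁⟩ := hp
    obtain ⟨K₂, C₂, hf₂, hC₂, h₂⟩ := hq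
    have := hf₁
    have := hf₂
    refine ⟨K₁ ⊔ K₂, C₁ + C₂ + 1, inferInstance, by linarith, ?_⟩
    intro K' hK' B t hB ht
    rw [map_add]
    refine ((h₁ K' (le_sup_left.trans hK') B t hB ht).add
      (h₂ K' (le_sup_right.trans hK') B t hB ht)).mono ?_
    nlinarith
  | monomial n c =>
    obtain ⟨K₀, B₀, hf, hB₀, h⟩ := RelB_const c
    refine ⟨K₀, B₀ + n, hf, by positivity, ?_⟩
    intro K' hK' B t hB ht
    rw [Polynomial.aeval_monomial]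
    refine ((h.le hK').mul (ht.pow n)).mono ?_
    have hn : (0 : ℝ) ≤ n := Nat.cast_nonneg n
    nlinarith [mul_nonneg hB₀ hB]

private theorem RelB_mv (F : MvPolynomial (Fin 3) Qb) : ∃ (K₀ : IntermediateField ℚ ℂ) (m : ℕ),
    FiniteDimensional ℚ K₀ ∧ 0 < m ∧ ∀ (K' : IntermediateField ℚ ℂ), K₀ ≤ K' →
      ∀ y : Fin 3 → ℂ, (∀ b, y b ∈ K') → (∀ b, IsIntegral ℤ (y b)) →
        (aeval y F : ℂ) ∈ K' ∧ IsIntegral ℤ ((m : ℂ) * (aeval y F : ℂ)) := by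
  induction F using MvPolynomial.induction_on with
  | C c =>
    obtain ⟨K₀, hf, hc⟩ := RelB_fin c
    obtain ⟨n, hn, hni⟩ := RelB_int c
    refine ⟨K₀, n, hf, hn, fun K' hK' y _ _ => ?_⟩
    rw [aeval_C]
    exact ⟨hK' hc, hni⟩
  | add p q hp hq =>
    obtain ⟨K₁, m₁, hf₁, hm₁, h₁⟩ := hp
    obtain ⟨K₂, m₂, hf₂, hm₂, h₂⟩ := hq
    have := hf₁
    have := hf₂
    refine ⟨K₁ ⊔ K₂, m₁ * m₂, inferInstance, Nat.mul_pos hm₁ hm₂, fun K' hK' y hy hyi => ?_⟩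
    obtain ⟨e₁, i₁⟩ := h₁ K' (le_sup_left.trans hK') y hy hyi
    obtain ⟨e₂, i₂⟩ := h₂ K' (le_sup_right.trans hK') y hy hyi
    rw [map_add]
    refine ⟨K'.add_mem e₁ e₂, ?_⟩
    have e : (((m₁ * m₂ : ℕ) : ℂ)) * ((aeval y p : ℂ) + (aeval y q : ℂ)) =
        (m₂ : ℂ) * ((m₁ : ℂ) * (aeval y p : ℂ)) + (m₁ : ℂ) * ((m₂ : ℂ) * (aeval y q : ℂ)) := by
      push_cast
      ring
    rw [e]
    exact ((isIntegral_natCast m₂).mul i₁).add ((isIntegral_natCast m₁).mul i₂)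
  | mul_X p b hp =>
    obtain ⟨K₁, m₁, hf₁, hm₁, h₁⟩ := hp
    refine ⟨K₁, m₁, hf₁, hm₁, fun K' hK' y hy hyi => ?_⟩
    obtain ⟨e₁, i₁⟩ := h₁ K' hK' y hy hyi
    rw [map_mul, aeval_X, ← mul_assoc]
    exact ⟨K'.mul_mem e₁ (hy b), i₁.mul (hyi b)⟩

/-- many polynomials -/
private theorem RelB_polys (r : ℕ → Polynomial Qb) (D : ℕ) : ∃ (K₀ : IntermediateField ℚ ℂ) (C : ℝ),
    FiniteDimensional ℚ K₀ ∧ 0 ≤ C ∧ ∀ K' : IntermediateField ℚ ℂ, K₀ ≤ K' → ∀ (B : ℝ) (t : ℂ),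
      0 ≤ B → Bd K' B t → ∀ j < D, Bd K' (C * (1 + B)) (Polynomial.aeval t (r j) : ℂ) := by
  induction D with
  | zero => exact ⟨⊥, 0, inferInstance, le_rfl, fun _ _ _ _ _ _ j hj => absurd hj (Nat.not_lt_zero j)⟩
  | succ D ih =>
    obtain ⟨K₁, C₁, hf₁, hC₁, h₁⟩ := ih
    obtain ⟨K₂, C₂, hf₂, hC₂, h₂⟩ := RelB_poly (r D)
    have := hf₁
    have := hf₂
    refine ⟨K₁ ⊔ K₂, C₁ + C₂, inferInstance, by linarith, ?_⟩
    intro K' hK' B t hB ht j hj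
    rcases Nat.lt_succ_iff_lt_or_eq.1 hj with h | rfl
    · refine (h₁ K' (le_sup_left.trans hK') B t hB ht j h).mono ?_
      nlinarith
    · refine (h₂ K' (le_sup_right.trans hK') B t hB ht).mono ?_
      nlinarith

/-- a bound for the roots -/
private theorem RelB_root {D : ℕ} (hD : 0 < D) (c : ℕ → ℂ) (z : ℂ) {H G : ℝ} (hH : 0 ≤ H)
    (hG : 0 ≤ G) (hc : ∀ j ≤ D, ‖c j‖ ≤ Real.exp H) (hl : Real.exp (-G) ≤ ‖c D‖)
    (h : ∑ j ∈ Finset.range (D + 1), c j * z ^ j = 0) : ‖z‖ ≤ Real.exp (D + H + G) := by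
  rcases le_or_gt ‖z‖ 1 with hz | hz
  · refine hz.trans (Real.one_le_exp (by positivity))
  · rw [Finset.sum_range_succ] at h
    have h1 : c D * z ^ D = -∑ j ∈ Finset.range D, c j * z ^ j := by
      linear_combination h
    have h2 : ‖c D‖ * ‖z‖ ^ D ≤ D * (Real.exp H * ‖z‖ ^ (D - 1)) := by
      rw [← norm_pow, ← norm_mul, h1, norm_neg]
      refine (norm_sum_le _ _).trans ?_
      have h3 : ∀ j ∈ Finset.range D, ‖c j * z ^ j‖ ≤ Real.exp H * ‖z‖ ^ (D - 1) := by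
        intro j hj
        rw [Finset.mem_range] at hj
        rw [norm_mul, norm_pow]
        exact mul_le_mul (hc j hj.le) (pow_le_pow_right₀ hz.le (by omega)) (by positivity)
          (Real.exp_pos _).le
      refine (Finset.sum_le_sum h3).trans ?_
      rw [Finset.sum_const, Finset.card_range, nsmul_eq_mul]
    obtain ⟨E, rfl⟩ : ∃ E, D = E + 1 := ⟨D - 1, by omega⟩
    rw [Nat.add_sub_cancel, pow_succ] at h2
    have hzp : 0 < ‖z‖ ^ E := pow_pos (by linarith) _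
    have h4 : ‖c (E + 1)‖ * ‖z‖ ≤ (E + 1 : ℕ) * Real.exp H := by
      refine le_of_mul_le_mul_right ?_ hzp
      nlinarith
    have h5 : Real.exp (-G) * ‖z‖ ≤ (E + 1 : ℕ) * Real.exp H :=
      (mul_le_mul_of_nonneg_right hl (norm_nonneg _)).trans h4
    have h6 : ((E + 1 : ℕ) : ℝ) ≤ Real.exp ((E + 1 : ℕ) : ℝ) := by
      have := Real.add_one_le_exp (((E + 1 : ℕ) : ℝ))
      linarith
    have h7 : ‖z‖ = Real.exp G * (Real.exp (-G) * ‖z‖) := by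
      rw [← mul_assoc, ← Real.exp_add, add_neg_cancel, Real.exp_zero, one_mul]
    rw [h7, Real.exp_add, Real.exp_add, mul_comm (Real.exp ((E + 1 : ℕ) : ℝ) * Real.exp H)]
    refine mul_le_mul_of_nonneg_left ?_ (Real.exp_pos _).le
    exact h5.trans (mul_le_mul_of_nonneg_right h6 (Real.exp_pos _).le)

theorem rel_height {n : ℕ} {V : Set (Fin n → ℂ)} (hV : Pool.Agent.Hhelper14.ZPL.IsIrredClosed V)
    (hVk : KClosed V) (hdim : Pool.Agent.Hhelper14.ZPL.dim V = 1) (i : Fin 3 → Fin n)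
    {F : MvPolynomial (Fin 3) Qb} (hF : ∀ c : ℂ, ∃ x ∈ V, (aeval (x ∘ i) F : ℂ) ≠ c) (a : Fin 3) :
    ∃ (C : ℝ) (E : Set (Fin n → ℂ)), 1 ≤ C ∧ E.Finite ∧ ∀ x ∈ V, x ∉ E →
      ∀ (K : IntermediateField ℚ ℂ) [FiniteDimensional ℚ K], (∀ b, x (i b) ∈ K) →
        (∀ b, IsIntegral ℤ (x (i b))) → ∀ L : ℝ, 0 ≤ L →
          (∀ s : ℂ ≃+* ℂ, ‖s (aeval (x ∘ i) F : ℂ)‖ ≤ Real.exp L) →
          ∀ s : ℂ ≃+* ℂ, ‖s (x (i a))‖ ≤ Real.exp (C * Module.finrank ℚ K * (1 + L)) := by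
  classical
  obtain ⟨R, hD, hrel, hfin⟩ := exists_rel hV hVk hdim i hF a
  obtain ⟨K₁, m, hf₁, hm, hmv⟩ := RelB_mv F
  obtain ⟨K₂, C₂, hf₂, hC₂, hpol⟩ := RelB_polys R.coeff (R.natDegree + 1)
  have := hf₁
  have := hf₂
  obtain ⟨K₀, hK₀⟩ : ∃ K₀ : IntermediateField ℚ ℂ, K₀ = K₁ ⊔ K₂ := ⟨_, rfl⟩
  have hf₀ : FiniteDimensional ℚ K₀ := by rw [hK₀]; infer_instance
  have := hf₀
  have h10 : K₁ ≤ K₀ := hK₀ ▸ le_sup_left
  have h20 : K₂ ≤ K₀ := hK₀ ▸ le_sup_right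
  obtain ⟨d₀, hd₀⟩ : ∃ d₀ : ℕ, d₀ = Module.finrank ℚ K₀ := ⟨_, rfl⟩
  have hm1 : (1 : ℝ) ≤ m := by exact_mod_cast hm
  have hlm : 0 ≤ Real.log m := Real.log_nonneg hm1
  have hem : Real.exp (Real.log m) = m := Real.exp_log (by linarith)
  obtain ⟨M, hM⟩ : ∃ M : ℝ, M = C₂ * (1 + 2 * Real.log m) := ⟨_, rfl⟩
  have hM0 : 0 ≤ M := by rw [hM]; positivity
  refine ⟨1 + R.natDegree + (1 + 2 * d₀) * M, _, ?_, hfin, ?_⟩
  · have e1 : (0 : ℝ) ≤ R.natDegree := Nat.cast_nonneg _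
    have e2 : (0 : ℝ) ≤ (1 + 2 * d₀) * M := by positivity
    linarith
  intro x hx hxE K _ hxK hxi L hL hFL s
  have hlead : (Polynomial.aeval (aeval (x ∘ i) F : ℂ) (R.coeff R.natDegree) : ℂ) ≠ 0 :=
    fun hh => hxE ⟨hx, hh⟩
  obtain ⟨t, ht⟩ : ∃ t : ℂ, t = (aeval (x ∘ i) F : ℂ) := ⟨_, rfl⟩
  rw [← ht] at hlead hFL
  have hrelx := hrel x hx
  rw [← ht] at hrelx
  -- the field
  obtain ⟨K', hK'⟩ : ∃ K' : IntermediateField ℚ ℂ, K' = K ⊔ K₀ := ⟨_, rfl⟩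
  have hf' : FiniteDimensional ℚ K' := by rw [hK']; infer_instance
  have := hf'
  have hKK' : K ≤ K' := hK' ▸ le_sup_left
  have h0K' : K₀ ≤ K' := hK' ▸ le_sup_right
  have hfr : (Module.finrank ℚ K' : ℝ) ≤ Module.finrank ℚ K * d₀ := by
    rw [hK', hd₀]
    exact_mod_cast IntermediateField.finrank_sup_le K K₀
  obtain ⟨htK, hti⟩ := hmv K' (h10.trans h0K') (x ∘ i) (fun b => hKK' (hxK b)) hxi
  rw [← ht] at htK hti
  -- the size of `t`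
  have hmt : Bd K' (Real.log m + L) ((m : ℂ) * t) := by
    refine bd_of_aut (K'.mul_mem (natCast_mem K' m) htK) hti (by linarith) fun s' => ?_
    rw [map_mul, map_natCast, norm_mul, Complex.norm_natCast, Real.exp_add, hem]
    exact mul_le_mul_of_nonneg_left (hFL s') (by linarith)
  have hqm : Bd K' (Real.log m) ((((m : ℚ)⁻¹ : ℚ)) : ℂ) := by
    refine Bd.ratCast _ ?_ ?_
    · rw [Rat.inv_natCast_num_of_pos hm, hem]
      simpa using hm1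
    · rw [Rat.inv_natCast_den_of_pos hm, hem]
  have htB : Bd K' (2 * Real.log m + L) t := by
    have h1 := hqm.mul hmt
    have h2 : ((((m : ℚ)⁻¹ : ℚ)) : ℂ) * ((m : ℂ) * t) = t := by
      push_cast
      have : (m : ℂ) ≠ 0 := Nat.cast_ne_zero.2 hm.ne'
      field_simp
    rw [h2] at h1
    exact h1.mono (by linarith)
  have hall : ∀ j ≤ R.natDegree, Bd K' (M * (1 + L)) (Polynomial.aeval t (R.coeff j) : ℂ) := by
    intro j hj
    refine (hpol K' (h20.trans h0K') _ t (by linarith) htB j (Nat.lt_succ_of_le hj)).mono ?_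
    rw [hM]
    have e1 : 0 ≤ C₂ * (Real.log m * L) := by positivity
    nlinarith
  have hH : 0 ≤ M * (1 + L) := by positivity
  have hlow := Bd.lower hfr hH (hall _ le_rfl) hlead ((s : ℂ →+* ℂ).comp (algebraMap K' ℂ))
  have hk1 : (1 : ℝ) ≤ Module.finrank ℚ K := by
    exact_mod_cast Module.finrank_pos (R := ℚ) (M := K)
  have hs : ∑ j ∈ Finset.range (R.natDegree + 1),
      s (Polynomial.aeval t (R.coeff j) : ℂ) * (s (x (i a))) ^ j = 0 := by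
    have h1 := congrArg s hrelx
    rw [map_sum, map_zero] at h1
    rw [← h1]
    refine Finset.sum_congr rfl fun j _ => ?_
    rw [map_mul, map_pow]
  have hfin2 := RelB_root hD (fun j => s (Polynomial.aeval t (R.coeff j) : ℂ)) (s (x (i a)))
    (H := M * (1 + L)) (G := 2 * (Module.finrank ℚ K * d₀) * (M * (1 + L))) hH (by positivity)
    (fun j hj => (hall j hj).aut s) hlow hs
  refine hfin2.trans (Real.exp_le_exp.2 ?_)
  obtain ⟨k, hk⟩ : ∃ k : ℝ, k = (Module.finrank ℚ K : ℝ) := ⟨_, rfl⟩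
  rw [← hk] at hk1 ⊢
  obtain ⟨u, hu⟩ : ∃ u : ℝ, u = 1 + L := ⟨_, rfl⟩
  have hu1 : 1 ≤ u := by linarith
  rw [← hu]
  have e1 : (0 : ℝ) ≤ R.natDegree := Nat.cast_nonneg _
  have hku : 1 ≤ k * u := by nlinarith
  have e2 : (R.natDegree : ℝ) ≤ R.natDegree * (k * u) := le_mul_of_one_le_right e1 hku
  have e3 : M * u ≤ M * (k * u) := by
    refine mul_le_mul_of_nonneg_left ?_ hM0
    nlinarith
  calc (R.natDegree : ℝ) + M * u + 2 * (k * d₀) * (M * u)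
      ≤ R.natDegree * (k * u) + M * (k * u) + 2 * (k * d₀) * (M * u) := by linarith
    _ ≤ (1 + R.natDegree + (1 + 2 * d₀) * M) * k * u := by
      have : 0 ≤ k * u := by linarith
      nlinarith

end Pool.Agent.LGO
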