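import Mathlib
import Pool.Agent.LGO.H.CuspF
import Pool.Agent.LGO.H.RelB

/-!
# LGO/H: a place where two coordinates are large and the third one is bounded

Proof of `cusp_use`.  `F, C₁, m` from `cuspF`, and `C₂, E` from `rel_height` for the three values of `a`
(maximum of the constants, union of the sets).  Let `D = [K : ℚ] ≥ 1`.  `F(x)` is algebraic
(a polynomial in algebraic numbers), so the `s F(x)` are finitely many numbers; let `s₀` be an
automorphism for which `‖s₀ F(x)‖` is maximal and `L = max 0 (log ‖s₀ F(x)‖)`.  By `rel_height`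
`exp H ≤ ‖s x_a‖ ≤ exp (C₂ D (1 + L))`, so `H ≤ C₂ D (1 + L)`.  If `C D ≤ H` with
`C ≥ C₂ (2 + 2 log C₁)` then `1 + L ≥ 2 + 2 log C₁`, so `L ≥ 1 + 2 log C₁ > 0`, `‖s₀ F(x)‖ = exp L ≥ C₁`, and
`cuspF` gives `‖s₀ x_k‖ ≤ C₁` and, for `a ≠ k`, `exp L ≤ C₁ ‖s₀ x_a‖ ^ m`: `L ≤ log C₁ + m log ‖s₀ x_a‖`, so
`L / 2 ≤ m log ‖s₀ x_a‖` and `H ≤ C₂ D (1 + L) ≤ 2 C₂ D L ≤ 4 C₂ m D log ‖s₀ x_a‖`.
-/

namespace Pool.Agent.LGO

open MvPolynomial Pool.Agent.Hhelper14.ZPL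

/-- the conjugates of an algebraic number: one of them has the largest absolute value -/
private theorem exists_max_conj {z : ℂ} (halg : IsAlgebraic ℚ z) :
    ∃ s₀ : ℂ ≃+* ℂ, ∀ s : ℂ ≃+* ℂ, ‖s z‖ ≤ ‖s₀ z‖ := by
  classical
  have hint : IsIntegral ℚ z := halg.isIntegral
  have hP0 : minpoly ℚ z ≠ 0 := minpoly.ne_zero hint
  have hfin : (Set.range fun s : ℂ ≃+* ℂ => ‖s z‖).Finite := by
    apply Set.Finite.subset ((((minpoly ℚ z).aroots ℂ).toFinset.finite_toSet).image fun w => ‖w‖)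
    rintro _ ⟨s, rfl⟩
    refine ⟨s z, ?_, rfl⟩
    rw [Finset.mem_coe, Multiset.mem_toFinset, Polynomial.mem_aroots]
    refine ⟨hP0, ?_⟩
    have h1 := Polynomial.aeval_algHom_apply (RingHom.toRatAlgHom (s : ℂ →+* ℂ)) z (minpoly ℚ z)
    rw [minpoly.aeval, map_zero] at h1
    exact h1
  obtain ⟨r, ⟨s₀, hs₀⟩, hr⟩ := Set.exists_max_image (Set.range fun s : ℂ ≃+* ℂ => ‖s z‖) id hfin
    ⟨_, ⟨RingEquiv.refl ℂ, rfl⟩⟩
  refine ⟨s₀, fun s => ?_⟩
  have := hr _ ⟨s, rfl⟩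
  rw [← hs₀] at this
  exact this

/-- the value of a polynomial with algebraic coefficients at algebraic numbers is algebraic -/
private theorem aeval_alg (F : MvPolynomial (Fin 3) Qb) (y : Fin 3 → ℂ)
    (hy : ∀ b, IsIntegral ℤ (y b)) : IsAlgebraic ℚ (aeval y F : ℂ) := by
  have hy' : ∀ b, y b ∈ Qb := fun b => by
    rw [mem_algebraicClosure_iff]
    have : IsIntegral ℚ (y b) := (hy b).tower_top
    exact this.isAlgebraic
  have h1 : (aeval y F : ℂ) = algebraMap Qb ℂ (aeval (fun b => (⟨y b, hy' b⟩ : Qb)) F) := by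
    rw [← MvPolynomial.aeval_algebraMap_apply]
    rfl
  rw [h1]
  exact mem_algebraicClosure_iff.1 (aeval (fun b => (⟨y b, hy' b⟩ : Qb)) F).2

theorem cusp_use {n : ℕ} {V : Set (Fin n → ℂ)} (hV : Pool.Agent.Hhelper14.ZPL.IsIrredClosed V)
    (hVk : KClosed V) (hdim : Pool.Agent.Hhelper14.ZPL.dim V = 1) (i : Fin 3 → Fin n)
    {k : Fin 3} (hk : TwoInf V i k) :
    ∃ (C : ℝ) (E : Set (Fin n → ℂ)), 1 ≤ C ∧ E.Finite ∧ ∀ x ∈ V, x ∉ E →
      ∀ (K : IntermediateField ℚ ℂ) [FiniteDimensional ℚ K], (∀ b, x (i b) ∈ K) →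
        (∀ b, IsIntegral ℤ (x (i b))) → ∀ H : ℝ,
          (∃ (a : Fin 3) (s : ℂ ≃+* ℂ), Real.exp H ≤ ‖s (x (i a))‖) →
          C * Module.finrank ℚ K ≤ H →
          ∃ s : ℂ ≃+* ℂ, (∀ a, a ≠ k → H ≤ C * Module.finrank ℚ K * Real.log ‖s (x (i a))‖) ∧
            ‖s (x (i k))‖ ≤ C := by
  classical
  obtain ⟨F, C₁, m, hF, hC₁, hm, hcusp⟩ := cuspF hV hVk hdim i hk
  choose Cr Er hCr hEr hrel using fun a => rel_height hV hVk hdim i hF a
  set C₂ : ℝ := ∑ a, Cr a with hC₂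
  have hC₂a : ∀ a, Cr a ≤ C₂ := fun a =>
    Finset.single_le_sum (f := Cr) (fun b _ => zero_le_one.trans (hCr b)) (Finset.mem_univ a)
  have hC₂1 : 1 ≤ C₂ := (hCr 0).trans (hC₂a 0)
  have hlog : 0 ≤ Real.log C₁ := Real.log_nonneg hC₁
  have hm1 : (1 : ℝ) ≤ m := by exact_mod_cast hm
  refine ⟨C₁ + C₂ * (2 + 2 * Real.log C₁) + 4 * C₂ * m, ⋃ a, Er a, ?_, Set.finite_iUnion hEr, ?_⟩
  · have : 0 ≤ C₂ * (2 + 2 * Real.log C₁) + 4 * C₂ * m := by positivity
    linarith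
  intro x hx hxE K hfd hxK hint H hH hCH
  obtain ⟨a, s, hs⟩ := hH
  have hD : (1 : ℝ) ≤ (Module.finrank ℚ K : ℝ) := by
    exact_mod_cast Module.finrank_pos (R := ℚ) (M := K)
  set D : ℝ := (Module.finrank ℚ K : ℝ) with hDdef
  have hD0 : 0 < D := by linarith
  obtain ⟨s₀, hs₀⟩ := exists_max_conj (aeval_alg F (x ∘ i) hint)
  set Fx : ℂ := (aeval (x ∘ i) F : ℂ) with hFx
  set L : ℝ := max 0 (Real.log ‖s₀ Fx‖) with hL
  have hL0 : 0 ≤ L := le_max_left _ _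
  have hexpL : ∀ t : ℂ ≃+* ℂ, ‖t Fx‖ ≤ Real.exp L := by
    intro t
    refine (hs₀ t).trans ?_
    rcases (norm_nonneg (s₀ Fx)).eq_or_lt with h0 | h0
    · rw [← h0]; exact (Real.exp_pos L).le
    · calc ‖s₀ Fx‖ = Real.exp (Real.log ‖s₀ Fx‖) := (Real.exp_log h0).symm
        _ ≤ Real.exp L := Real.exp_le_exp.mpr (le_max_right _ _)
  have hHL : H ≤ C₂ * D * (1 + L) := by
    have h1 := hrel a x hx (fun h => hxE (Set.mem_iUnion.mpr ⟨a, h⟩)) K hxK hint L hL0 hexpL s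
    have h2 : H ≤ Cr a * D * (1 + L) := Real.exp_le_exp.mp (hs.trans h1)
    refine h2.trans ?_
    exact mul_le_mul_of_nonneg_right (mul_le_mul_of_nonneg_right (hC₂a a) hD0.le) (by linarith)
  have hCL : C₁ + C₂ * (2 + 2 * Real.log C₁) + 4 * C₂ * m ≤ C₂ * (1 + L) := by
    have h1 := hCH.trans hHL
    have h2 : (C₁ + C₂ * (2 + 2 * Real.log C₁) + 4 * C₂ * m) * D ≤ (C₂ * (1 + L)) * D := by
      calc _ ≤ C₂ * D * (1 + L) := h1
        _ = (C₂ * (1 + L)) * D := by ring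
    exact le_of_mul_le_mul_right h2 hD0
  have hL1 : 1 + 2 * Real.log C₁ ≤ L := by
    have h1 : C₂ * (2 + 2 * Real.log C₁) ≤ C₂ * (1 + L) := by
      have : 0 ≤ 4 * C₂ * m := by positivity
      linarith
    have h2 := le_of_mul_le_mul_left h1 (by linarith)
    linarith
  have hLpos : 0 < L := by linarith
  have hLlog : L = Real.log ‖s₀ Fx‖ := by
    rcases max_choice 0 (Real.log ‖s₀ Fx‖) with h | h
    · rw [← hL] at h; linarith
    · rw [← hL] at h; exact h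
  have hFpos : 0 < ‖s₀ Fx‖ := by
    rcases (norm_nonneg (s₀ Fx)).eq_or_lt with h0 | h0
    · rw [← h0, Real.log_zero] at hLlog; linarith
    · exact h0
  have hFexp : ‖s₀ Fx‖ = Real.exp L := by rw [hLlog, Real.exp_log hFpos]
  have hC₁F : C₁ ≤ ‖s₀ Fx‖ := by
    rw [hFexp, ← Real.exp_log (show 0 < C₁ by linarith)]
    exact Real.exp_le_exp.mpr (by linarith)
  obtain ⟨hc1, hc2⟩ := hcusp s₀ x hx hC₁F
  refine ⟨s₀, fun b hb => ?_, ?_⟩
  · have h1 := hc1 b hb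
    set y : ℝ := ‖s₀ (x (i b))‖ with hy
    have hy0 : 0 < y := by
      rcases (norm_nonneg (s₀ (x (i b)))).eq_or_lt with h0 | h0
      · rw [← hy] at h0
        rw [← h0, zero_pow hm.ne', mul_zero] at h1
        linarith
      · exact h0
    have h2 : L ≤ Real.log C₁ + m * Real.log y := by
      have h3 := Real.log_le_log hFpos h1
      rw [← hLlog, Real.log_mul (by linarith) (pow_pos hy0 m).ne', Real.log_pow] at h3
      exact h3
    have h4 : L ≤ 2 * (m * Real.log y) := by linarith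
    have h5 : 0 ≤ Real.log y := by
      by_contra hneg
      push Not at hneg
      have : (m : ℝ) * Real.log y ≤ 0 := mul_nonpos_of_nonneg_of_nonpos (by linarith) hneg.le
      linarith
    calc H ≤ C₂ * D * (1 + L) := hHL
      _ ≤ C₂ * D * (2 * (2 * (m * Real.log y))) := by
          apply mul_le_mul_of_nonneg_left _ (by positivity)
          linarith
      _ = (4 * C₂ * m) * D * Real.log y := by ring
      _ ≤ (C₁ + C₂ * (2 + 2 * Real.log C₁) + 4 * C₂ * m) * D * Real.log y := by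
          apply mul_le_mul_of_nonneg_right _ h5
          apply mul_le_mul_of_nonneg_right _ hD0.le
          have : 0 ≤ C₂ * (2 + 2 * Real.log C₁) := by positivity
          linarith
  · have : 0 ≤ C₂ * (2 + 2 * Real.log C₁) + 4 * C₂ * m := by positivity
    linarith

end Pool.Agent.LGO
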