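import Mathlib
import Pool.Agent.LGO.H.Use
import Pool.Agent.LGO.H.Height

/-!
# LGO/H: the core of Theorem H

Proof of `core`.  `C₁ ≥ 1`, `E` from `cusp_use` for `k₁` and `k₂` (maximum, union); `C₂, C₃, C₄` from
`skew_use`, `log_le`, `isog_use`.  `x ∈ V`, `x ∉ E`, `D = [K : ℚ] ≥ 1`.  The `s x_a` are finitely many nonzero
numbers (`x_a` is integral, `NCM.ne_zero`); let `‖s₀ x_{a₀}‖` be their maximum and `H = log ‖s₀ x_{a₀}‖`, so
`‖s x_a‖ ≤ exp H` for all `s, a`; `H ≥ 0` (for instance because the norm of `x_{a₀}` is a nonzero integer; or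
replace `H` by `max H 0` where it is needed) and `Bd K H x_a` by `bd_of_aut`.  `A` is a large constant.
Case 1: `H ≤ A D`.  `isog_use` with `M = A D`.
Case 2: `H ≥ A D`.  For `j = 1, 2` `cusp_use` gives `s_j` with `H ≤ C₁ D log ‖s_j x_a‖` for `a ≠ k_j` and
`‖s_j x_{k_j}‖ ≤ C₁`.  Put `T = H / (C₁ D) ≥ A / C₁ ≥ C₂` and `M = 2 C₁ D`, so `M T = 2 H ≥ H`.  `skew_use` for the
field `KS s_j K` (`finrank_KS`, `Bd.map`, `Bd.mono`) and the numbers `s_j x_a, s_j x_b, s_j x_{k_j}`, where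
`{a, b, k_j} = {0, 1, 2}`; the `mdeg` do not change under `s_j` (`mdeg_map`).  So for both `j`
`mdeg x_a x_b ≤ M ^ C₂` or `mdeg x_a x_{k_j} * mdeg x_b x_{k_j} ≤ M ^ C₂ mdeg x_a x_b`.
Conclusion: `mdeg x_a x_b ≤ M ^ C₂` for some `a ≠ b`: otherwise the second inequality holds for both `j`;
let `k₃` be the third index, multiply the two inequalities and cancel the positive numbers
`mdeg x_{k₂} x_{k₃}`, `mdeg x_{k₁} x_{k₃}`: `(mdeg x_{k₁} x_{k₂})² ≤ (M ^ C₂)²` (`mdeg_symm`).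
The pair `{a, b}` contains `k₁` or `k₂`, say (`mdeg_symm`) `a = k_j`, `b ≠ k_j`.  `log_le` for `s_j x_a`, `s_j x_b`:
`T ≤ log ‖s_j x_b‖ ≤ C₃ M ^ C₂ (1 + log (1 + C₁))`, so `H = C₁ D T ≤ (A' D) ^ A'`, and `isog_use` with
`(A' D) ^ A'` in place of `M`.
-/

namespace Pool.Agent.LGO

open MvPolynomial Pool.Agent.Hhelper14.ZPL

/-- the conclusion of the theorems about large Galois orbits for the point `x`: polynomial bounds for
the degrees of the isogenies and the logarithms of the conjugates of the coordinates -/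
def Concl {n : ℕ} (i : Fin 3 → Fin n) (C : ℕ) (x : Fin n → ℂ) : Prop :=
  ∀ (K : IntermediateField ℚ ℂ) [FiniteDimensional ℚ K], (∀ a, x (i a) ∈ K) →
    (∀ a b, (mdeg (x (i a)) (x (i b)) : ℝ) ≤ (C * Module.finrank ℚ K : ℝ) ^ C) ∧
    ∀ a, ∀ s : ℂ ≃+* ℂ, ‖s (x (i a))‖ ≤ Real.exp ((C * Module.finrank ℚ K : ℝ) ^ C)

/-- one of the conjugates of an integral number has the largest absolute value -/
private theorem Core_max {z : ℂ} (hz : IsIntegral ℤ z) :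
    ∃ s₀ : ℂ ≃+* ℂ, ∀ s : ℂ ≃+* ℂ, ‖s z‖ ≤ ‖s₀ z‖ := by
  classical
  have hint : IsIntegral ℚ z := hz.tower_top
  have hP0 : minpoly ℚ z ≠ 0 := minpoly.ne_zero hint
  have hfin : (Set.range fun s : ℂ ≃+* ℂ => ‖s z‖).Finite := by
    apply Set.Finite.subset ((((minpoly ℚ z).aroots ℂ).toFinset.finite_toSet).image fun w => ‖w‖)
    rintro _ ⟨s, rfl⟩
    refine ⟨s z, ?_, rfl⟩
    rw [Finset.mem_coe, Multiset.mem_toFinset, Polynomial.mem_aroots]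
    refine ⟨hP0, ?_⟩
    have h1 := Polynomial.aeval_algHom_apply (RingHom.toRatAlgHom (s : ℂ →+* ℂ)) z (minpoly ℚ z)
    rw [minpoly.aeval, map_zero] at h1
    exact h1
  obtain ⟨r, ⟨s₀, hs₀⟩, hr⟩ := Set.exists_max_image (Set.range fun s : ℂ ≃+* ℂ => ‖s z‖) id hfin
    ⟨_, ⟨RingEquiv.refl ℂ, rfl⟩⟩
  refine ⟨s₀, fun s => ?_⟩
  have := hr _ ⟨s, rfl⟩
  rw [← hs₀] at this
  exact this

/-- the logarithm of the largest conjugate of the coordinates -/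
private theorem Core_H (y : Fin 3 → ℂ) (hint : ∀ a, IsIntegral ℤ (y a)) (hN : ∀ a, NCM (y a)) :
    ∃ H : ℝ, (∀ a, ∀ s : ℂ ≃+* ℂ, ‖s (y a)‖ ≤ Real.exp H) ∧
      ∃ (a : Fin 3) (s : ℂ ≃+* ℂ), Real.exp H ≤ ‖s (y a)‖ := by
  choose s₀ hs₀ using fun a => Core_max (hint a)
  obtain ⟨a₀, ha₀⟩ := Finite.exists_max fun a => ‖s₀ a (y a)‖
  have hpos : 0 < ‖s₀ a₀ (y a₀)‖ := by
    rw [norm_pos_iff]
    exact (map_ne_zero_iff _ (s₀ a₀).injective).2 (hN a₀).ne_zero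
  refine ⟨Real.log ‖s₀ a₀ (y a₀)‖, fun a s => ?_, a₀, s₀ a₀, ?_⟩
  · rw [Real.exp_log hpos]
    exact (hs₀ a s).trans (ha₀ a)
  · rw [Real.exp_log hpos]

private theorem Core_isog {y : Fin 3 → ℂ} (hI : ∀ a b, ∃ N, 0 < N ∧ IsogDeg N (y a) (y b))
    (s : ℂ ≃+* ℂ) (a b : Fin 3) : ∃ N, 0 < N ∧ IsogDeg N (s (y a)) (s (y b)) := by
  obtain ⟨N, h1, h2⟩ := hI a b
  exact ⟨N, h1, (isogDeg_map_iff s h1).mpr h2⟩

private theorem Core_skew {C₂ : ℕ}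
    (hskew : ∀ (K : IntermediateField ℚ ℂ) [FiniteDimensional ℚ K] (M T : ℝ)
      (x y z : ℂ), 2 ≤ M → (Module.finrank ℚ K : ℝ) ≤ M → (C₂ : ℝ) ≤ T →
      Bd K (M * T) x → Bd K (M * T) y → Bd K (M * T) z → NCM x → NCM y → NCM z →
      (∃ N, 0 < N ∧ IsogDeg N x y) → (∃ N, 0 < N ∧ IsogDeg N x z) →
      (∃ N, 0 < N ∧ IsogDeg N y z) → T ≤ Real.log ‖x‖ → T ≤ Real.log ‖y‖ → ‖z‖ ≤ M →
      (mdeg x y : ℝ) ≤ M ^ C₂ ∨ (mdeg x z : ℝ) * mdeg y z ≤ M ^ C₂ * mdeg x y)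
    (K : IntermediateField ℚ ℂ) [FiniteDimensional ℚ K] {C₁ H D : ℝ}
    (hD : (Module.finrank ℚ K : ℝ) = D) (hD1 : 1 ≤ D) (hC₁ : 1 ≤ C₁)
    {y : Fin 3 → ℂ} (hBd : ∀ a, Bd K H (y a)) (hN : ∀ a, NCM (y a))
    (hI : ∀ a b, ∃ N, 0 < N ∧ IsogDeg N (y a) (y b)) (hH : C₁ * C₂ * D ≤ H) {k : Fin 3}
    {s : ℂ ≃+* ℂ} (hs : ∀ a, a ≠ k → H ≤ C₁ * D * Real.log ‖s (y a)‖) (hsk : ‖s (y k)‖ ≤ C₁)
    {a b : Fin 3} (ha : a ≠ k) (hb : b ≠ k) :
    (mdeg (y a) (y b) : ℝ) ≤ (2 * C₁ * D) ^ C₂ ∨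
      (mdeg (y a) (y k) : ℝ) * mdeg (y b) (y k) ≤ (2 * C₁ * D) ^ C₂ * mdeg (y a) (y b) := by
  have hCD : 0 < C₁ * D := by positivity
  have hH0 : 0 ≤ H := (hBd a).nonneg
  have hMT : 2 * C₁ * D * (H / (C₁ * D)) = 2 * H := by field_simp
  have hB : ∀ c, Bd (KS s K) (2 * C₁ * D * (H / (C₁ * D))) (s (y c)) := by
    intro c
    rw [hMT]
    exact ((hBd c).map s).mono (by linarith)
  have hfin : (Module.finrank ℚ (KS s K) : ℝ) = D := by rw [finrank_KS, hD]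
  have hlog : ∀ c, c ≠ k → H / (C₁ * D) ≤ Real.log ‖s (y c)‖ := by
    intro c hc
    rw [div_le_iff₀ hCD, mul_comm]
    exact hs c hc
  have h := hskew (KS s K) (2 * C₁ * D) (H / (C₁ * D)) (s (y a)) (s (y b)) (s (y k))
    (by nlinarith) (by rw [hfin]; nlinarith)
    (by rw [le_div_iff₀ hCD]; calc (C₂ : ℝ) * (C₁ * D) = C₁ * C₂ * D := by ring
        _ ≤ H := hH)
    (hB a) (hB b) (hB k) ((hN a).map s) ((hN b).map s) ((hN k).map s) (Core_isog hI s a b)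
    (Core_isog hI s a k) (Core_isog hI s b k) (hlog a ha) (hlog b hb)
    (hsk.trans (by nlinarith))
  rw [mdeg_map, mdeg_map, mdeg_map] at h
  exact h

private theorem Core_log {C₃ : ℝ} (hC₃ : 1 ≤ C₃)
    (hlog : ∀ (N : ℕ) (x y : ℂ), 0 < N → IsogDeg N x y →
      Real.log ‖y‖ ≤ C₃ * N * (1 + Real.log (1 + ‖x‖)))
    {C₁ H D P : ℝ} (hD1 : 1 ≤ D) (hC₁ : 1 ≤ C₁) {y : Fin 3 → ℂ}
    (hI : ∀ a b, ∃ N, 0 < N ∧ IsogDeg N (y a) (y b)) {k : Fin 3}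
    {s : ℂ ≃+* ℂ} (hs : ∀ a, a ≠ k → H ≤ C₁ * D * Real.log ‖s (y a)‖) (hsk : ‖s (y k)‖ ≤ C₁)
    {a : Fin 3} (ha : a ≠ k) (hP : (mdeg (y k) (y a) : ℝ) ≤ P) :
    H ≤ C₁ * D * (C₃ * P * (1 + Real.log (1 + C₁))) := by
  have h1 := mdeg_spec (Core_isog hI s k a)
  have h2 := hlog _ _ _ h1.1 h1.2
  rw [mdeg_map] at h2
  have h3 : Real.log (1 + ‖s (y k)‖) ≤ Real.log (1 + C₁) :=
    Real.log_le_log (by positivity) (by linarith)
  have h4 : 0 ≤ Real.log (1 + ‖s (y k)‖) := Real.log_nonneg (by linarith [norm_nonneg (s (y k))])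
  have h5 : (0 : ℝ) ≤ mdeg (y k) (y a) := Nat.cast_nonneg _
  refine (hs a ha).trans (mul_le_mul_of_nonneg_left (h2.trans ?_) (by positivity))
  have h6 : C₃ * (mdeg (y k) (y a) : ℝ) ≤ C₃ * P := mul_le_mul_of_nonneg_left hP (by linarith)
  exact mul_le_mul h6 (by linarith) (by linarith) (h5.trans hP |> fun h => by positivity)

private theorem Core_comb {m12 m13 m23 P : ℝ} (h12 : 0 < m12) (h13 : 0 < m13) (h23 : 0 < m23)
    (hP : 0 ≤ P) (h1 : m23 ≤ P ∨ m12 * m13 ≤ P * m23) (h2 : m13 ≤ P ∨ m12 * m23 ≤ P * m13) :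
    m12 ≤ P ∨ m13 ≤ P ∨ m23 ≤ P := by
  rcases h1 with h1 | h1
  · exact Or.inr (Or.inr h1)
  rcases h2 with h2 | h2
  · exact Or.inr (Or.inl h2)
  left
  have h3 : (m12 * m13) * (m12 * m23) ≤ (P * m23) * (P * m13) :=
    mul_le_mul h1 h2 (by positivity) (by positivity)
  have h4 : m12 ^ 2 * (m13 * m23) ≤ P ^ 2 * (m13 * m23) := by nlinarith
  have h5 : m12 ^ 2 ≤ P ^ 2 := le_of_mul_le_mul_right h4 (by positivity)
  exact le_of_pow_le_pow_left₀ two_ne_zero hP h5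

/-- the last step: a bound for the height gives the conclusion -/
private theorem Core_fin {C₄ : ℕ}
    (hisog : ∀ (K : IntermediateField ℚ ℂ) [FiniteDimensional ℚ K] (M : ℝ)
      (x y : ℂ), 2 ≤ M → (Module.finrank ℚ K : ℝ) ≤ M → Bd K M x → Bd K M y → NCM x → NCM y →
      (∃ N, 0 < N ∧ IsogDeg N x y) → (mdeg x y : ℝ) ≤ M ^ C₄)
    (K : IntermediateField ℚ ℂ) [FiniteDimensional ℚ K] {H : ℝ} {A : ℕ} (hA : 2 ≤ A)
    {y : Fin 3 → ℂ} (hy : ∀ a, y a ∈ K) (hint : ∀ a, IsIntegral ℤ (y a)) (hN : ∀ a, NCM (y a))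
    (hI : ∀ a b, ∃ N, 0 < N ∧ IsogDeg N (y a) (y b))
    (hH : ∀ a, ∀ s : ℂ ≃+* ℂ, ‖s (y a)‖ ≤ Real.exp H)
    (hHA : H ≤ ((A : ℝ) * Module.finrank ℚ K) ^ A) :
    (∀ a b, (mdeg (y a) (y b) : ℝ) ≤
      (((A * (C₄ + 1) : ℕ) : ℝ) * Module.finrank ℚ K) ^ (A * (C₄ + 1))) ∧
    ∀ a, ∀ s : ℂ ≃+* ℂ, ‖s (y a)‖ ≤
      Real.exp ((((A * (C₄ + 1) : ℕ) : ℝ) * Module.finrank ℚ K) ^ (A * (C₄ + 1))) := by
  have hD1 : (1 : ℝ) ≤ (Module.finrank ℚ K : ℝ) := by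
    exact_mod_cast Module.finrank_pos (R := ℚ) (M := K)
  set D : ℝ := (Module.finrank ℚ K : ℝ) with hD
  have hA2 : (2 : ℝ) ≤ A := by exact_mod_cast hA
  have hAD : 1 ≤ (A : ℝ) * D := by nlinarith
  have hself : (A : ℝ) * D ≤ ((A : ℝ) * D) ^ A := le_self_pow₀ hAD (by omega)
  have hM2 : 2 ≤ ((A : ℝ) * D) ^ A := le_trans (by nlinarith) hself
  have hDM : D ≤ ((A : ℝ) * D) ^ A := le_trans (by nlinarith) hself
  have hB : ∀ a, Bd K (((A : ℝ) * D) ^ A) (y a) := fun a =>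
    bd_of_aut (hy a) (hint a) (by linarith) fun s => (hH a s).trans (Real.exp_le_exp.2 hHA)
  have hbase : (A : ℝ) * D ≤ (((A * (C₄ + 1) : ℕ) : ℝ)) * D := by
    refine mul_le_mul_of_nonneg_right ?_ (by linarith)
    have : A * 1 ≤ A * (C₄ + 1) := Nat.mul_le_mul_left _ (by omega)
    rw [mul_one] at this
    exact_mod_cast this
  have hpow : ∀ e, e ≤ A * (C₄ + 1) →
      ((A : ℝ) * D) ^ e ≤ ((((A * (C₄ + 1) : ℕ) : ℝ)) * D) ^ (A * (C₄ + 1)) := by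
    intro e he
    exact (pow_le_pow_right₀ hAD he).trans (pow_le_pow_left₀ (by linarith) hbase _)
  constructor
  · intro a b
    refine (hisog K _ (y a) (y b) hM2 hDM (hB a) (hB b) (hN a) (hN b) (hI a b)).trans ?_
    rw [← pow_mul]
    exact hpow _ (Nat.mul_le_mul_left _ (by omega))
  · intro a s
    refine (hH a s).trans (Real.exp_le_exp.2 (hHA.trans (hpow _ ?_)))
    have : A * 1 ≤ A * (C₄ + 1) := Nat.mul_le_mul_left _ (by omega)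
    omega

theorem core {n : ℕ} {V : Set (Fin n → ℂ)} (hV : Pool.Agent.Hhelper14.ZPL.IsIrredClosed V)
    (hVk : KClosed V) (hdim : Pool.Agent.Hhelper14.ZPL.dim V = 1) (i : Fin 3 → Fin n)
    {k₁ k₂ : Fin 3} (hk : k₁ ≠ k₂) (h₁ : TwoInf V i k₁) (h₂ : TwoInf V i k₂) :
    ∃ (C : ℕ) (E : Set (Fin n → ℂ)), E.Finite ∧ ∀ x ∈ V, x ∉ E → (∀ a, NCM (x (i a))) →
      (∀ a b, ∃ N, 0 < N ∧ IsogDeg N (x (i a)) (x (i b))) → (∀ a, IsIntegral ℤ (x (i a))) →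
      Concl i C x := by
  obtain ⟨Ca, Ea, hCa, hEa, hcuspa⟩ := cusp_use hV hVk hdim i h₁
  obtain ⟨Cb, Eb, hCb, hEb, hcuspb⟩ := cusp_use hV hVk hdim i h₂
  obtain ⟨C₂, hskew⟩ := skew_use
  obtain ⟨C₃, hC₃, hlog⟩ := log_le
  obtain ⟨C₄, hisog⟩ := isog_use
  have hthird : ∀ k₁ k₂ : Fin 3, k₁ ≠ k₂ → ∃ k₃, k₃ ≠ k₁ ∧ k₃ ≠ k₂ := by decide
  obtain ⟨k₃, hk31, hk32⟩ := hthird k₁ k₂ hk
  set C₁ : ℝ := max Ca Cb with hC₁def
  have hC₁ : 1 ≤ C₁ := hCa.trans (le_max_left _ _)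
  have hL0 : 0 ≤ Real.log (1 + C₁) := Real.log_nonneg (by linarith)
  set K₁ : ℝ := C₁ * (C₃ * (2 * C₁) ^ C₂ * (1 + Real.log (1 + C₁))) with hK₁
  have hK₁0 : 0 ≤ K₁ := by positivity
  set A₀ : ℝ := C₁ + C₁ * C₂ with hA₀
  set A : ℕ := ⌈A₀⌉₊ + ⌈K₁⌉₊ + C₂ + 2 with hA
  have hA₀A : A₀ ≤ A := by
    have h1 : A₀ ≤ ⌈A₀⌉₊ := Nat.le_ceil _
    have h2 : (⌈A₀⌉₊ : ℝ) ≤ A := by exact_mod_cast (by omega : ⌈A₀⌉₊ ≤ A)
    exact h1.trans h2
  have hK₁A : K₁ ≤ A := by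
    have h1 : K₁ ≤ ⌈K₁⌉₊ := Nat.le_ceil _
    have h2 : (⌈K₁⌉₊ : ℝ) ≤ A := by exact_mod_cast (by omega : ⌈K₁⌉₊ ≤ A)
    exact h1.trans h2
  refine ⟨A * (C₄ + 1), Ea ∪ Eb, hEa.union hEb, ?_⟩
  intro x hx hxE hN hI hint K hfd hxK
  obtain ⟨H, hH1, hH2⟩ := Core_H (fun a => x (i a)) hint hN
  refine Core_fin hisog K (by omega) hxK hint hN hI hH1 ?_
  have hD1 : (1 : ℝ) ≤ (Module.finrank ℚ K : ℝ) := by
    exact_mod_cast Module.finrank_pos (R := ℚ) (M := K)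
  set D : ℝ := (Module.finrank ℚ K : ℝ) with hD
  have hA2 : (2 : ℝ) ≤ A := by exact_mod_cast (by omega : 2 ≤ A)
  have hAD : 1 ≤ (A : ℝ) * D := by nlinarith
  have hself : (A : ℝ) * D ≤ ((A : ℝ) * D) ^ A := le_self_pow₀ hAD (by omega)
  by_cases hcase : H ≤ A₀ * D
  · refine hcase.trans (le_trans ?_ hself)
    exact mul_le_mul_of_nonneg_right hA₀A (by linarith)
  · push Not at hcase
    have hC₂0 : (0 : ℝ) ≤ C₂ := Nat.cast_nonneg _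
    have hA₀D : C₁ * D + C₁ * C₂ * D ≤ H := by
      calc C₁ * D + C₁ * C₂ * D = A₀ * D := by rw [hA₀]; ring
        _ ≤ H := hcase.le
    have hC₁D : 0 < C₁ * D := by positivity
    have hC₁₂D : 0 ≤ C₁ * C₂ * D := by positivity
    have hH0 : 0 ≤ H := by linarith
    have hCaC : Ca ≤ C₁ := le_max_left _ _
    have hCbC : Cb ≤ C₁ := le_max_right _ _
    -- the places
    have key : ∀ (Cj : ℝ) (k : Fin 3), 1 ≤ Cj → Cj ≤ C₁ →
        (∃ s : ℂ ≃+* ℂ, (∀ a, a ≠ k → H ≤ Cj * D * Real.log ‖s (x (i a))‖) ∧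
            ‖s (x (i k))‖ ≤ Cj) →
        ∃ s : ℂ ≃+* ℂ, (∀ a, a ≠ k → H ≤ C₁ * D * Real.log ‖s (x (i a))‖) ∧
            ‖s (x (i k))‖ ≤ C₁ := by
      rintro Cj k hCj hCjC ⟨s, hs, hsk⟩
      refine ⟨s, fun a ha => ?_, hsk.trans hCjC⟩
      have h1 := hs a ha
      have h2 : 0 ≤ Real.log ‖s (x (i a))‖ := by
        by_contra hneg
        push Not at hneg
        have : Cj * D * Real.log ‖s (x (i a))‖ < 0 := mul_neg_of_pos_of_neg (by positivity) hneg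
        linarith
      refine h1.trans (mul_le_mul_of_nonneg_right ?_ h2)
      exact mul_le_mul_of_nonneg_right hCjC (by linarith)
    obtain ⟨s₁, hs₁, hs₁k⟩ := key Ca k₁ hCa hCaC
      (hcuspa x hx (fun h => hxE (Or.inl h)) K hxK hint H hH2 (by
        have : Ca * D ≤ C₁ * D := mul_le_mul_of_nonneg_right hCaC (by linarith)
        linarith))
    obtain ⟨s₂, hs₂, hs₂k⟩ := key Cb k₂ hCb hCbC
      (hcuspb x hx (fun h => hxE (Or.inr h)) K hxK hint H hH2 (by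
        have : Cb * D ≤ C₁ * D := mul_le_mul_of_nonneg_right hCbC (by linarith)
        linarith))
    have hBd : ∀ a, Bd K H (x (i a)) := fun a => bd_of_aut (hxK a) (hint a) hH0 (hH1 a)
    have sk1 := Core_skew hskew K hD.symm hD1 hC₁ (y := fun a => x (i a)) hBd hN hI
      (by linarith) hs₁ hs₁k (a := k₂) (b := k₃) hk.symm hk31
    have sk2 := Core_skew hskew K hD.symm hD1 hC₁ (y := fun a => x (i a)) hBd hN hI
      (by linarith) hs₂ hs₂k (a := k₁) (b := k₃) hk hk32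
    set P : ℝ := (2 * C₁ * D) ^ C₂ with hP
    have hP0 : 0 ≤ P := by positivity
    have hpos : ∀ a b, (0 : ℝ) < mdeg (x (i a)) (x (i b)) := fun a b => by
      exact_mod_cast mdeg_pos (hI a b)
    have hcomb := Core_comb (m12 := mdeg (x (i k₁)) (x (i k₂)))
      (m13 := mdeg (x (i k₁)) (x (i k₃))) (m23 := mdeg (x (i k₂)) (x (i k₃))) (hpos _ _)
      (hpos _ _) (hpos _ _) hP0
      (by
        rcases sk1 with h | h
        · exact Or.inl h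
        · right
          rw [mdeg_symm (x (i k₁)) (x (i k₂)), mdeg_symm (x (i k₁)) (x (i k₃))]
          exact h)
      (by
        rcases sk2 with h | h
        · exact Or.inl h
        · right
          rw [mdeg_symm (x (i k₂)) (x (i k₃))]
          exact h)
    have hfinal : H ≤ C₁ * D * (C₃ * P * (1 + Real.log (1 + C₁))) := by
      rcases hcomb with h | h | h
      · exact Core_log hC₃ hlog hD1 hC₁ (y := fun a => x (i a)) hI hs₁ hs₁k hk.symm h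
      · exact Core_log hC₃ hlog hD1 hC₁ (y := fun a => x (i a)) hI hs₁ hs₁k hk31 h
      · exact Core_log hC₃ hlog hD1 hC₁ (y := fun a => x (i a)) hI hs₂ hs₂k hk32 h
    have hDpow : 1 ≤ D ^ (C₂ + 1) := one_le_pow₀ hD1
    calc H ≤ C₁ * D * (C₃ * P * (1 + Real.log (1 + C₁))) := hfinal
      _ = K₁ * D ^ (C₂ + 1) := by rw [hK₁, hP, mul_pow (2 * C₁) D]; ring
      _ ≤ A * D ^ (C₂ + 1) := mul_le_mul_of_nonneg_right hK₁A (by positivity)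
      _ ≤ (A : ℝ) ^ (C₂ + 1) * D ^ (C₂ + 1) := by
          refine mul_le_mul_of_nonneg_right ?_ (by positivity)
          exact le_self_pow₀ (by linarith) (by omega)
      _ = ((A : ℝ) * D) ^ (C₂ + 1) := by rw [mul_pow]
      _ ≤ ((A : ℝ) * D) ^ A := pow_le_pow_right₀ hAD (by omega)

end Pool.Agent.LGO
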