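import Mathlib
import Pool.Agent.LGO.H.Core

/-!
# LGO/H: the core in the case of a good cusp

`hF0` is what the analysis near a good cusp gives (helper22, folder `LGO/Q`).

Proof.  `C₁, E₁` from `rel_height` for the three values of `a`.  Let `E = E₀ ∪ E₁`, `D = [K : ℚ] ≥ 1`,
`N = max 3 (max of the mdeg x_a x_b)`.  `hF0` and `rel_height` with `L = C₀ (log N) ^ C₀ ≥ 0` (`log N ≥ 1`):
`‖s x_a‖ ≤ exp H`, `H = C₁ D (1 + C₀ (log N) ^ C₀)`, for all `s`, `a`, so `Bd K H x_a` (`bd_of_aut`).  `isog_use` with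
`M = 2 H ≥ 2, D`: `N ≤ max 3 ((2 H) ^ C₂)`.  So `N ≤ (A D) ^ A (log N) ^ A` for a constant `A`; since
`(log N) ^ A ≤ C N ^ (1 / 2)` (`Real.isLittleO_pow_log_id_atTop`, or `Real.log_le_rpow_div`), `N ≤ (A' D) ^ A'`
and then `H ≤ (A'' D) ^ A''`.
-/

namespace Pool.Agent.LGO

open MvPolynomial Pool.Agent.Hhelper14.ZPL

private theorem CoreG_fin {C a e : ℕ} {D : ℝ} (hD : 1 ≤ D) (hC : 1 ≤ C) (ha : a ≤ C) (he : e ≤ C) :
    (a : ℝ) * D ^ e ≤ (C * D) ^ C := by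
  rw [mul_pow]
  have h1 : (a : ℝ) ≤ C ^ C := by
    have h2 : C ^ 1 ≤ C ^ C := Nat.pow_le_pow_right hC hC
    rw [pow_one] at h2
    exact_mod_cast ha.trans h2
  exact mul_le_mul h1 (pow_le_pow_right₀ hD he) (by positivity) (by positivity)

private theorem CoreG_log {N : ℝ} (hN : 3 ≤ N) (k : ℕ) :
    Real.log N ^ k ≤ (2 ^ k * k.factorial : ℕ) * √N := by
  have hN0 : 0 < N := by linarith
  have h0 : 0 ≤ Real.log N := Real.log_nonneg (by linarith)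
  have h1 := Real.pow_div_factorial_le_exp (x := Real.log N / 2) (by linarith) k
  have h2 : Real.exp (Real.log N / 2) = √N := by
    rw [← Real.log_sqrt hN0.le, Real.exp_log (Real.sqrt_pos.2 hN0)]
  rw [h2, div_pow] at h1
  have h3 : (0 : ℝ) < k.factorial := by exact_mod_cast k.factorial_pos
  have h4 : (0 : ℝ) < 2 ^ k := by positivity
  rw [div_div, div_le_iff₀ (by positivity)] at h1
  push_cast
  linarith

private theorem CoreG_one {N : ℝ} (hN : 3 ≤ N) : 1 ≤ Real.log N := by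
  rw [Real.le_log_iff_exp_le (by linarith)]
  have := Real.exp_one_lt_d9
  linarith

/-- the numerical conclusion -/
private theorem CoreG_num {c C₀ C₂ : ℕ} (hc : 1 ≤ c) {D N : ℝ} (hD : 1 ≤ D) (hN : 3 ≤ N)
    (h : N ≤ 12 * (2 * (c * D * (1 + C₀ * Real.log N ^ C₀))) ^ C₂) :
    N ≤ ((12 * (2 * c * (1 + C₀)) ^ C₂ * (2 ^ (C₀ * C₂) * (C₀ * C₂).factorial)) ^ 2 : ℕ) *
        D ^ (2 * C₂) ∧
      c * D * (1 + C₀ * Real.log N ^ C₀) ≤
        (c * (1 + C₀) * (2 ^ C₀ * C₀.factorial) *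
          (12 * (2 * c * (1 + C₀)) ^ C₂ * (2 ^ (C₀ * C₂) * (C₀ * C₂).factorial)) : ℕ) *
        D ^ (C₂ + 1) := by
  have hN0 : 0 < N := by linarith
  have hl := CoreG_one hN
  have hk : 1 + C₀ * Real.log N ^ C₀ ≤ (1 + C₀) * Real.log N ^ C₀ := by
    have := one_le_pow₀ (n := C₀) hl
    linarith
  have hs : 0 < √N := Real.sqrt_pos.2 hN0
  have hss : √N * √N = N := Real.mul_self_sqrt hN0.le
  have hc1 : (1 : ℝ) ≤ c := by exact_mod_cast hc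
  have hD0 : 0 ≤ D := by linarith
  have hlk : 0 ≤ Real.log N ^ C₀ := by positivity
  obtain ⟨A, hA⟩ : ∃ A : ℕ,
      A = 12 * (2 * c * (1 + C₀)) ^ C₂ * (2 ^ (C₀ * C₂) * (C₀ * C₂).factorial) := ⟨_, rfl⟩
  rw [← hA]
  have h1 : N ≤ A * D ^ C₂ * √N := by
    calc N ≤ 12 * (2 * (c * D * (1 + C₀ * Real.log N ^ C₀))) ^ C₂ := h
      _ ≤ 12 * (2 * (c * D * ((1 + C₀) * Real.log N ^ C₀))) ^ C₂ := by gcongr
      _ = 12 * (2 * c * (1 + C₀)) ^ C₂ * D ^ C₂ * Real.log N ^ (C₀ * C₂) := by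
          have e1 : 2 * (c * D * ((1 + C₀) * Real.log N ^ C₀)) =
              (2 * c * (1 + C₀)) * D * Real.log N ^ C₀ := by ring
          rw [e1, mul_pow, mul_pow, ← pow_mul]
          ring
      _ ≤ 12 * (2 * c * (1 + C₀)) ^ C₂ * D ^ C₂ *
            ((2 ^ (C₀ * C₂) * (C₀ * C₂).factorial : ℕ) * √N) := by
          refine mul_le_mul_of_nonneg_left (CoreG_log hN _) (by positivity)
      _ = A * D ^ C₂ * √N := by
          rw [hA]
          push_cast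
          ring
  have h2 : √N ≤ A * D ^ C₂ := by
    have h3 : √N * √N ≤ A * D ^ C₂ * √N := by rw [hss]; exact h1
    exact le_of_mul_le_mul_right h3 hs
  constructor
  · calc N = √N * √N := hss.symm
      _ ≤ (A * D ^ C₂) * (A * D ^ C₂) := mul_le_mul h2 h2 hs.le (by positivity)
      _ = (A ^ 2 : ℕ) * D ^ (2 * C₂) := by push_cast; ring
  · calc c * D * (1 + C₀ * Real.log N ^ C₀) ≤ c * D * ((1 + C₀) * Real.log N ^ C₀) := by gcongr
      _ ≤ c * D * ((1 + C₀) * ((2 ^ C₀ * C₀.factorial : ℕ) * √N)) := by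
          gcongr
          exact CoreG_log hN _
      _ ≤ c * D * ((1 + C₀) * ((2 ^ C₀ * C₀.factorial : ℕ) * (A * D ^ C₂))) := by gcongr
      _ = (c * (1 + C₀) * (2 ^ C₀ * C₀.factorial) * A : ℕ) * D ^ (C₂ + 1) := by
          push_cast
          ring

theorem core_good {n : ℕ} {V : Set (Fin n → ℂ)} (hV : Pool.Agent.Hhelper14.ZPL.IsIrredClosed V)
    (hVk : KClosed V) (hdim : Pool.Agent.Hhelper14.ZPL.dim V = 1) (i : Fin 3 → Fin n)
    {F : MvPolynomial (Fin 3) Qb} (hF : ∀ c : ℂ, ∃ x ∈ V, (aeval (x ∘ i) F : ℂ) ≠ c)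
    {C₀ : ℕ} {E₀ : Set (Fin n → ℂ)} (hE₀ : E₀.Finite)
    (hF0 : ∀ x ∈ V, x ∉ E₀ → (∀ a, NCM (x (i a))) →
      (∀ a b, ∃ N, 0 < N ∧ IsogDeg N (x (i a)) (x (i b))) → ∀ N : ℝ, 3 ≤ N →
        (∀ a b, (mdeg (x (i a)) (x (i b)) : ℝ) ≤ N) → ∀ s : ℂ ≃+* ℂ,
          ‖s (aeval (x ∘ i) F : ℂ)‖ ≤ Real.exp (C₀ * Real.log N ^ C₀)) :
    ∃ (C : ℕ) (E : Set (Fin n → ℂ)), E.Finite ∧ ∀ x ∈ V, x ∉ E → (∀ a, NCM (x (i a))) →
      (∀ a b, ∃ N, 0 < N ∧ IsogDeg N (x (i a)) (x (i b))) → (∀ a, IsIntegral ℤ (x (i a))) →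
      Concl i C x := by
  classical
  choose Cr Er hCr hEr hrel using fun a => rel_height hV hVk hdim i hF a
  obtain ⟨C₂, hisog⟩ := isog_use
  obtain ⟨c, hc⟩ := exists_nat_ge (∑ a, Cr a)
  have hca : ∀ a, Cr a ≤ c := fun a =>
    (Finset.single_le_sum (f := Cr) (fun b _ => zero_le_one.trans (hCr b)) (Finset.mem_univ a)).trans
      hc
  have hc1 : (1 : ℝ) ≤ c := (hCr 0).trans (hca 0)
  have hc1' : 1 ≤ c := by exact_mod_cast hc1
  obtain ⟨A, hA⟩ : ∃ A : ℕ,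
      A = (12 * (2 * c * (1 + C₀)) ^ C₂ * (2 ^ (C₀ * C₂) * (C₀ * C₂).factorial)) ^ 2 := ⟨_, rfl⟩
  obtain ⟨B, hB⟩ : ∃ B : ℕ, B = c * (1 + C₀) * (2 ^ C₀ * C₀.factorial) *
    (12 * (2 * c * (1 + C₀)) ^ C₂ * (2 ^ (C₀ * C₂) * (C₀ * C₂).factorial)) := ⟨_, rfl⟩
  refine ⟨A + B + 2 * C₂ + 2, E₀ ∪ ⋃ a, Er a, hE₀.union (Set.finite_iUnion hEr), ?_⟩
  intro x hx hxE hncm hiso hint K _ hxK
  have hxE₀ : x ∉ E₀ := fun h => hxE (Or.inl h)
  have hxEr : ∀ a, x ∉ Er a := fun a h => hxE (Or.inr (Set.mem_iUnion.2 ⟨a, h⟩))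
  obtain ⟨D, hDdef⟩ : ∃ D : ℝ, D = (Module.finrank ℚ K : ℝ) := ⟨_, rfl⟩
  have hD : 1 ≤ D := by
    rw [hDdef]
    exact_mod_cast Module.finrank_pos (R := ℚ) (M := K)
  obtain ⟨N, hNdef⟩ : ∃ N : ℝ, N = 3 + ∑ a, ∑ b, (mdeg (x (i a)) (x (i b)) : ℝ) := ⟨_, rfl⟩
  have hNab : ∀ a b, (mdeg (x (i a)) (x (i b)) : ℝ) ≤ N := by
    intro a b
    have h1 : (mdeg (x (i a)) (x (i b)) : ℝ) ≤ ∑ b, (mdeg (x (i a)) (x (i b)) : ℝ) :=
      Finset.single_le_sum (f := fun b => (mdeg (x (i a)) (x (i b)) : ℝ))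
        (fun _ _ => Nat.cast_nonneg _) (Finset.mem_univ b)
    have h2 : ∑ b, (mdeg (x (i a)) (x (i b)) : ℝ) ≤ ∑ a, ∑ b, (mdeg (x (i a)) (x (i b)) : ℝ) :=
      Finset.single_le_sum (f := fun a => ∑ b, (mdeg (x (i a)) (x (i b)) : ℝ))
        (fun _ _ => Finset.sum_nonneg fun _ _ => Nat.cast_nonneg _) (Finset.mem_univ a)
    linarith
  have hN3 : 3 ≤ N := by
    have : 0 ≤ ∑ a, ∑ b, (mdeg (x (i a)) (x (i b)) : ℝ) :=
      Finset.sum_nonneg fun _ _ => Finset.sum_nonneg fun _ _ => Nat.cast_nonneg _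
    linarith
  have hlog := CoreG_one hN3
  have hL0 : 0 ≤ (C₀ : ℝ) * Real.log N ^ C₀ := by positivity
  obtain ⟨H, hH⟩ : ∃ H : ℝ, H = c * D * (1 + C₀ * Real.log N ^ C₀) := ⟨_, rfl⟩
  have hHD : D ≤ H := by
    rw [hH]
    have h1 : (1 : ℝ) * D * 1 ≤ c * D * (1 + C₀ * Real.log N ^ C₀) := by gcongr; linarith
    linarith
  have hsx : ∀ a, ∀ s : ℂ ≃+* ℂ, ‖s (x (i a))‖ ≤ Real.exp H := by
    intro a s
    refine (hrel a x hx (hxEr a) K hxK hint _ hL0 (hF0 x hx hxE₀ hncm hiso N hN3 hNab) s).trans ?_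
    apply Real.exp_le_exp.2
    rw [hH, ← hDdef]
    have := hca a
    gcongr
  have hBd : ∀ a, Bd K (2 * H) (x (i a)) := by
    intro a
    refine bd_of_aut (hxK a) (hint a) (by linarith) fun s => (hsx a s).trans ?_
    apply Real.exp_le_exp.2
    linarith
  have hmd : ∀ a b, (mdeg (x (i a)) (x (i b)) : ℝ) ≤ (2 * H) ^ C₂ := fun a b =>
    hisog K (2 * H) _ _ (by linarith) (by linarith) (hBd a) (hBd b) (hncm a) (hncm b) (hiso a b)
  have hN : N ≤ 12 * (2 * H) ^ C₂ := by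
    have h1 : ∑ a : Fin 3, ∑ b : Fin 3, (mdeg (x (i a)) (x (i b)) : ℝ) ≤
        ∑ _a : Fin 3, ∑ _b : Fin 3, (2 * H) ^ C₂ :=
      Finset.sum_le_sum fun a _ => Finset.sum_le_sum fun b _ => hmd a b
    have h2 : (1 : ℝ) ≤ (2 * H) ^ C₂ := one_le_pow₀ (by linarith)
    simp only [Finset.sum_const, Finset.card_univ, Fintype.card_fin, nsmul_eq_mul] at h1
    push_cast at h1
    linarith
  rw [hH] at hN
  obtain ⟨hN1, hH1⟩ := CoreG_num hc1' hD hN3 hN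
  rw [← hA] at hN1
  rw [← hB, ← hH] at hH1
  rw [← hDdef]
  constructor
  · intro a b
    exact (hNab a b).trans (hN1.trans (CoreG_fin hD (by omega) (by omega) (by omega)))
  · intro a s
    refine (hsx a s).trans (Real.exp_le_exp.2 ?_)
    exact hH1.trans (CoreG_fin hD (by omega) (by omega) (by omega))

end Pool.Agent.LGO
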