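import Mathlib
import Pool.Agent.LGO.H.Core
import Pool.Agent.ZPB.BFinal

/-!
# LGO/H: from the core to the final theorem

* `int_use`: `finite_nonint` (`ZPB/BFinal.lean`) for the three triples `i ∘ Equiv.swap 0 a`, `a = 0, 1, 2`
  (all hypotheses are symmetric; the polynomial `Q` is renamed, `MvPolynomial.rename`), and `heckeRel_iff` (`LGO/Gal/Basic.lean`).
* `exc`: `E` is finite; it is enough to treat one point `x` (maximum of the constants; `Concl i C x` is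
  monotone in `C` because `[K : ℚ] ≥ 1`).  If some coordinate `x (i a)` is transcendental then `Concl` is
  vacuous (`x (i a) ∈ K` is algebraic over `ℚ`).  Otherwise the `s (x (i a))` are roots of the minimal
  polynomials over `ℚ`, so their absolute values are bounded by a constant `exp C`, and the `mdeg` are
  fixed numbers; `(C D) ^ C ≥ C` for `C, D ≥ 1`.
* `finish`: `E' = E ∪` (the set of `int_use`) and `exc`; `Concl` monotone.
-/

namespace Pool.Agent.LGO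

open MvPolynomial UpperHalfPlane Pool.Agent.Hhelper14.ZP Pool.Agent.Hhelper14.ZPL Pool.Agent.ZPB

theorem int_use {n : ℕ} {V : Set (Fin n → ℂ)} (hV : Pool.Agent.Hhelper14.ZPL.IsIrredClosed V)
    (hVk : KClosed V) (hdim : Pool.Agent.Hhelper14.ZPL.dim V = 1) (i : Fin 3 → Fin n)
    (hconst : ∀ a, ∀ c : ℂ, ∃ x ∈ V, x (i a) ≠ c)
    (hmod : ∀ a b, a ≠ b → ∀ g : GL (Fin 2) ℚ, 0 < g.det.val →
      ∃ x ∈ V, ¬ ∃ τ : ℍ, x (i a) = jInv τ ∧ x (i b) = jInv (gact g τ))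
    {Q : MvPolynomial (Fin 3) ℂ} (hQ0 : constantCoeff Q ≠ 0)
    (hQ : ∀ x ∈ V, (∀ a, x (i a) ≠ 0) → eval (fun a => (x (i a))⁻¹) Q = 0) :
    {x ∈ V | (∀ a b, ∃ N, 0 < N ∧ IsogDeg N (x (i a)) (x (i b))) ∧
      ∃ a, ¬ IsIntegral ℤ (x (i a))}.Finite := by
  classical
  have hfin : ∀ a : Fin 3, {x ∈ V | HeckeRel (x (i (Equiv.swap 0 a 0))) (x (i (Equiv.swap 0 a 1))) ∧
      HeckeRel (x (i (Equiv.swap 0 a 0))) (x (i (Equiv.swap 0 a 2))) ∧
      ¬ IsIntegral ℤ (x (i (Equiv.swap 0 a 0)))}.Finite := by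
    intro a
    refine finite_nonint hV hVk hdim (fun b => i (Equiv.swap 0 a b)) (fun b c => hconst _ c)
      (fun b c hbc g hg => hmod _ _ (fun h => hbc ((Equiv.swap 0 a).injective h)) g hg)
      (Q := rename (Equiv.swap 0 a) Q) ?_ ?_
    · rwa [constantCoeff_rename]
    · intro x hxV hx
      rw [eval_rename]
      have h1 : ((fun b => (x (i (Equiv.swap 0 a b)))⁻¹) ∘ (Equiv.swap 0 a)) =
          fun b => (x (i b))⁻¹ := by
        funext b
        simp only [Function.comp_apply, Equiv.swap_apply_self]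
      rw [h1]
      refine hQ x hxV fun b => ?_
      have h2 := hx (Equiv.swap 0 a b)
      rwa [Equiv.swap_apply_self] at h2
  refine (Set.finite_iUnion hfin).subset ?_
  rintro x ⟨hxV, hx, a, ha⟩
  refine Set.mem_iUnion.2 ⟨a, hxV, ?_, ?_, ?_⟩
  · exact heckeRel_iff.2 (hx _ _)
  · exact heckeRel_iff.2 (hx _ _)
  · rwa [Equiv.swap_apply_left]

private theorem fin_pow_mono {C C' D : ℕ} (hC : C ≤ C') (hD : 1 ≤ D) :
    ((C : ℝ) * (D : ℝ)) ^ C ≤ ((C' : ℝ) * (D : ℝ)) ^ C' := by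
  have h : (C * D) ^ C ≤ (C' * D) ^ C' := by
    rcases Nat.eq_zero_or_pos C' with h0 | h0
    · subst h0
      have : C = 0 := by omega
      subst this
      exact le_rfl
    · calc (C * D) ^ C ≤ (C' * D) ^ C := Nat.pow_le_pow_left (Nat.mul_le_mul_right _ hC) _
        _ ≤ (C' * D) ^ C' := Nat.pow_le_pow_right (Nat.mul_pos h0 hD) hC
  exact_mod_cast h

theorem Concl.mono {n : ℕ} {i : Fin 3 → Fin n} {C C' : ℕ} {x : Fin n → ℂ} (h : Concl i C x)
    (hC : C ≤ C') : Concl i C' x := by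
  intro K hK hxK
  have hD : 1 ≤ Module.finrank ℚ K := Module.finrank_pos
  have hp := fin_pow_mono hC hD
  obtain ⟨h1, h2⟩ := h K hxK
  exact ⟨fun a b => (h1 a b).trans hp, fun a s => (h2 a s).trans (Real.exp_le_exp.2 hp)⟩

private theorem fin_conj_bound {y : ℂ} (hy : IsAlgebraic ℚ y) :
    ∃ B : ℝ, ∀ s : ℂ ≃+* ℂ, ‖s y‖ ≤ B := by
  have hint : IsIntegral ℚ y := hy.isIntegral
  have hne : minpoly ℚ y ≠ 0 := minpoly.ne_zero hint
  have hfin : ((minpoly ℚ y).rootSet ℂ).Finite := Polynomial.rootSet_finite _ _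
  obtain ⟨B, hB⟩ := (hfin.image norm).bddAbove
  refine ⟨B, fun s => hB ⟨s y, ?_, rfl⟩⟩
  rw [Polynomial.mem_rootSet]
  refine ⟨hne, ?_⟩
  have h1 : Polynomial.aeval ((s : ℂ →+* ℂ).toRatAlgHom y) (minpoly ℚ y) =
      (s : ℂ →+* ℂ).toRatAlgHom (Polynomial.aeval y (minpoly ℚ y)) :=
    Polynomial.aeval_algHom_apply _ _ _
  rw [minpoly.aeval, map_zero] at h1
  exact h1

private theorem exc_one {n : ℕ} (i : Fin 3 → Fin n) (x : Fin n → ℂ) : ∃ C : ℕ, Concl i C x := by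
  classical
  by_cases halg : ∀ a, IsAlgebraic ℚ (x (i a))
  · choose B hB using fun a => fin_conj_bound (halg a)
    let C : ℕ := (∑ a, ⌈B a⌉₊) + (∑ a, ∑ b, mdeg (x (i a)) (x (i b))) + 1
    refine ⟨C, ?_⟩
    intro K hK hxK
    have hD : 1 ≤ Module.finrank ℚ K := Module.finrank_pos
    have hC1 : 1 ≤ C := by
      simp only [C]
      omega
    have hCp : (C : ℝ) ≤ ((C : ℝ) * (Module.finrank ℚ K : ℝ)) ^ C := by
      have h : C ≤ (C * Module.finrank ℚ K) ^ C := by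
        have h0 : 0 < C * Module.finrank ℚ K := Nat.mul_pos hC1 hD
        calc C ≤ C * Module.finrank ℚ K := Nat.le_mul_of_pos_right _ hD
          _ = (C * Module.finrank ℚ K) ^ 1 := (pow_one _).symm
          _ ≤ (C * Module.finrank ℚ K) ^ C := Nat.pow_le_pow_right h0 hC1
      exact_mod_cast h
    constructor
    · intro a b
      refine le_trans ?_ hCp
      have h1 : mdeg (x (i a)) (x (i b)) ≤ ∑ a, ∑ b, mdeg (x (i a)) (x (i b)) :=
        (Finset.single_le_sum (f := fun b => mdeg (x (i a)) (x (i b)))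
          (fun _ _ => Nat.zero_le _) (Finset.mem_univ b)).trans
        (Finset.single_le_sum (f := fun a => ∑ b, mdeg (x (i a)) (x (i b)))
          (fun _ _ => Nat.zero_le _) (Finset.mem_univ a))
      have h2 : mdeg (x (i a)) (x (i b)) ≤ C := by
        simp only [C]
        omega
      exact_mod_cast h2
    · intro a s
      have h1 : ⌈B a⌉₊ ≤ ∑ a, ⌈B a⌉₊ :=
        Finset.single_le_sum (f := fun a => ⌈B a⌉₊) (fun _ _ => Nat.zero_le _) (Finset.mem_univ a)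
      have h2 : ⌈B a⌉₊ ≤ C := by
        simp only [C]
        omega
      have h3 : B a ≤ (C : ℝ) := (Nat.le_ceil (B a)).trans (by exact_mod_cast h2)
      calc ‖s (x (i a))‖ ≤ B a := hB a s
        _ ≤ (C : ℝ) := h3
        _ ≤ ((C : ℝ) * (Module.finrank ℚ K : ℝ)) ^ C := hCp
        _ ≤ Real.exp (((C : ℝ) * (Module.finrank ℚ K : ℝ)) ^ C) := by
          have := Real.add_one_le_exp (((C : ℝ) * (Module.finrank ℚ K : ℝ)) ^ C)
          linarith
  · refine ⟨0, fun K hK hxK => ?_⟩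
    exfalso
    apply halg
    intro a
    have h1 : IsAlgebraic ℚ (⟨x (i a), hxK a⟩ : K) := Algebra.IsAlgebraic.isAlgebraic _
    exact h1.algebraMap

theorem exc {n : ℕ} (i : Fin 3 → Fin n) {E : Set (Fin n → ℂ)} (hE : E.Finite) :
    ∃ C : ℕ, ∀ x ∈ E, Concl i C x := by
  choose c hc using fun x => exc_one (n := n) i x
  obtain ⟨C, hC⟩ := (hE.image c).bddAbove
  exact ⟨C, fun x hx => (hc x).mono (hC ⟨x, hx, rfl⟩)⟩

theorem finish {n : ℕ} {V : Set (Fin n → ℂ)} (hV : Pool.Agent.Hhelper14.ZPL.IsIrredClosed V)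
    (hVk : KClosed V) (hdim : Pool.Agent.Hhelper14.ZPL.dim V = 1) (i : Fin 3 → Fin n)
    (hconst : ∀ a, ∀ c : ℂ, ∃ x ∈ V, x (i a) ≠ c)
    (hmod : ∀ a b, a ≠ b → ∀ g : GL (Fin 2) ℚ, 0 < g.det.val →
      ∃ x ∈ V, ¬ ∃ τ : ℍ, x (i a) = jInv τ ∧ x (i b) = jInv (gact g τ))
    {Q : MvPolynomial (Fin 3) ℂ} (hQ0 : constantCoeff Q ≠ 0)
    (hQ : ∀ x ∈ V, (∀ a, x (i a) ≠ 0) → eval (fun a => (x (i a))⁻¹) Q = 0)
    (h : ∃ (C : ℕ) (E : Set (Fin n → ℂ)), E.Finite ∧ ∀ x ∈ V, x ∉ E → (∀ a, NCM (x (i a))) →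
      (∀ a b, ∃ N, 0 < N ∧ IsogDeg N (x (i a)) (x (i b))) → (∀ a, IsIntegral ℤ (x (i a))) →
      Concl i C x) :
    ∃ C : ℕ, ∀ x ∈ V, (∀ a, NCM (x (i a))) →
      (∀ a b, ∃ N, 0 < N ∧ IsogDeg N (x (i a)) (x (i b))) → Concl i C x := by
  classical
  obtain ⟨C₁, E, hE, h1⟩ := h
  have hint := int_use hV hVk hdim i hconst hmod hQ0 hQ
  obtain ⟨C₂, h2⟩ := exc i (hE.union hint)
  refine ⟨max C₁ C₂, fun x hxV hncm hiso => ?_⟩
  by_cases hx : x ∈ E ∪ {x ∈ V | (∀ a b, ∃ N, 0 < N ∧ IsogDeg N (x (i a)) (x (i b))) ∧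
      ∃ a, ¬ IsIntegral ℤ (x (i a))}
  · exact (h2 x hx).mono (le_max_right _ _)
  · refine (h1 x hxV (fun hxE => hx (Or.inl hxE)) hncm hiso fun a => ?_).mono (le_max_left _ _)
    by_contra ha
    exact hx (Or.inr ⟨hxV, hiso, a, ha⟩)

end Pool.Agent.LGO
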