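import Mathlib
import Pool.Agent.LGO.H.Fin
import Pool.Agent.LGO.Gal.NCM
import Pool.Agent.LGO.Gal.Fin

/-!
# LGO/H: final form of the theorems

`result_of`: from the internal conclusion `Concl` to the explicit statement, with `HeckeRel`, `IsCM` and
the embeddings of the number field `K`.
-/

namespace Pool.Agent.LGO

open MvPolynomial UpperHalfPlane Pool.Agent.Hhelper14.ZP Pool.Agent.Hhelper14.ZPL

/-- `C ^ C D ^ C ≤ C' D ^ C'` -/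
theorem main_pow {C : ℕ} {D : ℝ} (hD : 1 ≤ D) :
    ((C : ℝ) * D) ^ C ≤ ((C ^ C + C : ℕ) : ℝ) * D ^ (C ^ C + C) := by
  rw [mul_pow]
  have h1 : ((C : ℝ) ^ C) ≤ ((C ^ C + C : ℕ) : ℝ) := by
    push_cast
    have : (0 : ℝ) ≤ C := Nat.cast_nonneg C
    linarith
  have h2 : D ^ C ≤ D ^ (C ^ C + C) := pow_le_pow_right₀ hD (Nat.le_add_left _ _)
  exact mul_le_mul h1 h2 (by positivity) (by positivity)

/-- the explicit form of `Concl` -/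
theorem Concl.explicit {n : ℕ} {i : Fin 3 → Fin n} {C : ℕ} {x : Fin n → ℂ} (h : Concl i C x)
    (hiso : ∀ a b, ∃ N, 0 < N ∧ IsogDeg N (x (i a)) (x (i b)))
    (K : IntermediateField ℚ ℂ) [FiniteDimensional ℚ K] (hK : ∀ a, x (i a) ∈ K) :
    (∀ a b, ∃ N : ℕ, 0 < N ∧ IsogDeg N (x (i a)) (x (i b)) ∧
      (N : ℝ) ≤ ((C ^ C + C : ℕ) : ℝ) * (Module.finrank ℚ K : ℝ) ^ (C ^ C + C)) ∧
    ∀ a, ∀ σ : K →+* ℂ, ‖σ ⟨x (i a), hK a⟩‖ ≤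
      Real.exp (((C ^ C + C : ℕ) : ℝ) * (Module.finrank ℚ K : ℝ) ^ (C ^ C + C)) := by
  obtain ⟨h1, h2⟩ := h K hK
  have hD : (1 : ℝ) ≤ Module.finrank ℚ K := by
    exact_mod_cast Module.finrank_pos (R := ℚ) (M := K)
  constructor
  · intro a b
    obtain ⟨h3, h4⟩ := mdeg_spec (hiso a b)
    exact ⟨_, h3, h4, (h1 a b).trans (main_pow hD)⟩
  · intro a σ
    obtain ⟨s, hs⟩ := exists_aut K σ
    rw [← hs]
    exact (h2 a s).trans (Real.exp_le_exp.2 (main_pow hD))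

/-- the hypotheses on the point in terms of `HeckeRel` and `IsCM` -/
theorem hyp_of {n : ℕ} {i : Fin 3 → Fin n} {x : Fin n → ℂ}
    (h1 : HeckeRel (x (i 0)) (x (i 1))) (h2 : HeckeRel (x (i 0)) (x (i 2)))
    (hcm : ∀ τ : ℍ, jInv τ = x (i 0) → ¬ IsCM τ) :
    (∀ a, NCM (x (i a))) ∧ ∀ a b, ∃ N, 0 < N ∧ IsogDeg N (x (i a)) (x (i b)) := by
  have h0 : ∀ a, HeckeRel (x (i 0)) (x (i a)) := by
    intro a
    fin_cases a
    · exact heckeRel_iff.mpr ⟨1, one_pos, IsogDeg.refl _⟩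
    · exact h1
    · exact h2
  have hiso : ∀ a b, ∃ N, 0 < N ∧ IsogDeg N (x (i a)) (x (i b)) := by
    intro a b
    obtain ⟨N, hN, h3⟩ := heckeRel_iff.mp (h0 a)
    obtain ⟨M, hM, h4⟩ := heckeRel_iff.mp (h0 b)
    exact ⟨N * M, Nat.mul_pos hN hM, h3.symm.trans hM h4⟩
  refine ⟨fun a => ?_, hiso⟩
  obtain ⟨N, hN, h3⟩ := hiso 0 a
  exact NCM.of_isog hN h3 hcm

/-- **Theorem H**: two types of points at infinity with two infinite coordinates -/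
theorem main_two {n : ℕ} {V : Set (Fin n → ℂ)} (hV : Pool.Agent.Hhelper14.ZPL.IsIrredClosed V)
    (hVk : KClosed V) (hdim : Pool.Agent.Hhelper14.ZPL.dim V = 1) (i : Fin 3 → Fin n)
    (hconst : ∀ a, ∀ c : ℂ, ∃ x ∈ V, x (i a) ≠ c)
    (hmod : ∀ a b, a ≠ b → ∀ g : GL (Fin 2) ℚ, 0 < g.det.val →
      ∃ x ∈ V, ¬ ∃ τ : ℍ, x (i a) = jInv τ ∧ x (i b) = jInv (gact g τ))
    {Q : MvPolynomial (Fin 3) ℂ} (hQ0 : constantCoeff Q ≠ 0)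
    (hQ : ∀ x ∈ V, (∀ a, x (i a) ≠ 0) → eval (fun a => (x (i a))⁻¹) Q = 0)
    {k₁ k₂ : Fin 3} (hk : k₁ ≠ k₂) (h₁ : TwoInf V i k₁) (h₂ : TwoInf V i k₂) :
    ∃ C : ℕ, ∀ x ∈ V, (∀ a, NCM (x (i a))) →
      (∀ a b, ∃ N, 0 < N ∧ IsogDeg N (x (i a)) (x (i b))) → Concl i C x :=
  finish hV hVk hdim i hconst hmod hQ0 hQ (core hV hVk hdim i hk h₁ h₂)

end Pool.Agent.LGO
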